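import Pool.Agent.Work.MP_2e8aec_co.Main

/-!
# Biclique covers: counterexamples with arbitrarily many colours
-/

set_option autoImplicit false

namespace Pool.Agent.Work.MP_2e8aec_co

open Finset

/-- There are abstract counterexamples with arbitrarily many colours. -/
theorem exists_counterEx_large (k₀ : ℕ) :
    ∃ R : ℕ, k₀ ≤ R ∧ 2 ≤ R ∧ CounterEx (Fin R × Fin R) := by
  obtain ⟨κ, hκ, V, i1, i2, i3, A, B, w, r, hG⟩ := exGood_big
  obtain ⟨N₀, h₀⟩ := core hG hκ
  have hr : 1 ≤ r := by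
    obtain ⟨v⟩ := i3
    obtain ⟨a, ha, hva⟩ := hG.hA.cov v
    have h1 := hG.hA.sum a ha
    have h2 : w v ≤ ∑ v ∈ a, w v := Finset.single_le_sum (fun _ _ => Nat.zero_le _) hva
    have h3 := hG.wpos v
    omega
  have hN : 3 ≤ max N₀ (max k₀ 3) := le_trans (le_max_right _ _) (le_max_right _ _)
  have hNk : k₀ ≤ max N₀ (max k₀ 3) := le_trans (le_max_left _ _) (le_max_right _ _)
  have hNr : 3 ≤ max N₀ (max k₀ 3) * r := le_trans hN (Nat.le_mul_of_pos_right _ hr)
  have hNkr : k₀ ≤ max N₀ (max k₀ 3) * r := le_trans hNk (Nat.le_mul_of_pos_right _ hr)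
  exact ⟨max N₀ (max k₀ 3) * r, hNkr, by omega, counterEx_of_core hG (by omega) hNr
    (h₀ _ (le_max_left _ _))⟩

/-- The colouring of a biclique obtained from an abstract counterexample. -/
theorem colouring_of_counterEx {K : Type} [Fintype K] [DecidableEq K]
    (h : CounterEx K) :
    ∃ m n : ℕ, 1 ≤ m ∧ 1 ≤ n ∧ ∃ c : Fin m → Fin n → Fin (Fintype.card K),
      ∀ S : Finset (Fin (Fintype.card K) × (Fin m ⊕ Fin n)),
        (∀ w : Fin m ⊕ Fin n, ∃ p ∈ S,
          (SimpleGraph.fromRel (fun x y : Fin m ⊕ Fin n =>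
            ∃ a b, x = Sum.inl a ∧ y = Sum.inr b ∧ c a b = p.1)).Reachable p.2 w) →
        2 * Fintype.card K - 2 < S.card := by
  classical
  obtain ⟨X, Y, Ω, iX, iY, iΩ, f, g, nX, nY, hex, hsx, hsy, hax, hay, hH⟩ := h
  have hex' : ∀ x y, ∃ i, f x i = g y i := fun x y => (hex x y).exists
  choose c0 hc0 using hex'
  let e : K ≃ Fin (Fintype.card K) := Fintype.equivFin K
  let eX : X ≃ Fin (Fintype.card X) := Fintype.equivFin X
  let eY : Y ≃ Fin (Fintype.card Y) := Fintype.equivFin Y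
  have hKpos : 0 < Fintype.card K := by
    obtain ⟨x⟩ := nX
    obtain ⟨y⟩ := nY
    exact Fintype.card_pos_iff.2 ⟨c0 x y⟩
  refine ⟨Fintype.card X, Fintype.card Y, Fintype.card_pos,
    Fintype.card_pos, fun a b => e (c0 (eX.symm a) (eY.symm b)), ?_⟩
  intro S hS
  by_contra hcon
  have hcard : S.card + 2 ≤ 2 * Fintype.card K := by omega
  -- the value of a vertex at a colour
  let val : Fin (Fintype.card K) → Fin (Fintype.card X) ⊕ Fin (Fintype.card Y) → Ω :=
    fun i v => Sum.elim (fun a => f (eX.symm a) (e.symm i)) (fun b => g (eY.symm b) (e.symm i)) v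
  have hadj : ∀ (i : Fin (Fintype.card K)) (u v : Fin (Fintype.card X) ⊕ Fin (Fintype.card Y)),
      (SimpleGraph.fromRel (fun x y : Fin (Fintype.card X) ⊕ Fin (Fintype.card Y) =>
        ∃ a b, x = Sum.inl a ∧ y = Sum.inr b ∧ e (c0 (eX.symm a) (eY.symm b)) = i)).Adj u v →
      val i u = val i v := by
    intro i u v huv
    rw [SimpleGraph.fromRel_adj] at huv
    rcases huv.2 with ⟨a, b, rfl, rfl, hab⟩ | ⟨a, b, rfl, rfl, hab⟩
    · subst hab
      simpa [val] using hc0 (eX.symm a) (eY.symm b)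
    · subst hab
      simpa [val] using (hc0 (eX.symm a) (eY.symm b)).symm
  have hreach : ∀ (i : Fin (Fintype.card K)) (u v : Fin (Fintype.card X) ⊕ Fin (Fintype.card Y)),
      (SimpleGraph.fromRel (fun x y : Fin (Fintype.card X) ⊕ Fin (Fintype.card Y) =>
        ∃ a b, x = Sum.inl a ∧ y = Sum.inr b ∧
          e (c0 (eX.symm a) (eY.symm b)) = i)).Reachable u v →
      val i u = val i v := by
    intro i u v ⟨p⟩
    induction p with
    | nil => rfl
    | cons hd _ ih => exact (hadj i _ _ hd).trans ih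
  let H : Finset (K × Ω) := S.image (fun p => (e.symm p.1, val p.1 p.2))
  have hHc : H.card + 2 ≤ 2 * Fintype.card K := by
    have : H.card ≤ S.card := card_image_le
    omega
  rcases hH H hHc with ⟨x, hx⟩ | ⟨y, hy⟩
  · obtain ⟨p, hp, hpr⟩ := hS (Sum.inl (eX x))
    refine hx (e.symm p.1) ?_
    have h1 : val p.1 p.2 = f x (e.symm p.1) := by
      rw [hreach p.1 _ _ hpr]; simp [val]
    rw [← h1]
    exact mem_image_of_mem (fun p => (e.symm p.1, val p.1 p.2)) hp
  · obtain ⟨p, hp, hpr⟩ := hS (Sum.inr (eY y))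
    refine hy (e.symm p.1) ?_
    have h1 : val p.1 p.2 = g y (e.symm p.1) := by
      rw [hreach p.1 _ _ hpr]; simp [val]
    rw [← h1]
    exact mem_image_of_mem (fun p => (e.symm p.1, val p.1 p.2)) hp

end Pool.Agent.Work.MP_2e8aec_co
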