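import Pool.Agent.Work.MP_2e8aec_co.Defs

/-!
# Composition of weighted pairs
-/

set_option autoImplicit false

namespace Pool.Agent.Work.MP_2e8aec_co

open Finset

namespace CompAux

variable {V₁ V₂ : Type} [Fintype V₁] [DecidableEq V₁] [Fintype V₂] [DecidableEq V₂]

theorem mem_fib {S : Finset (V₁ × V₂)} {v : V₁} {u : V₂} : u ∈ fib S v ↔ (v, u) ∈ S := by
  simp [fib]

theorem mem_bas {S : Finset (V₁ × V₂)} {v : V₁} : v ∈ bas S ↔ ∃ u, (v, u) ∈ S := by
  simp [bas, Finset.Nonempty, mem_fib]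

theorem sum_pairs {M : Type} [AddCommMonoid M] (U : Finset (V₁ × V₂)) (f : V₁ × V₂ → M) :
    ∑ p ∈ U, f p = ∑ v, ∑ u ∈ fib U v, f (v, u) := by
  have h1 : ∑ p ∈ U, f p = ∑ p : V₁ × V₂, if p ∈ U then f p else 0 := by
    rw [Finset.sum_ite_mem, Finset.univ_inter]
  rw [h1, Fintype.sum_prod_type]
  refine Finset.sum_congr rfl fun v _ => ?_
  rw [fib, Finset.sum_filter]

/-- glue sets over a base -/
def glue (a : Finset V₁) (g : V₁ → Finset V₂) : Finset (V₁ × V₂) :=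
  univ.filter (fun p => p.1 ∈ a ∧ p.2 ∈ g p.1)

theorem mem_glue {a : Finset V₁} {g : V₁ → Finset V₂} {p : V₁ × V₂} :
    p ∈ glue a g ↔ p.1 ∈ a ∧ p.2 ∈ g p.1 := by
  simp [glue]

theorem fib_glue {a : Finset V₁} {g : V₁ → Finset V₂} {v : V₁} (hv : v ∈ a) :
    fib (glue a g) v = g v := by
  ext u
  rw [mem_fib, mem_glue]
  simp [hv]

theorem bas_glue {a : Finset V₁} {g : V₁ → Finset V₂} (hg : ∀ v ∈ a, (g v).Nonempty) :
    bas (glue a g) = a := by
  ext v
  rw [mem_bas]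
  constructor
  · rintro ⟨u, hu⟩
    exact (mem_glue.1 hu).1
  · intro hv
    obtain ⟨u, hu⟩ := hg v hv
    exact ⟨u, mem_glue.2 ⟨hv, hu⟩⟩

theorem glue_mem {A₁ : Finset (Finset V₁)} {A₂ : Finset (Finset V₂)} {a : Finset V₁}
    {g : V₁ → Finset V₂} (ha : a ∈ A₁) (hg : ∀ v ∈ a, g v ∈ A₂)
    (hne : ∀ b ∈ A₂, b.Nonempty) : glue a g ∈ comp A₁ A₂ := by
  have hb := bas_glue (fun v hv => hne _ (hg v hv))
  rw [comp, Finset.mem_filter]
  refine ⟨Finset.mem_univ _, by rw [hb]; exact ha, ?_⟩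
  intro v hv
  rw [hb] at hv
  rw [fib_glue hv]
  exact hg v hv

theorem nonempty_of {V : Type} [Fintype V] [DecidableEq V] {A B : Finset (Finset V)} {w : V → ℕ}
    {r : ℕ} {κ : ℝ} (h : Half A B w r κ) : ∀ b ∈ A, b.Nonempty := by
  intro b hb
  have := h.two b hb
  exact Finset.card_pos.1 (by omega)

theorem w_le {V : Type} [Fintype V] [DecidableEq V] {A B : Finset (Finset V)} {w : V → ℕ}
    {r : ℕ} {κ : ℝ} (h : Half A B w r κ) (v : V) : w v ≤ r := by
  obtain ⟨a, ha, hva⟩ := h.cov v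
  rw [← h.sum a ha]
  exact Finset.single_le_sum (fun _ _ => Nat.zero_le _) hva

theorem disjoint_glue {a : Finset V₁} {g : V₁ → Finset V₂} {U : Finset (V₁ × V₂)}
    (h : ∀ v ∈ a, Disjoint (g v) (fib U v)) : Disjoint (glue a g) U := by
  rw [Finset.disjoint_left]
  rintro ⟨v, u⟩ hp hU
  obtain ⟨h1, h2⟩ := mem_glue.1 hp
  exact Finset.disjoint_left.1 (h v h1) h2 (mem_fib.2 hU)

end CompAux

open CompAux in
theorem half_comp {V₁ V₂ : Type} [Fintype V₁] [DecidableEq V₁] [Fintype V₂] [DecidableEq V₂]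
    [Nonempty V₂]
    {A₁ B₁ : Finset (Finset V₁)} {A₂ B₂ : Finset (Finset V₂)} {w₁ : V₁ → ℕ} {w₂ : V₂ → ℕ}
    {r₁ r₂ : ℕ} {κ₁ κ₂ : ℝ} (hκ₁ : 1 ≤ κ₁) (hκ₂ : 1 ≤ κ₂)
    (hw₁ : ∀ v, 1 ≤ w₁ v) (hw₂ : ∀ v, 1 ≤ w₂ v)
    (h₁ : Half A₁ B₁ w₁ r₁ κ₁) (h₂ : Half A₂ B₂ w₂ r₂ κ₂) :
    Half (comp A₁ A₂) (comp B₁ B₂) (fun p => w₁ p.1 * w₂ p.2) (r₁ * r₂) (κ₁ * κ₂) := by
  classical
  have hr₂ : 0 < r₂ := by
    obtain ⟨v⟩ := (inferInstance : Nonempty V₂)
    have := w_le h₂ v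
    have := hw₂ v
    omega
  have hne₂ := nonempty_of h₂
  have hsum : ∀ U : Finset (V₁ × V₂), ∑ p ∈ U, w₁ p.1 * w₂ p.2 =
      ∑ v, w₁ v * ∑ u ∈ fib U v, w₂ u := by
    intro U
    rw [sum_pairs]
    refine Finset.sum_congr rfl fun v _ => ?_
    rw [Finset.mul_sum]
  -- the base set of the fibres that hit
  have hbase : ∀ U : Finset (V₁ × V₂), Hits (comp A₁ A₂) U →
      Hits A₁ (univ.filter fun v => Hits A₂ (fib U v)) := by
    intro U hU a ha hdis
    have h : ∀ v, ∃ b, v ∈ a → b ∈ A₂ ∧ Disjoint b (fib U v) := by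
      intro v
      by_cases hv : v ∈ a
      · have h1 : ¬ Hits A₂ (fib U v) := by
          intro hh
          exact Finset.disjoint_left.1 hdis hv (Finset.mem_filter.2 ⟨Finset.mem_univ _, hh⟩)
        unfold Hits at h1
        push Not at h1
        obtain ⟨b, hb, hb'⟩ := h1
        exact ⟨b, fun _ => ⟨hb, hb'⟩⟩
      · exact ⟨∅, fun h => absurd h hv⟩
    choose g hg using h
    exact hU (glue a g) (glue_mem ha (fun v hv => (hg v hv).1) hne₂)
      (disjoint_glue fun v hv => (hg v hv).2)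
  refine ⟨?_, ?_, ?_, ?_, ?_, ?_⟩
  · -- sum
    intro S hS
    rw [comp, Finset.mem_filter] at hS
    obtain ⟨-, hb, hf⟩ := hS
    rw [hsum]
    have h1 : ∀ v, w₁ v * ∑ u ∈ fib S v, w₂ u = if v ∈ bas S then w₁ v * r₂ else 0 := by
      intro v
      split_ifs with hv
      · rw [h₂.sum _ (hf v hv)]
      · have : fib S v = ∅ := by
          rw [Finset.eq_empty_iff_forall_notMem]
          intro u hu
          exact hv (mem_bas.2 ⟨u, mem_fib.1 hu⟩)
        rw [this]; simp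
    rw [Finset.sum_congr rfl fun v _ => h1 v, Finset.sum_ite_mem, Finset.univ_inter,
      ← Finset.sum_mul, h₁.sum _ hb]
  · -- two
    intro S hS
    rw [comp, Finset.mem_filter] at hS
    obtain ⟨-, hb, hf⟩ := hS
    refine (h₁.two _ hb).trans ?_
    have : bas S = S.image Prod.fst := by
      ext v
      rw [mem_bas, Finset.mem_image]
      constructor
      · rintro ⟨u, hu⟩; exact ⟨(v, u), hu, rfl⟩
      · rintro ⟨⟨v', u⟩, hp, rfl⟩; exact ⟨u, hp⟩
    rw [this]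
    exact Finset.card_image_le
  · -- cov
    rintro ⟨v, u⟩
    obtain ⟨a, ha, hva⟩ := h₁.cov v
    obtain ⟨b, hb, hub⟩ := h₂.cov u
    exact ⟨glue a (fun _ => b), glue_mem ha (fun _ _ => hb) hne₂, mem_glue.2 ⟨hva, hub⟩⟩
  · -- hit
    intro U hU
    have h1 := h₁.hit _ (hbase U hU)
    rw [hsum]
    calc r₁ * r₂ ≤ (∑ v ∈ univ.filter (fun v => Hits A₂ (fib U v)), w₁ v) * r₂ :=
          Nat.mul_le_mul_right _ h1
      _ = ∑ v ∈ univ.filter (fun v => Hits A₂ (fib U v)), w₁ v * r₂ := Finset.sum_mul _ _ _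
      _ ≤ ∑ v ∈ univ.filter (fun v => Hits A₂ (fib U v)), w₁ v * ∑ u ∈ fib U v, w₂ u := by
          refine Finset.sum_le_sum fun v hv => Nat.mul_le_mul_left _ ?_
          exact h₂.hit _ (Finset.mem_filter.1 hv).2
      _ ≤ ∑ v, w₁ v * ∑ u ∈ fib U v, w₂ u :=
          Finset.sum_le_sum_of_subset (Finset.subset_univ _)
  · -- tight
    intro U hU heq
    rw [hsum] at heq
    set U₁ := univ.filter (fun v => Hits A₂ (fib U v)) with hU₁
    have h1 := h₁.hit _ (hbase U hU)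
    have hmem : ∀ v, v ∈ U₁ ↔ Hits A₂ (fib U v) := fun v => by simp [hU₁]
    have hsplit : ∑ v, w₁ v * ∑ u ∈ fib U v, w₂ u =
        ∑ v ∈ U₁, w₁ v * ∑ u ∈ fib U v, w₂ u + ∑ v ∈ U₁ᶜ, w₁ v * ∑ u ∈ fib U v, w₂ u :=
      (Finset.sum_add_sum_compl U₁ _).symm
    have h2 : ∀ v ∈ U₁, w₁ v * r₂ ≤ w₁ v * ∑ u ∈ fib U v, w₂ u := by
      intro v hv
      exact Nat.mul_le_mul_left _ (h₂.hit _ ((hmem v).1 hv))
    have h3 : ∑ v ∈ U₁, w₁ v * r₂ ≤ ∑ v ∈ U₁, w₁ v * ∑ u ∈ fib U v, w₂ u :=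
      Finset.sum_le_sum h2
    have h4 : r₁ * r₂ ≤ ∑ v ∈ U₁, w₁ v * r₂ := by
      rw [← Finset.sum_mul]
      exact Nat.mul_le_mul_right _ h1
    have h5 : ∑ v ∈ U₁ᶜ, w₁ v * ∑ u ∈ fib U v, w₂ u = 0 := by omega
    have h6 : ∑ v ∈ U₁, w₁ v * r₂ = ∑ v ∈ U₁, w₁ v * ∑ u ∈ fib U v, w₂ u := by omega
    have h7 : ∑ v ∈ U₁, w₁ v * r₂ = r₁ * r₂ := by omega
    have hout : ∀ v, v ∉ U₁ → fib U v = ∅ := by
      intro v hv
      have h8 := Finset.sum_eq_zero_iff.1 h5 v (Finset.mem_compl.2 hv)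
      have h9 : ∑ u ∈ fib U v, w₂ u = 0 := by
        rcases Nat.mul_eq_zero.1 h8 with h | h
        · have := hw₁ v; omega
        · exact h
      rw [Finset.eq_empty_iff_forall_notMem]
      intro u hu
      have := Finset.sum_eq_zero_iff.1 h9 u hu
      have := hw₂ u
      omega
    have hin : ∀ v ∈ U₁, ∑ u ∈ fib U v, w₂ u = r₂ := by
      intro v hv
      have h8 := (Finset.sum_eq_sum_iff_of_le h2).1 h6 v hv
      exact (Nat.eq_of_mul_eq_mul_left (hw₁ v) h8).symm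
    have hbas : bas U = U₁ := by
      ext v
      constructor
      · intro hv
        by_contra hv'
        obtain ⟨u, hu⟩ := mem_bas.1 hv
        have := mem_fib.2 hu
        rw [hout v hv'] at this
        exact Finset.notMem_empty _ this
      · intro hv
        have h8 := hin v hv
        have h9 : (fib U v).Nonempty := by
          rw [Finset.nonempty_iff_ne_empty]
          intro h
          rw [h] at h8
          simp at h8
          omega
        obtain ⟨u, hu⟩ := h9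
        exact mem_bas.2 ⟨u, mem_fib.1 hu⟩
    rw [comp, Finset.mem_filter]
    refine ⟨Finset.mem_univ _, ?_, ?_⟩
    · rw [hbas]
      refine h₁.tight _ (hbase U hU) ?_
      rw [← Finset.sum_mul] at h7
      exact Nat.eq_of_mul_eq_mul_right hr₂ h7
    · intro v hv
      rw [hbas] at hv
      exact h₂.tight _ ((hmem v).1 hv) (hin v hv)
  · -- kap
    intro U hU
    set U₁ := univ.filter (fun v => Hits A₂ (fib U v)) with hU₁
    have hmem : ∀ v, v ∈ U₁ ↔ Hits A₂ (fib U v) := fun v => by simp [hU₁]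
    have hnh : ¬ Hits A₁ U₁ := by
      intro hh
      apply hU
      intro S hS hdis
      rw [comp, Finset.mem_filter] at hS
      obtain ⟨-, hb, hf⟩ := hS
      apply hh _ hb
      rw [Finset.disjoint_left]
      intro v hv hv'
      apply (hmem v).1 hv' _ (hf v hv)
      rw [Finset.disjoint_left]
      intro u hu hu'
      exact Finset.disjoint_left.1 hdis (mem_fib.1 hu) (mem_fib.1 hu')
    have hdisj : ∀ v ∈ reach A₁ U₁, v ∉ U₁ := by
      intro v hv
      rw [reach, Finset.mem_filter] at hv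
      obtain ⟨-, a, _, hva, hd⟩ := hv
      exact Finset.disjoint_left.1 hd hva
    have hreach : glue (reach A₁ U₁) (fun v => reach A₂ (fib U v)) ⊆ reach (comp A₁ A₂) U := by
      rintro ⟨v, u⟩ hp
      obtain ⟨hv, hu⟩ := mem_glue.1 hp
      simp only at hv hu
      rw [reach, Finset.mem_filter] at hv hu
      obtain ⟨-, a, ha, hva, hda⟩ := hv
      obtain ⟨-, b, hb, hub, hdb⟩ := hu
      have h : ∀ v', ∃ b', v' ∈ a → b' ∈ A₂ ∧ Disjoint b' (fib U v') := by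
        intro v'
        by_cases hv' : v' ∈ a
        · have h1 : ¬ Hits A₂ (fib U v') := by
            intro hh
            exact Finset.disjoint_left.1 hda hv' ((hmem v').2 hh)
          unfold Hits at h1
          push Not at h1
          obtain ⟨b', hb', hb''⟩ := h1
          exact ⟨b', fun _ => ⟨hb', hb''⟩⟩
        · exact ⟨∅, fun h => absurd h hv'⟩
      choose g hg using h
      rw [reach, Finset.mem_filter]
      refine ⟨Finset.mem_univ _, glue a (Function.update g v b), ?_, ?_, ?_⟩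
      · refine glue_mem ha (fun v' hv' => ?_) hne₂
        by_cases h : v' = v
        · subst h; simpa using hb
        · rw [Function.update_of_ne h]; exact (hg v' hv').1
      · rw [mem_glue]
        exact ⟨hva, by simpa using hub⟩
      · refine disjoint_glue fun v' hv' => ?_
        by_cases h : v' = v
        · subst h; simpa using hdb
        · rw [Function.update_of_ne h]; exact (hg v' hv').2
    -- real weights
    let q : V₁ → ℝ := fun v => ∑ u ∈ fib U v, (w₂ u : ℝ)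
    have hq0 : ∀ v, 0 ≤ q v := fun v => Finset.sum_nonneg fun _ _ => by positivity
    have hwU : ∑ p ∈ U, ((w₁ p.1 * w₂ p.2 : ℕ) : ℝ) = ∑ v, (w₁ v : ℝ) * q v := by
      rw [sum_pairs]
      refine Finset.sum_congr rfl fun v _ => ?_
      rw [Finset.mul_sum]
      refine Finset.sum_congr rfl fun u _ => ?_
      push_cast
      rfl
    have hκ₂0 : 0 ≤ κ₂ := by linarith
    have hκ₁0 : 0 ≤ κ₁ := by linarith
    have hS1 : ∑ v ∈ reach A₁ U₁, (w₁ v : ℝ) ^ 2 * (κ₂ * r₂ * (r₂ - q v)) ≤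
        ∑ p ∈ reach (comp A₁ A₂) U, ((w₁ p.1 * w₂ p.2 : ℕ) : ℝ) ^ 2 := by
      refine le_trans ?_ (Finset.sum_le_sum_of_subset_of_nonneg hreach fun _ _ _ => by positivity)
      rw [sum_pairs]
      have hsub : ∑ v ∈ reach A₁ U₁, ∑ u ∈ fib (glue (reach A₁ U₁) (fun v => reach A₂ (fib U v))) v,
          ((w₁ v * w₂ u : ℕ) : ℝ) ^ 2 ≤ ∑ v, ∑ u ∈ fib (glue (reach A₁ U₁)
            (fun v => reach A₂ (fib U v))) v, ((w₁ v * w₂ u : ℕ) : ℝ) ^ 2 :=
        Finset.sum_le_sum_of_subset_of_nonneg (Finset.subset_univ _)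
          fun _ _ _ => Finset.sum_nonneg fun _ _ => by positivity
      refine le_trans ?_ hsub
      refine Finset.sum_le_sum fun v hv => ?_
      rw [fib_glue hv]
      have h1 := h₂.kap (fib U v) (fun h => hdisj v hv ((hmem v).2 h))
      have h2 : ∑ u ∈ reach A₂ (fib U v), ((w₁ v * w₂ u : ℕ) : ℝ) ^ 2 =
          (w₁ v : ℝ) ^ 2 * ∑ u ∈ reach A₂ (fib U v), (w₂ u : ℝ) ^ 2 := by
        rw [Finset.mul_sum]
        refine Finset.sum_congr rfl fun u _ => ?_
        push_cast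
        ring
      rw [h2]
      exact mul_le_mul_of_nonneg_left h1 (by positivity)
    refine le_trans ?_ hS1
    have hk1 := h₁.kap U₁ hnh
    have e1 : ∑ v ∈ reach A₁ U₁, (w₁ v : ℝ) ^ 2 * (κ₂ * r₂ * (r₂ - q v)) =
        κ₂ * r₂ * (r₂ * ∑ v ∈ reach A₁ U₁, (w₁ v : ℝ) ^ 2 -
          ∑ v ∈ reach A₁ U₁, (w₁ v : ℝ) ^ 2 * q v) := by
      rw [mul_sub, ← mul_assoc, Finset.mul_sum, Finset.mul_sum, ← Finset.sum_sub_distrib]
      refine Finset.sum_congr rfl fun v _ => ?_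
      ring
    have e2 : ∑ v ∈ reach A₁ U₁, (w₁ v : ℝ) ^ 2 * q v ≤
        κ₁ * r₁ * ∑ v ∈ reach A₁ U₁, (w₁ v : ℝ) * q v := by
      rw [Finset.mul_sum]
      refine Finset.sum_le_sum fun v _ => ?_
      have h1 : (w₁ v : ℝ) ≤ r₁ := by exact_mod_cast w_le h₁ v
      have h2 : (w₁ v : ℝ) ≤ κ₁ * r₁ := by
        have : (r₁ : ℝ) ≤ κ₁ * r₁ := le_mul_of_one_le_left (by positivity) hκ₁
        linarith
      have h3 : 0 ≤ (w₁ v : ℝ) * q v := mul_nonneg (by positivity) (hq0 v)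
      nlinarith
    have e3 : (r₂ : ℝ) * ∑ v ∈ U₁, (w₁ v : ℝ) ≤ ∑ v ∈ U₁, (w₁ v : ℝ) * q v := by
      rw [Finset.mul_sum]
      refine Finset.sum_le_sum fun v hv => ?_
      have h1 := h₂.hit _ ((hmem v).1 hv)
      have h2 : (r₂ : ℝ) ≤ q v := by
        simp only [q]
        exact_mod_cast h1
      rw [mul_comm]
      exact mul_le_mul_of_nonneg_left h2 (by positivity)
    have e4 : ∑ v ∈ U₁, (w₁ v : ℝ) * q v + ∑ v ∈ reach A₁ U₁, (w₁ v : ℝ) * q v ≤
        ∑ v, (w₁ v : ℝ) * q v := by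
      rw [← Finset.sum_union]
      · exact Finset.sum_le_sum_of_subset_of_nonneg (Finset.subset_univ _)
          fun v _ _ => mul_nonneg (by positivity) (hq0 v)
      · rw [Finset.disjoint_left]
        intro v hv hv'
        exact hdisj v hv' hv
    rw [e1, hwU]
    push_cast
    have e5 : κ₁ * κ₂ * (r₁ * r₂) * (r₁ * r₂ - ∑ v, (w₁ v : ℝ) * q v) =
        κ₂ * r₂ * (κ₁ * r₁ * (r₁ * r₂ - ∑ v, (w₁ v : ℝ) * q v)) := by ring
    rw [e5]
    refine mul_le_mul_of_nonneg_left ?_ (by positivity)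
    have hk2 : (r₂ : ℝ) * (κ₁ * r₁ * (r₁ - ∑ v ∈ U₁, (w₁ v : ℝ))) ≤
        r₂ * ∑ v ∈ reach A₁ U₁, (w₁ v : ℝ) ^ 2 := mul_le_mul_of_nonneg_left hk1 (by positivity)
    have hk3 : κ₁ * r₁ * (r₂ * ∑ v ∈ U₁, (w₁ v : ℝ) + ∑ v ∈ reach A₁ U₁, (w₁ v : ℝ) * q v) ≤
        κ₁ * r₁ * ∑ v, (w₁ v : ℝ) * q v :=
      mul_le_mul_of_nonneg_left (by linarith) (by positivity)
    nlinarith

end Pool.Agent.Work.MP_2e8aec_co
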