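import Pool.Agent.Work.MP_2e8aec_co.Comp

/-!
# Composition of good pairs
-/

set_option autoImplicit false

namespace Pool.Agent.Work.MP_2e8aec_co

open Finset CompAux

theorem exGood_comp {κ₁ κ₂ : ℝ} (hκ₁ : 1 ≤ κ₁) (hκ₂ : 1 ≤ κ₂) (h₁ : ExGood κ₁)
    (h₂ : ExGood κ₂) : ExGood (κ₁ * κ₂) := by
  obtain ⟨V₁, f1, d1, n1, A₁, B₁, w₁, r₁, g₁⟩ := h₁
  obtain ⟨V₂, f2, d2, n2, A₂, B₂, w₂, r₂, g₂⟩ := h₂
  refine ⟨V₁ × V₂, inferInstance, inferInstance, inferInstance, comp A₁ A₂, comp B₁ B₂,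
    fun p => w₁ p.1 * w₂ p.2, r₁ * r₂, ?_, ?_, ?_, ?_⟩
  · intro p
    exact Nat.one_le_iff_ne_zero.2 (Nat.mul_ne_zero (by have := g₁.wpos p.1; omega)
      (by have := g₂.wpos p.2; omega))
  · intro S hS T hT
    rw [comp, Finset.mem_filter] at hS hT
    obtain ⟨-, hSb, hSf⟩ := hS
    obtain ⟨-, hTb, hTf⟩ := hT
    obtain ⟨v, hv⟩ := g₁.exact _ hSb _ hTb
    have hv' : v ∈ bas S ∩ bas T := by rw [hv]; exact Finset.mem_singleton_self v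
    obtain ⟨hvS, hvT⟩ := Finset.mem_inter.1 hv'
    obtain ⟨u, hu⟩ := g₂.exact _ (hSf v hvS) _ (hTf v hvT)
    refine ⟨(v, u), ?_⟩
    ext ⟨v', u'⟩
    rw [Finset.mem_inter, Finset.mem_singleton]
    constructor
    · rintro ⟨h1, h2⟩
      have h3 : v' ∈ bas S ∩ bas T := Finset.mem_inter.2 ⟨mem_bas.2 ⟨u', h1⟩, mem_bas.2 ⟨u', h2⟩⟩
      rw [hv, Finset.mem_singleton] at h3
      subst h3
      have h4 : u' ∈ fib S v' ∩ fib T v' := Finset.mem_inter.2 ⟨mem_fib.2 h1, mem_fib.2 h2⟩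
      rw [hu, Finset.mem_singleton] at h4
      rw [h4]
    · intro h
      obtain ⟨rfl, rfl⟩ := Prod.mk.inj h
      have h4 : u' ∈ fib S v' ∩ fib T v' := by rw [hu]; exact Finset.mem_singleton_self _
      exact ⟨mem_fib.1 (Finset.mem_inter.1 h4).1, mem_fib.1 (Finset.mem_inter.1 h4).2⟩
  · exact half_comp hκ₁ hκ₂ g₁.wpos g₂.wpos g₁.hA g₂.hA
  · exact half_comp hκ₁ hκ₂ g₁.wpos g₂.wpos g₁.hB g₂.hB

end Pool.Agent.Work.MP_2e8aec_co
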