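import Pool.Agent.Work.MP_2e8aec_co.Defs

set_option autoImplicit false

namespace Pool.Agent.Work.MP_2e8aec_co

open Finset

theorem finalB {K : Type} [Fintype K] [DecidableEq K] (hK : 2 ≤ Fintype.card K)
    (h : CounterEx K) :
    ∃ m n r : ℕ, 0 < m ∧ 0 < n ∧ 2 ≤ r ∧ ∃ c : Fin m → Fin n → Fin r,
      (∀ x x' : Fin m, ∀ y y' : Fin n,
          c x y = c x' y → c x' y' = c x' y → c x y' = c x y) ∧
      (∀ (x : Fin m) (i : Fin r), ∃ y : Fin n, c x y = i) ∧
      (∀ (y : Fin n) (i : Fin r), ∃ x : Fin m, c x y = i) ∧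
      (∀ (i j : Fin r) (y y' : Fin n),
          ¬ (({x : Fin m | c x y = i} : Set (Fin m)) ⊂ {x : Fin m | c x y' = j})) ∧
      (∀ (i j : Fin r) (x x' : Fin m),
          ¬ (({y : Fin n | c x y = i} : Set (Fin n)) ⊂ {y : Fin n | c x' y = j})) ∧
      ∀ S : Finset (Fin r × Fin n), S.card ≤ 2 * r - 2 →
        ¬ ((∀ x : Fin m, ∃ p ∈ S, c x p.2 = p.1) ∧
          (∀ y : Fin n, ∃ p ∈ S, ∃ x : Fin m, c x p.2 = p.1 ∧ c x y = p.1)) := by
  classical
  obtain ⟨X, Y, Ω, iX, iY, iΩ, f, g, nX, nY, hex, hsx, hsy, hax, hay, hH⟩ := h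
  have hex' : ∀ x y, ∃ i, f x i = g y i := fun x y => (hex x y).exists
  choose c0 hc0 using hex'
  have huniq : ∀ x y i, f x i = g y i → c0 x y = i := fun x y i hi =>
    (hex x y).unique (hc0 x y) hi
  have hiff : ∀ x y i, c0 x y = i ↔ f x i = g y i := fun x y i =>
    ⟨fun h => by rw [← h]; exact hc0 x y, huniq x y i⟩
  let e : K ≃ Fin (Fintype.card K) := Fintype.equivFin K
  let eX : X ≃ Fin (Fintype.card X) := Fintype.equivFin X
  let eY : Y ≃ Fin (Fintype.card Y) := Fintype.equivFin Y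
  have hiff' : ∀ a b i, e (c0 (eX.symm a) (eY.symm b)) = i ↔
      f (eX.symm a) (e.symm i) = g (eY.symm b) (e.symm i) := by
    intro a b i
    rw [← hiff, ← Equiv.eq_symm_apply]
  refine ⟨Fintype.card X, Fintype.card Y, Fintype.card K, Fintype.card_pos,
    Fintype.card_pos, hK, fun a b => e (c0 (eX.symm a) (eY.symm b)), ?_, ?_, ?_, ?_, ?_, ?_⟩
  · intro x x' y y' h1 h2
    set i := e (c0 (eX.symm x') (eY.symm y)) with hi
    have e1 := (hiff' _ _ _).1 h1
    have e2 := (hiff' _ _ _).1 h2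
    have e3 := (hiff' _ _ _).1 hi.symm
    have e4 : e (c0 (eX.symm x) (eY.symm y')) = i := by
      rw [hiff', e1, ← e3, e2]
    exact e4.trans h1.symm
  · intro x i
    obtain ⟨y, hy⟩ := hsx (eX.symm x) (e.symm i)
    refine ⟨eY y, ?_⟩
    simp only [hiff']
    simpa using hy.symm
  · intro y i
    obtain ⟨x, hx⟩ := hsy (eY.symm y) (e.symm i)
    refine ⟨eX x, ?_⟩
    simp only [hiff']
    simpa using hx
  · intro i j y y' hss
    obtain ⟨x0, hx0⟩ := hsy (eY.symm y) (e.symm i)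
    obtain ⟨x1, hx1⟩ := hsy (eY.symm y') (e.symm j)
    refine hss.2 ?_
    have hsub : ∀ z, f z (e.symm i) = f x0 (e.symm i) → f z (e.symm j) = f x1 (e.symm j) := by
      intro z hz
      have h1 : eX z ∈ ({x | e (c0 (eX.symm x) (eY.symm y)) = i} : Set (Fin (Fintype.card X))) := by
        simp only [Set.mem_ofPred_eq, hiff']
        simp only [Equiv.symm_apply_apply]
        rw [hz, hx0]
      have h2 := hss.1 h1
      simp only [Set.mem_ofPred_eq, hiff', Equiv.symm_apply_apply] at h2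
      rw [h2, hx1]
    have hrev := hax (e.symm i) (e.symm j) x0 x1 hsub
    intro a ha
    simp only [Set.mem_ofPred_eq, hiff'] at ha ⊢
    rw [hrev (eX.symm a) (by rw [ha, hx1]), hx0]
  · intro i j x x' hss
    obtain ⟨y0, hy0⟩ := hsx (eX.symm x) (e.symm i)
    obtain ⟨y1, hy1⟩ := hsx (eX.symm x') (e.symm j)
    refine hss.2 ?_
    have hsub : ∀ z, g z (e.symm i) = g y0 (e.symm i) → g z (e.symm j) = g y1 (e.symm j) := by
      intro z hz
      have h1 : eY z ∈ ({y | e (c0 (eX.symm x) (eY.symm y)) = i} : Set (Fin (Fintype.card Y))) := by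
        simp only [Set.mem_ofPred_eq, hiff']
        simp only [Equiv.symm_apply_apply]
        rw [hz, hy0]
      have h2 := hss.1 h1
      simp only [Set.mem_ofPred_eq, hiff', Equiv.symm_apply_apply] at h2
      rw [← h2, hy1]
    have hrev := hay (e.symm i) (e.symm j) y0 y1 hsub
    intro b hb
    simp only [Set.mem_ofPred_eq, hiff'] at hb ⊢
    rw [hrev (eY.symm b) (by rw [← hb, hy1]), hy0]
  · intro S hSc ⟨hS1, hS2⟩
    let H : Finset (K × Ω) := S.image (fun p => (e.symm p.1, g (eY.symm p.2) (e.symm p.1)))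
    have hHc : H.card + 2 ≤ 2 * Fintype.card K := by
      have : H.card ≤ S.card := card_image_le
      omega
    rcases hH H hHc with ⟨x, hx⟩ | ⟨y, hy⟩
    · obtain ⟨p, hp, hpr⟩ := hS1 (eX x)
      refine hx (e.symm p.1) ?_
      have h1 : g (eY.symm p.2) (e.symm p.1) = f x (e.symm p.1) := by
        have := (hiff' _ _ _).1 hpr
        simpa using this.symm
      rw [← h1]
      exact mem_image_of_mem (fun p => (e.symm p.1, g (eY.symm p.2) (e.symm p.1))) hp
    · obtain ⟨p, hp, a, ha, hb⟩ := hS2 (eY y)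
      refine hy (e.symm p.1) ?_
      have h1 : g (eY.symm p.2) (e.symm p.1) = g y (e.symm p.1) := by
        have h2 := (hiff' _ _ _).1 ha
        have h3 := (hiff' _ _ _).1 hb
        simp only [Equiv.symm_apply_apply] at h3
        rw [← h2, h3]
      rw [← h1]
      exact mem_image_of_mem (fun p => (e.symm p.1, g (eY.symm p.2) (e.symm p.1))) hp

end Pool.Agent.Work.MP_2e8aec_co
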