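import Pool.Agent.Work.MP_2e8aec_co.Defs

/-!
# Module Hall
-/

set_option autoImplicit false

namespace Pool.Agent.Work.MP_2e8aec_co

open Finset

theorem hall_aux {α : Type} [DecidableEq α] (s : Finset α) (R : ℕ) (hs : s.card = R)
    (D : α → Fin R → Prop)
    (h : ∀ σ : {x // x ∈ s} ≃ Fin R, ∃ x : {x // x ∈ s}, D x.1 (σ x)) :
    ∃ S ⊆ s, ∃ T : Finset (Fin R), R + 1 ≤ S.card + T.card ∧ ∀ x ∈ S, ∀ j ∈ T, D x j := by
  classical
  let t : {x // x ∈ s} → Finset (Fin R) := fun x => univ.filter (fun j => ¬ D x.1 j)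
  by_cases hall : ∀ S' : Finset {x // x ∈ s}, S'.card ≤ (S'.biUnion t).card
  · exfalso
    obtain ⟨f, hf, hft⟩ := (Finset.all_card_le_biUnion_card_iff_exists_injective t).1 hall
    have hcard : Fintype.card {x // x ∈ s} = Fintype.card (Fin R) := by
      rw [Fintype.card_coe, Fintype.card_fin, hs]
    have hbij : Function.Bijective f := (Fintype.bijective_iff_injective_and_card f).2 ⟨hf, hcard⟩
    obtain ⟨x, hx⟩ := h (Equiv.ofBijective f hbij)
    exact (Finset.mem_filter.1 (hft x)).2 hx
  · push Not at hall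
    obtain ⟨S', hS'⟩ := hall
    refine ⟨S'.image Subtype.val, ?_, (S'.biUnion t)ᶜ, ?_, ?_⟩
    · intro x hx
      obtain ⟨y, _, rfl⟩ := Finset.mem_image.1 hx
      exact y.2
    · rw [Finset.card_image_of_injective _ Subtype.val_injective, Finset.card_compl,
        Fintype.card_fin]
      have h1 : (S'.biUnion t).card ≤ R := by
        have := Finset.card_le_univ (S'.biUnion t)
        rwa [Fintype.card_fin] at this
      omega
    · intro x hx j hj
      obtain ⟨y, hy, rfl⟩ := Finset.mem_image.1 hx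
      by_contra hD
      apply Finset.mem_compl.1 hj
      exact Finset.mem_biUnion.2 ⟨y, hy, Finset.mem_filter.2 ⟨Finset.mem_univ _, hD⟩⟩

end Pool.Agent.Work.MP_2e8aec_co
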