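import Pool.Agent.Work.MP_2e8aec_co.Defs

/-!
# The lifting: objects and cells
-/

set_option autoImplicit false

namespace Pool.Agent.Work.MP_2e8aec_co

open Finset

section Lift

variable {V : Type} [Fintype V] [DecidableEq V] {A B : Finset (Finset V)} {w : V → ℕ} {r N : ℕ}
  {κ : ℝ}

theorem card_slots (a : Finset V) : (slots w N a).card = N * ∑ v ∈ a, w v := by
  have h : slots w N a = a.sigma (fun _ => Finset.univ) := by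
    ext s
    simp [slots]
  rw [h, Finset.card_sigma, Finset.mul_sum]
  simp

namespace LiftAux

theorem fX_eq_iff (x : XObj A w r N) (k : Fin (N * r) × Fin (N * r)) (v : V)
    (c y : Fin (N * w v)) : fX x k = ⟨⟨v, c⟩, y⟩ ↔
      (∃ h : (⟨v, c⟩ : Slot w N) ∈ slots w N x.1.1, x.2.2 k.1 ⟨⟨v, c⟩, h⟩ = k.2) ∧
        x.2.1 ⟨v, c⟩ = y := by
  have hx : fX x k = (⟨((x.2.2 k.1).symm k.2).1, x.2.1 ((x.2.2 k.1).symm k.2).1⟩ : Elem w N) := rfl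
  constructor
  · intro h
    rw [hx] at h
    have h1 : ((x.2.2 k.1).symm k.2).1 = ⟨v, c⟩ := congrArg Sigma.fst h
    have h2 : (⟨((x.2.2 k.1).symm k.2).1, x.2.1 ((x.2.2 k.1).symm k.2).1⟩ : Elem w N) =
        ⟨⟨v, c⟩, x.2.1 ⟨v, c⟩⟩ := congrArg (fun s => (⟨s, x.2.1 s⟩ : Elem w N)) h1
    rw [h2] at h
    refine ⟨⟨?_, ?_⟩, eq_of_heq (Sigma.mk.inj h).2⟩
    · rw [← h1]; exact ((x.2.2 k.1).symm k.2).2
    · have h3 : (x.2.2 k.1).symm k.2 = ⟨⟨v, c⟩, by rw [← h1]; exact ((x.2.2 k.1).symm k.2).2⟩ :=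
        Subtype.ext h1
      rw [← h3, Equiv.apply_symm_apply]
  · rintro ⟨⟨h1, h2⟩, h3⟩
    rw [hx, ← h2, Equiv.symm_apply_apply, h3]

theorem gY_eq_iff (y : YObj B w r N) (k : Fin (N * r) × Fin (N * r)) (v : V)
    (c z : Fin (N * w v)) : gY y k = ⟨⟨v, c⟩, z⟩ ↔
      (∃ h : (⟨v, z⟩ : Slot w N) ∈ slots w N y.1.1, y.2.2 ⟨⟨v, z⟩, h⟩ = k.1) ∧
        y.2.1 v = c := by
  have hy : gY y k = (⟨⟨(y.2.2.symm k.1).1.1, y.2.1 (y.2.2.symm k.1).1.1⟩,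
    (y.2.2.symm k.1).1.2⟩ : Elem w N) := rfl
  constructor
  · intro h
    rw [hy] at h
    have ht : y.2.2 (y.2.2.symm k.1) = k.1 := Equiv.apply_symm_apply _ _
    revert h ht
    generalize y.2.2.symm k.1 = t
    obtain ⟨⟨v', z'⟩, hm⟩ := t
    intro h ht
    have hv : v' = v := congrArg (fun e : Elem w N => e.1.1) h
    subst hv
    have h1 : (⟨v', y.2.1 v'⟩ : Slot w N) = ⟨v', c⟩ := congrArg Sigma.fst h
    have h2 : y.2.1 v' = c := eq_of_heq (Sigma.mk.inj h1).2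
    subst h2
    have h3 : z' = z := eq_of_heq (Sigma.mk.inj h).2
    subst h3
    exact ⟨⟨hm, ht⟩, rfl⟩
  · rintro ⟨⟨h1, h2⟩, h3⟩
    rw [hy, ← h2, Equiv.symm_apply_apply, h3]

theorem r_pos (hG : Good A B w r κ) [Nonempty V] : 0 < r := by
  obtain ⟨v⟩ := (inferInstance : Nonempty V)
  obtain ⟨a, ha, hva⟩ := hG.hA.cov v
  have h1 := hG.wpos v
  have h2 : w v ≤ ∑ v ∈ a, w v := Finset.single_le_sum (fun _ _ => Nat.zero_le _) hva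
  rw [hG.hA.sum a ha] at h2
  omega

theorem fin_nonempty (hG : Good A B w r κ) (hN : 1 ≤ N) (v : V) : Nonempty (Fin (N * w v)) :=
  ⟨⟨0, Nat.mul_pos hN (hG.wpos v)⟩⟩

theorem equiv_slots (a : Finset V) (ha : ∑ v ∈ a, w v = r) :
    Nonempty ({s : Slot w N // s ∈ slots w N a} ≃ Fin (N * r)) := by
  refine ⟨Fintype.equivOfCardEq ?_⟩
  rw [Fintype.card_coe, card_slots, ha, Fintype.card_fin]

theorem exists_equiv_slots (a : Finset V) (ha : ∑ v ∈ a, w v = r)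
    (s : {s : Slot w N // s ∈ slots w N a}) (i : Fin (N * r)) :
    ∃ e : {s : Slot w N // s ∈ slots w N a} ≃ Fin (N * r), e s = i := by
  obtain ⟨e⟩ := equiv_slots (N := N) a ha
  exact ⟨e.trans (Equiv.swap (e s) i), by simp⟩

end LiftAux

open LiftAux

theorem nonempty_XObj (hG : Good A B w r κ) (hN : 1 ≤ N) [Nonempty V] :
    Nonempty (XObj A w r N) := by
  obtain ⟨v⟩ := (inferInstance : Nonempty V)
  obtain ⟨a, ha, -⟩ := hG.hA.cov v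
  obtain ⟨e⟩ := equiv_slots (N := N) a (hG.hA.sum a ha)
  have := fin_nonempty hG hN
  exact ⟨⟨⟨a, ha⟩, fun s => Classical.choice (this s.1), fun _ => e⟩⟩

theorem nonempty_YObj (hG : Good A B w r κ) (hN : 1 ≤ N) [Nonempty V] :
    Nonempty (YObj B w r N) := by
  obtain ⟨v⟩ := (inferInstance : Nonempty V)
  obtain ⟨b, hb, -⟩ := hG.hB.cov v
  obtain ⟨e⟩ := equiv_slots (N := N) b (hG.hB.sum b hb)
  have := fin_nonempty hG hN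
  exact ⟨⟨⟨b, hb⟩, fun s => Classical.choice (this s), e⟩⟩

theorem fX_gY_exact (hG : Good A B w r κ) (x : XObj A w r N) (y : YObj B w r N) :
    ∃! k, fX x k = gY y k := by
  obtain ⟨u, hu⟩ := hG.exact x.1.1 x.1.2 y.1.1 y.1.2
  have hu' : u ∈ x.1.1 ∩ y.1.1 := by rw [hu]; exact Finset.mem_singleton_self u
  obtain ⟨hux, huy⟩ := Finset.mem_inter.1 hu'
  have hs : (⟨u, y.2.1 u⟩ : Slot w N) ∈ slots w N x.1.1 := by simp [slots, hux]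
  have ht : (⟨u, x.2.1 ⟨u, y.2.1 u⟩⟩ : Slot w N) ∈ slots w N y.1.1 := by simp [slots, huy]
  refine ⟨(y.2.2 ⟨_, ht⟩, x.2.2 (y.2.2 ⟨_, ht⟩) ⟨_, hs⟩), ?_, ?_⟩
  · have h1 : fX x (y.2.2 ⟨_, ht⟩, x.2.2 (y.2.2 ⟨_, ht⟩) ⟨_, hs⟩) =
        ⟨⟨u, y.2.1 u⟩, x.2.1 ⟨u, y.2.1 u⟩⟩ := (fX_eq_iff _ _ _ _ _).2 ⟨⟨hs, rfl⟩, rfl⟩
    have h2 : gY y (y.2.2 ⟨_, ht⟩, x.2.2 (y.2.2 ⟨_, ht⟩) ⟨_, hs⟩) =
        ⟨⟨u, y.2.1 u⟩, x.2.1 ⟨u, y.2.1 u⟩⟩ := (gY_eq_iff _ _ _ _ _).2 ⟨⟨ht, rfl⟩, rfl⟩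
    exact h1.trans h2.symm
  · rintro ⟨i, j⟩ h
    obtain ⟨⟨⟨v, c⟩, z⟩, he⟩ : ∃ e, fX x (i, j) = e := ⟨_, rfl⟩
    have he' : gY y (i, j) = ⟨⟨v, c⟩, z⟩ := h.symm.trans he
    obtain ⟨⟨h1, h2⟩, h3⟩ := (fX_eq_iff _ _ _ _ _).1 he
    obtain ⟨⟨h4, h5⟩, h6⟩ := (gY_eq_iff _ _ _ _ _).1 he'
    have hv : v ∈ x.1.1 ∩ y.1.1 := by
      rw [Finset.mem_inter]
      simp only [slots, Finset.mem_filter, Finset.mem_univ, true_and] at h1 h4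
      exact ⟨h1, h4⟩
    rw [hu, Finset.mem_singleton] at hv
    subst hv
    subst h6
    subst h3
    simp only at h2 h5
    rw [h5, h2]

theorem fX_span (hG : Good A B w r κ) (hN : 1 ≤ N) (x : XObj A w r N)
    (k : Fin (N * r) × Fin (N * r)) : ∃ y : YObj B w r N, gY y k = fX x k := by
  obtain ⟨⟨⟨v, c⟩, z⟩, he⟩ : ∃ e, fX x k = e := ⟨_, rfl⟩
  rw [he]
  obtain ⟨b, hb, hvb⟩ := hG.hB.cov v
  have hne := fin_nonempty hG hN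
  have hm : (⟨v, z⟩ : Slot w N) ∈ slots w N b := by simp [slots, hvb]
  obtain ⟨τ, hτ⟩ := exists_equiv_slots (N := N) b (hG.hB.sum b hb) ⟨⟨v, z⟩, hm⟩ k.1
  refine ⟨⟨⟨b, hb⟩, Function.update (fun s => Classical.choice (hne s)) v c, τ⟩, ?_⟩
  rw [gY_eq_iff]
  exact ⟨⟨hm, hτ⟩, by simp⟩

theorem gY_span (hG : Good A B w r κ) (hN : 1 ≤ N) (y : YObj B w r N)
    (k : Fin (N * r) × Fin (N * r)) : ∃ x : XObj A w r N, fX x k = gY y k := by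
  obtain ⟨⟨⟨v, c⟩, z⟩, he⟩ : ∃ e, gY y k = e := ⟨_, rfl⟩
  rw [he]
  obtain ⟨a, ha, hva⟩ := hG.hA.cov v
  have hne := fin_nonempty hG hN
  have hm : (⟨v, c⟩ : Slot w N) ∈ slots w N a := by simp [slots, hva]
  obtain ⟨σ, hσ⟩ := exists_equiv_slots (N := N) a (hG.hA.sum a ha) ⟨⟨v, c⟩, hm⟩ k.2
  refine ⟨⟨⟨a, ha⟩, Function.update (fun s => Classical.choice (hne s.1)) ⟨v, c⟩ z,
    fun _ => σ⟩, ?_⟩
  rw [fX_eq_iff]
  exact ⟨⟨hm, hσ⟩, by simp⟩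

end Lift

end Pool.Agent.Work.MP_2e8aec_co
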