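import Pool.Agent.Work.MP_2e8aec_co.LiftA

/-!
# The lifting: antichain conditions
-/

set_option autoImplicit false

namespace Pool.Agent.Work.MP_2e8aec_co

open Finset

section Lift

variable {V : Type} [Fintype V] [DecidableEq V] {A B : Finset (Finset V)} {w : V → ℕ} {r N : ℕ}
  {κ : ℝ}

namespace LiftAux

theorem exists_slot {a : Finset V} (hr : 3 ≤ N * r)
    (e : {s : Slot w N // s ∈ slots w N a} ≃ Fin (N * r)) (s₀ s₁ : Slot w N) :
    ∃ s : {s : Slot w N // s ∈ slots w N a}, s.1 ≠ s₀ ∧ s.1 ≠ s₁ := by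
  have hc : (slots w N a).card = N * r := by
    rw [← Fintype.card_coe, Fintype.card_congr e, Fintype.card_fin]
  have h2 : ({s₀, s₁} : Finset (Slot w N)).card ≤ 2 := Finset.card_le_two
  obtain ⟨s, hs, hs'⟩ := Finset.exists_mem_notMem_of_card_lt_card
    (s := ({s₀, s₁} : Finset (Slot w N))) (t := slots w N a) (by omega)
  simp only [Finset.mem_insert, Finset.mem_singleton, not_or] at hs'
  exact ⟨⟨s, hs⟩, hs'.1, hs'.2⟩

end LiftAux

open LiftAux

theorem fX_anti (hN : 1 ≤ N) (hr : 3 ≤ N * r) (i j : Fin (N * r) × Fin (N * r))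
    (x x' : XObj A w r N) (h : ∀ z : XObj A w r N, fX z i = fX x i → fX z j = fX x' j) :
    ∀ z : XObj A w r N, fX z j = fX x' j → fX z i = fX x i := by
  by_cases hij : i = j
  · subst hij
    intro z hz
    rw [hz, h x rfl]
  · exfalso
    obtain ⟨a, π, σ⟩ := x
    obtain ⟨s, hs0, hs1⟩ := exists_slot hr (σ j.1) ((σ i.1).symm i.2).1 (fX x' j).1
    let z : XObj A w r N := ⟨a, π, Function.update σ j.1 ((σ j.1).trans
      (Equiv.swap (σ j.1 s) j.2))⟩
    have hzj : (fX z j).1 = s.1 := by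
      change (((Function.update σ j.1 ((σ j.1).trans (Equiv.swap (σ j.1 s) j.2))) j.1).symm j.2).1
        = s.1
      rw [Function.update_self, Equiv.symm_trans_apply, Equiv.symm_swap, Equiv.swap_apply_right,
        Equiv.symm_apply_apply]
    have hsymm : ((Function.update σ j.1 ((σ j.1).trans (Equiv.swap (σ j.1 s) j.2))) i.1).symm i.2
        = (σ i.1).symm i.2 := by
      by_cases h1 : i.1 = j.1
      · rw [h1, Function.update_self, Equiv.symm_trans_apply, Equiv.symm_swap,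
          Equiv.swap_apply_of_ne_of_ne]
        · intro hcon
          apply hs0
          rw [h1, hcon, Equiv.symm_apply_apply]
        · intro hcon
          exact hij (Prod.ext h1 hcon)
      · rw [Function.update_of_ne h1]
    have hzi : fX z i = fX ⟨a, π, σ⟩ i := by
      change (⟨(((Function.update σ j.1 ((σ j.1).trans (Equiv.swap (σ j.1 s) j.2))) i.1).symm
        i.2).1, π _⟩ : Elem w N) = ⟨((σ i.1).symm i.2).1, π _⟩
      rw [hsymm]
    have := h z hzi
    apply hs1
    rw [← hzj, this]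

theorem gY_anti (hN : 1 ≤ N) (hr : 3 ≤ N * r) (i j : Fin (N * r) × Fin (N * r))
    (y y' : YObj B w r N) (h : ∀ z : YObj B w r N, gY z i = gY y i → gY z j = gY y' j) :
    ∀ z : YObj B w r N, gY z j = gY y' j → gY z i = gY y i := by
  by_cases hij : i.1 = j.1
  · intro z hz
    have e : ∀ z : YObj B w r N, gY z i = gY z j := by
      intro z
      unfold gY
      rw [hij]
    rw [e z, hz, ← h y rfl, e y]
  · exfalso
    obtain ⟨b, χ, τ⟩ := y
    obtain ⟨t, ht0, ht1⟩ := exists_slot hr τ (τ.symm i.1).1 (y'.2.2.symm j.1).1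
    let z : YObj B w r N := ⟨b, χ, τ.trans (Equiv.swap (τ t) j.1)⟩
    have hsj : (τ.trans (Equiv.swap (τ t) j.1)).symm j.1 = t := by
      rw [Equiv.symm_trans_apply, Equiv.symm_swap, Equiv.swap_apply_right,
        Equiv.symm_apply_apply]
    have hsi : (τ.trans (Equiv.swap (τ t) j.1)).symm i.1 = τ.symm i.1 := by
      rw [Equiv.symm_trans_apply, Equiv.symm_swap, Equiv.swap_apply_of_ne_of_ne]
      · intro hcon
        apply ht0
        rw [hcon, Equiv.symm_apply_apply]
      · exact hij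
    have hzi : gY z i = gY ⟨b, χ, τ⟩ i := by
      change (⟨⟨((τ.trans (Equiv.swap (τ t) j.1)).symm i.1).1.1, χ _⟩, _⟩ : Elem w N) =
        ⟨⟨(τ.symm i.1).1.1, χ _⟩, _⟩
      rw [hsi]
    have hz := h z hzi
    obtain ⟨⟨⟨v, c⟩, m⟩, he⟩ : ∃ e, gY z j = e := ⟨_, rfl⟩
    have he' : gY y' j = ⟨⟨v, c⟩, m⟩ := by rw [← hz, he]
    obtain ⟨⟨h1, h2⟩, -⟩ := (gY_eq_iff _ _ _ _ _).1 he
    obtain ⟨⟨h3, h4⟩, -⟩ := (gY_eq_iff _ _ _ _ _).1 he'
    have h5 : t.1 = ⟨v, m⟩ := by
      have h7 := congrArg z.2.2.symm h2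
      rw [Equiv.symm_apply_apply] at h7
      have h8 : (⟨⟨v, m⟩, h1⟩ : {s : Slot w N // s ∈ slots w N z.1.1}) = t := h7.trans hsj
      exact (congrArg Subtype.val h8).symm
    have h6 : (y'.2.2.symm j.1).1 = ⟨v, m⟩ := by
      rw [← h4, Equiv.symm_apply_apply]
    exact ht1 (h5.trans h6.symm)

end Lift

end Pool.Agent.Work.MP_2e8aec_co
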