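import Pool.Agent.Work.MP_2e8aec_co.Hall
import Pool.Agent.Work.MP_2e8aec_co.LiftA

/-!
# Module LiftC: hitting sets give charges
-/

set_option autoImplicit false

namespace Pool.Agent.Work.MP_2e8aec_co

open Finset

section Lift

variable {V : Type} [Fintype V] [DecidableEq V] {A B : Finset (Finset V)} {w : V → ℕ} {r N : ℕ}
  {κ : ℝ}

/-- Number of deleted cells of an element. -/
def hcnt {R : ℕ} {E : Type} [DecidableEq E] (H : Finset ((Fin R × Fin R) × E)) (e : E) : ℕ :=
  (univ.filter (fun k : Fin R × Fin R => (k, e) ∈ H)).card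

/-- Number of rows with a deleted cell. -/
def mcnt {R : ℕ} {E : Type} [DecidableEq E] (H : Finset ((Fin R × Fin R) × E)) (e : E) : ℕ :=
  (univ.filter (fun i : Fin R => ∃ j, ((i, j), e) ∈ H)).card

theorem mcnt_le {R : ℕ} {E : Type} [DecidableEq E] (H : Finset ((Fin R × Fin R) × E)) (e : E) :
    mcnt H e ≤ hcnt H e := by
  unfold mcnt hcnt
  have h : (univ.filter (fun i : Fin R => ∃ j, ((i, j), e) ∈ H))
      ⊆ (univ.filter (fun k : Fin R × Fin R => (k, e) ∈ H)).image Prod.fst := by
    intro i hi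
    obtain ⟨j, hj⟩ := (Finset.mem_filter.1 hi).2
    exact Finset.mem_image.2 ⟨(i, j), Finset.mem_filter.2 ⟨Finset.mem_univ _, hj⟩, rfl⟩
  exact (Finset.card_le_card h).trans Finset.card_image_le

theorem row_le {R : ℕ} {E : Type} [DecidableEq E] (H : Finset ((Fin R × Fin R) × E)) (e : E)
    (i : Fin R) (T : Finset (Fin R)) (hT : ∀ j ∈ T, ((i, j), e) ∈ H) : T.card ≤ hcnt H e := by
  unfold hcnt
  apply Finset.card_le_card_of_injOn (fun j => (i, j))
  · intro j hj
    exact Finset.mem_coe.2 (Finset.mem_filter.2 ⟨Finset.mem_univ _, hT j hj⟩)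
  · intro j _ j' _ h
    exact (Prod.mk.inj h).2

theorem full_row {R : ℕ} {E : Type} [DecidableEq E] (H : Finset ((Fin R × Fin R) × E)) (e : E)
    (h : ∃ i, ∀ j, ((i, j), e) ∈ H) : R + mcnt H e ≤ hcnt H e + 1 := by
  obtain ⟨i, hi⟩ := h
  have h1 : hcnt H e = ∑ i' : Fin R, (univ.filter (fun j => ((i', j), e) ∈ H)).card := by
    unfold hcnt
    rw [Finset.card_filter, Fintype.sum_prod_type]
    refine Finset.sum_congr rfl (fun i' _ => ?_)
    rw [Finset.card_filter]
  have h2 : mcnt H e = ∑ i' : Fin R, (if ∃ j, ((i', j), e) ∈ H then 1 else 0) := by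
    unfold mcnt
    rw [Finset.card_filter]
  rw [h1, h2, ← Finset.add_sum_erase _ (fun i' : Fin R => (univ.filter (fun j => ((i', j), e) ∈ H)).card)
      (Finset.mem_univ i),
    ← Finset.add_sum_erase _ (fun i' : Fin R => (if ∃ j, ((i', j), e) ∈ H then 1 else 0))
      (Finset.mem_univ i)]
  have h3 : (univ.filter (fun j => ((i, j), e) ∈ H)).card = R := by
    rw [Finset.filter_true_of_mem (fun j _ => hi j), Finset.card_univ, Fintype.card_fin]
  have h4 : (if ∃ j, ((i, j), e) ∈ H then 1 else 0) ≤ 1 := by split_ifs <;> omega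
  have h5 : ∑ i' ∈ univ.erase i, (if ∃ j, ((i', j), e) ∈ H then 1 else 0)
      ≤ ∑ i' ∈ univ.erase i, (univ.filter (fun j => ((i', j), e) ∈ H)).card := by
    apply Finset.sum_le_sum
    intro i' _
    split_ifs with hj
    · obtain ⟨j, hj⟩ := hj
      exact Finset.card_pos.2 ⟨j, Finset.mem_filter.2 ⟨Finset.mem_univ _, hj⟩⟩
    · exact Nat.zero_le _
  rw [h3]
  omega

theorem exists_charge (hG : Good A B w r κ)
    (H : Finset ((Fin (N * r) × Fin (N * r)) × Elem w N))
    (hX : ∀ x : XObj A w r N, ∃ k, (k, fX x k) ∈ H)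
    (hY : ∀ y : YObj B w r N, ∃ k, (k, gY y k) ∈ H) :
    ∃ C : Charge A B w r N, C.total = H.card := by
  classical
  refine ⟨{ h := fun s y => hcnt H ⟨s, y⟩
            m := fun s y => mcnt H ⟨s, y⟩
            F := fun s y => ∃ i, ∀ j, ((i, j), (⟨s, y⟩ : Elem w N)) ∈ H
            m_le := fun s y => mcnt_le H _
            F_R := ?_
            F_m := fun s y h => full_row H _ h
            hA := ?_
            hB := ?_ }, ?_⟩
  · rintro s y ⟨i, hi⟩
    have := row_le H (⟨s, y⟩ : Elem w N) i univ (fun j _ => hi j)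
    rwa [Finset.card_univ, Fintype.card_fin] at this
  · intro a ha π
    have hcard : (slots w N a).card = N * r := by rw [card_slots, hG.hA.sum a ha]
    have hrow : ∃ i : Fin (N * r), ∀ σ : {s : Slot w N // s ∈ slots w N a} ≃ Fin (N * r),
        ∃ x : {s : Slot w N // s ∈ slots w N a},
          ((i, σ x), (⟨x.1, π x.1⟩ : Elem w N)) ∈ H := by
      by_contra hcon
      push Not at hcon
      choose σ hσ using hcon
      obtain ⟨k, hk⟩ := hX ⟨⟨a, ha⟩, π, σ⟩
      have h1 := hσ k.1 ((σ k.1).symm k.2)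
      rw [Equiv.apply_symm_apply] at h1
      exact h1 hk
    obtain ⟨i, hi⟩ := hrow
    obtain ⟨S, hS, T, hST, hD⟩ := hall_aux (slots w N a) (N * r) hcard
      (fun s j => ((i, j), (⟨s, π s⟩ : Elem w N)) ∈ H) hi
    refine ⟨S, hS, T.card, ?_, hST, ?_⟩
    · have := Finset.card_le_univ T
      rwa [Fintype.card_fin] at this
    · intro s hs
      refine ⟨row_le H _ i T (fun j hj => hD s hs j hj), fun ht => ⟨i, fun j => ?_⟩⟩
      have hTu : T = univ := by
        rw [← Finset.card_eq_iff_eq_univ, Fintype.card_fin]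
        exact ht
      exact hD s hs j (by rw [hTu]; exact Finset.mem_univ j)
  · intro b hb χ
    have hcard : (slots w N b).card = N * r := by rw [card_slots, hG.hB.sum b hb]
    have hrow : ∀ τ : {s : Slot w N // s ∈ slots w N b} ≃ Fin (N * r),
        ∃ x : {s : Slot w N // s ∈ slots w N b},
          ∃ j, ((τ x, j), (⟨⟨x.1.1, χ x.1.1⟩, x.1.2⟩ : Elem w N)) ∈ H := by
      intro τ
      obtain ⟨k, hk⟩ := hY ⟨⟨b, hb⟩, χ, τ⟩
      refine ⟨τ.symm k.1, k.2, ?_⟩
      rw [Equiv.apply_symm_apply]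
      exact hk
    obtain ⟨S, hS, T, hST, hD⟩ := hall_aux (slots w N b) (N * r) hcard
      (fun s i => ∃ j, ((i, j), (⟨⟨s.1, χ s.1⟩, s.2⟩ : Elem w N)) ∈ H) hrow
    refine ⟨S, hS, T.card, ?_, hST, ?_⟩
    · have := Finset.card_le_univ T
      rwa [Fintype.card_fin] at this
    · intro s hs
      unfold mcnt
      apply Finset.card_le_card
      intro i hi
      exact Finset.mem_filter.2 ⟨Finset.mem_univ _, hD s hs i hi⟩
  · simp only [Charge.total, Charge.G, Charge.X]
    have h1 : H.card = ∑ e : Elem w N, hcnt H e := by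
      rw [Finset.card_eq_sum_card_fiberwise (f := Prod.snd) (t := univ)
        (fun x _ => Finset.mem_coe.2 (Finset.mem_univ _))]
      refine Finset.sum_congr rfl (fun e _ => ?_)
      unfold hcnt
      symm
      apply Finset.card_bij (fun k _ => (k, e))
      · intro k hk
        exact Finset.mem_filter.2 ⟨(Finset.mem_filter.1 hk).2, rfl⟩
      · intro k _ k' _ h
        exact (Prod.mk.inj h).1
      · rintro ⟨k, e'⟩ hke
        obtain ⟨hk, he⟩ := Finset.mem_filter.1 hke
        simp only at he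
        subst he
        exact ⟨k, Finset.mem_filter.2 ⟨Finset.mem_univ _, hk⟩, rfl⟩
    rw [h1, Fintype.sum_sigma, Fintype.sum_sigma]

end Lift

end Pool.Agent.Work.MP_2e8aec_co
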