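import Pool.Agent.Work.MP_2e8aec_co.CoreAB

/-!
# Biclique covers: lower bounds for the total charge of a gate
-/

set_option autoImplicit false

namespace Pool.Agent.Work.MP_2e8aec_co

open Finset

section Core

variable {V : Type} [Fintype V] [DecidableEq V] {A B : Finset (Finset V)} {w : V → ℕ} {r N : ℕ}
  {κ : ℝ}

theorem Charge.h_le_X (C : Charge A B w r N) (s : Slot w N) (y : Fin (N * w s.1)) :
    C.h s y ≤ C.X s :=
  Finset.single_le_sum (f := C.h s) (fun _ _ => Nat.zero_le _) (Finset.mem_univ y)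

theorem Charge.nonlight_X (C : Charge A B w r N) (s : Slot w N) (hs : ¬ C.Light s) :
    N * r ≤ C.X s + 4 * r := by
  unfold Charge.Light at hs
  by_cases h : ∀ y, C.h s y + 4 * r < N * r
  · have h2 : ¬ C.X s < 2 * (N * r) := fun h3 => hs ⟨h, h3⟩
    omega
  · push Not at h
    obtain ⟨y, hy⟩ := h
    have := C.h_le_X s y
    omega

theorem Charge.nonlight_X_mu (C : Charge A B w r N) (s : Slot w N) (hs : ¬ C.Light s)
    (hmu : 1 ≤ C.mu s) (hn : N * w s.1 ≤ N * r) :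
    N * r + N * w s.1 ≤ C.X s + 4 * r + 1 := by
  classical
  unfold Charge.Light at hs
  by_cases h : ∀ y, C.h s y + 4 * r < N * r
  · have h2 : ¬ C.X s < 2 * (N * r) := fun h3 => hs ⟨h, h3⟩
    omega
  · push Not at h
    obtain ⟨y0, hy⟩ := h
    have h1 : C.X s = C.h s y0 + ∑ y ∈ univ.erase y0, C.h s y :=
      (Finset.add_sum_erase _ _ (Finset.mem_univ y0)).symm
    have h2 : (univ.erase y0).card • 1 ≤ ∑ y ∈ univ.erase y0, C.h s y :=
      Finset.card_nsmul_le_sum _ _ _ (fun y _ => le_trans hmu (C.mu_le s y))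
    rw [Finset.card_erase_of_mem (Finset.mem_univ _), Finset.card_univ, Fintype.card_fin,
      smul_eq_mul, mul_one] at h2
    omega

theorem Charge.sum_nonlight (C : Charge A B w r N) (v : V) (D : ℝ) :
    ∑ x : Fin (N * w v), (open Classical in if C.Light ⟨v, x⟩ then (0 : ℝ) else D) =
      (((N * w v : ℕ) : ℝ) - C.ell v) * D := by
  classical
  rw [Finset.sum_ite, Finset.sum_const_zero, zero_add, Finset.sum_const, nsmul_eq_mul]
  congr 1
  have h3 := Finset.card_filter_add_card_filter_not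
    (s := (univ : Finset (Fin (N * w v)))) (p := fun x => C.Light ⟨v, x⟩)
  simp only [Finset.card_univ, Fintype.card_fin] at h3
  have h4 : C.ell v = (univ.filter (fun x : Fin (N * w v) => C.Light ⟨v, x⟩)).card := by
    unfold Charge.ell
    congr
  rw [h4]
  have h5 : ((univ.filter (fun x : Fin (N * w v) => C.Light ⟨v, x⟩)).card : ℝ) +
      ((univ.filter (fun x : Fin (N * w v) => ¬ C.Light ⟨v, x⟩)).card : ℝ) =
      ((N * w v : ℕ) : ℝ) := by exact_mod_cast h3
  linarith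

theorem sum_lower {n : ℕ} (f g : Fin n → ℝ) (h : ∀ x, g x ≤ f x) (x0 : Fin n) (c : ℝ)
    (hc : g x0 + c ≤ f x0) : ∑ x, g x + c ≤ ∑ x, f x := by
  classical
  have h1 : ∑ x, (g x + if x = x0 then c else 0) ≤ ∑ x, f x := by
    refine Finset.sum_le_sum (fun x _ => ?_)
    by_cases hx : x = x0
    · subst hx; simpa using hc
    · simpa [hx] using h x
  rw [Finset.sum_add_distrib] at h1
  simpa using h1

/-- A class of large minimal charge. -/
theorem Charge.UA_class (C : Charge A B w r N) (hn : ∀ u, 1 ≤ N * w u) (v : V)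
    (hv : v ∈ C.UA) : ∃ x, ¬ C.Light ⟨v, x⟩ ∧
      ((N * w v : ℕ) : ℝ) * (((N * r : ℕ) : ℝ) - 4 * r) ≤ (C.X ⟨v, x⟩ : ℝ) := by
  have h1 := hv
  unfold Charge.UA at h1
  simp only [Finset.mem_filter, Finset.mem_univ, true_and] at h1
  obtain ⟨x, hx⟩ := h1
  refine ⟨x, ?_, ?_⟩
  · intro hl
    have h2 := hl.1 ⟨0, hn v⟩
    have h3 := C.mu_le ⟨v, x⟩ ⟨0, hn v⟩
    omega
  · have h2 := C.mul_mu_le ⟨v, x⟩
    have h3 : ((N * w v : ℕ) : ℝ) * (C.mu ⟨v, x⟩ : ℝ) ≤ (C.X ⟨v, x⟩ : ℝ) := by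
      exact_mod_cast h2
    have h4 : ((N * r : ℕ) : ℝ) ≤ (C.mu ⟨v, x⟩ : ℝ) + 4 * r := by exact_mod_cast hx
    have h5 : ((N * w v : ℕ) : ℝ) * (((N * r : ℕ) : ℝ) - 4 * r) ≤
        ((N * w v : ℕ) : ℝ) * (C.mu ⟨v, x⟩ : ℝ) :=
      mul_le_mul_of_nonneg_left (by linarith) (by positivity)
    linarith

theorem Charge.G_cast (C : Charge A B w r N) (v : V) :
    (C.G v : ℝ) = ∑ x : Fin (N * w v), (C.X ⟨v, x⟩ : ℝ) := by
  unfold Charge.G
  push_cast
  rfl

/-- The basic bound, with an arbitrary extra term. -/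
theorem Charge.cost_aux (C : Charge A B w r N) (hn : ∀ u, 1 ≤ N * w u)
    (hR : 4 * r ≤ N * r) (v : V) (e : Fin (N * w v) → ℝ)
    (he : ∀ x, (open Classical in if C.Light ⟨v, x⟩ then (0 : ℝ) else
      ((N * r : ℕ) : ℝ) - 4 * r) + e x ≤ C.X ⟨v, x⟩)
    (he0 : v ∈ C.UA → ∀ x, ¬ C.Light ⟨v, x⟩ → e x ≤ 0) :
    (((N * r : ℕ) : ℝ) - 4 * r) * ((if v ∈ C.UA then ((N * w v : ℕ) : ℝ) else 0)
        + (((N * w v : ℕ) : ℝ) - C.ell v) - 1) + ∑ x, e x ≤ C.G v := by
  classical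
  have hD : (0 : ℝ) ≤ ((N * r : ℕ) : ℝ) - 4 * r := by
    have : ((4 * r : ℕ) : ℝ) ≤ ((N * r : ℕ) : ℝ) := by exact_mod_cast hR
    push_cast at this ⊢
    linarith
  set D : ℝ := ((N * r : ℕ) : ℝ) - 4 * r with hDdef
  have hsum := C.sum_nonlight v D
  rw [C.G_cast v]
  have hall : ∑ x : Fin (N * w v), ((if C.Light ⟨v, x⟩ then (0 : ℝ) else D) + e x) =
      (((N * w v : ℕ) : ℝ) - C.ell v) * D + ∑ x, e x := by
    rw [Finset.sum_add_distrib, ← hsum]
  by_cases hv : v ∈ C.UA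
  · obtain ⟨x0, hx0, hX0⟩ := C.UA_class hn v hv
    have h1 := sum_lower (fun x => (C.X ⟨v, x⟩ : ℝ))
      (fun x => (if C.Light ⟨v, x⟩ then (0 : ℝ) else D) + e x) he x0
      ((((N * w v : ℕ) : ℝ) - 1) * D) ?_
    · rw [hall] at h1
      rw [if_pos hv]
      linarith
    · have h2 := he0 hv x0 hx0
      simp only [if_neg hx0]
      rw [← hDdef] at hX0
      linarith
  · have h1 : ∑ x : Fin (N * w v), ((if C.Light ⟨v, x⟩ then (0 : ℝ) else D) + e x) ≤
        ∑ x : Fin (N * w v), (C.X ⟨v, x⟩ : ℝ) := Finset.sum_le_sum (fun x _ => he x)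
    rw [hall] at h1
    rw [if_neg hv]
    linarith

theorem Charge.base_le (C : Charge A B w r N) (s : Slot w N) :
    (open Classical in if C.Light s then (0 : ℝ) else ((N * r : ℕ) : ℝ) - 4 * r) ≤ C.X s := by
  classical
  split_ifs with h
  · positivity
  · have h1 := C.nonlight_X s h
    have h2 : ((N * r : ℕ) : ℝ) ≤ ((C.X s + 4 * r : ℕ) : ℝ) := by exact_mod_cast h1
    push_cast at h2 ⊢
    linarith

theorem Charge.costA (hG : Good A B w r κ) (hN : 8 ≤ N) (C : Charge A B w r N)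
    (hT : C.total ≤ 2 * (N * r) ^ 2) (v : V) :
    ((N * r : ℕ) - 4 * r : ℝ) * ((if v ∈ C.UA then ((N * w v : ℕ) : ℝ) else 0)
        + (((N * w v : ℕ) : ℝ) - C.ell v) - 1)
      + (if v ∈ reach A C.UA then (((N * w v : ℕ) : ℝ) - 4 * r) * (((N * w v : ℕ) : ℝ) - 1)
          else 0) ≤ C.G v := by
  classical
  have hpos : ∀ u, 1 ≤ N * w u := fun u => Nat.mul_pos (by omega) (hG.wpos u)
  have hR : 4 * r ≤ N * r := Nat.mul_le_mul_right _ (by omega)
  by_cases hv : v ∈ reach A C.UA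
  · rw [if_pos hv]
    unfold reach at hv
    simp only [Finset.mem_filter, Finset.mem_univ, true_and] at hv
    obtain ⟨a, ha, hva, hd⟩ := hv
    have hvU : v ∉ C.UA := Finset.disjoint_left.1 hd hva
    have hA := C.hasA hG hN hT a ha hd v hva
    have hn : N * w v ≤ N * r := by
      refine Nat.mul_le_mul_left _ ?_
      rw [← hG.hA.sum a ha]
      exact Finset.single_le_sum (fun _ _ => Nat.zero_le _) hva
    have h1n : (1 : ℝ) ≤ ((N * w v : ℕ) : ℝ) := by exact_mod_cast hpos v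
    have h1 := C.cost_aux hpos hR v
      (fun x => if 1 ≤ C.mu ⟨v, x⟩ then (((N * w v : ℕ) : ℝ) - 1) else 0) ?_
      (fun h => absurd h hvU)
    · rw [← Finset.sum_filter, Finset.sum_const, nsmul_eq_mul] at h1
      have h2 : ((N * w v : ℕ) : ℝ) ≤
          ((univ.filter (fun x : Fin (N * w v) => 1 ≤ C.mu ⟨v, x⟩)).card : ℝ) + 4 * r := by
        exact_mod_cast hA
      have h3 : (((N * w v : ℕ) : ℝ) - 4 * r) * (((N * w v : ℕ) : ℝ) - 1) ≤
          ((univ.filter (fun x : Fin (N * w v) => 1 ≤ C.mu ⟨v, x⟩)).card : ℝ) *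
            (((N * w v : ℕ) : ℝ) - 1) :=
        mul_le_mul_of_nonneg_right (by linarith) (by linarith)
      linarith
    · intro x
      by_cases hmu : 1 ≤ C.mu ⟨v, x⟩
      · simp only [if_pos hmu]
        split_ifs with hl
        · have h2 := C.mul_mu_le ⟨v, x⟩
          have h3 : N * w v * 1 ≤ C.X ⟨v, x⟩ := le_trans (Nat.mul_le_mul_left _ hmu) h2
          have h4 : ((N * w v : ℕ) : ℝ) ≤ (C.X ⟨v, x⟩ : ℝ) := by
            rw [mul_one] at h3
            exact_mod_cast h3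
          linarith
        · have h2 := C.nonlight_X_mu ⟨v, x⟩ hl hmu hn
          have h3 : ((N * r : ℕ) : ℝ) + ((N * w v : ℕ) : ℝ) ≤ (C.X ⟨v, x⟩ : ℝ) + 4 * r + 1 := by
            exact_mod_cast h2
          linarith
      · simp only [if_neg hmu, add_zero]
        exact C.base_le ⟨v, x⟩
  · rw [if_neg hv]
    have h1 := C.cost_aux hpos hR v (fun _ => 0) (fun x => by
      rw [add_zero]; exact C.base_le ⟨v, x⟩) (fun _ _ _ => le_refl _)
    simpa using h1

theorem Charge.costB (hG : Good A B w r κ) (hN : 8 ≤ N) (C : Charge A B w r N) (v : V) :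
    ((N * r : ℕ) - 4 * r : ℝ) * ((if v ∈ C.UA then ((N * w v : ℕ) : ℝ) else 0)
        + (((N * w v : ℕ) : ℝ) - C.ell v) - 1)
      + (if v ∈ reach B C.UB then (C.ell v : ℝ) * (((N * w v : ℕ) : ℝ) - 4 * r)
          else 0) ≤ C.G v := by
  classical
  have hpos : ∀ u, 1 ≤ N * w u := fun u => Nat.mul_pos (by omega) (hG.wpos u)
  have hR : 4 * r ≤ N * r := Nat.mul_le_mul_right _ (by omega)
  by_cases hv : v ∈ reach B C.UB
  · rw [if_pos hv]
    unfold reach at hv
    simp only [Finset.mem_filter, Finset.mem_univ, true_and] at hv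
    obtain ⟨b, hb, hvb, hd⟩ := hv
    have h1 := C.cost_aux hpos hR v
      (fun x => if C.Light ⟨v, x⟩ then (((N * w v : ℕ) : ℝ) - 4 * r) else 0) ?_
      (fun _ x hx => by simp [hx])
    · rw [← Finset.sum_filter, Finset.sum_const, nsmul_eq_mul] at h1
      have h4 : C.ell v = (univ.filter (fun x : Fin (N * w v) => C.Light ⟨v, x⟩)).card := by
        unfold Charge.ell
        congr
      rw [← h4] at h1
      linarith
    · intro x
      by_cases hl : C.Light ⟨v, x⟩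
      · simp only [if_pos hl, zero_add]
        have h2 := C.hasB hG hN b hb hd v hvb x hl
        have h3 : (univ.filter (fun y => 1 ≤ C.h ⟨v, x⟩ y)).card ≤ C.X ⟨v, x⟩ := by
          unfold Charge.X
          calc (univ.filter (fun y => 1 ≤ C.h ⟨v, x⟩ y)).card
              = ∑ y ∈ univ.filter (fun y => 1 ≤ C.h ⟨v, x⟩ y), 1 := Finset.card_eq_sum_ones _
            _ ≤ ∑ y ∈ univ.filter (fun y => 1 ≤ C.h ⟨v, x⟩ y), C.h ⟨v, x⟩ y :=
                Finset.sum_le_sum (fun y hy => (Finset.mem_filter.1 hy).2)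
            _ ≤ ∑ y, C.h ⟨v, x⟩ y := Finset.sum_le_sum_of_subset (Finset.subset_univ _)
        have h4 : N * w v ≤ C.X ⟨v, x⟩ + 4 * r := by omega
        have h5 : ((N * w v : ℕ) : ℝ) ≤ (C.X ⟨v, x⟩ : ℝ) + 4 * r := by exact_mod_cast h4
        linarith
      · simp only [if_neg hl, add_zero]
        have := C.base_le ⟨v, x⟩
        rwa [if_neg hl] at this
  · rw [if_neg hv]
    have h1 := C.cost_aux hpos hR v (fun _ => 0) (fun x => by
      rw [add_zero]; exact C.base_le ⟨v, x⟩) (fun _ _ _ => le_refl _)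
    simpa using h1

end Core

end Pool.Agent.Work.MP_2e8aec_co
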