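import Pool.Agent.Work.MP_2e8aec_co.Defs

/-!
# Biclique covers: the layer cake inequality
-/

set_option autoImplicit false

namespace Pool.Agent.Work.MP_2e8aec_co

open Finset MeasureTheory

theorem layer_le_integral (z : ℝ) (h0 : 0 ≤ z) (h1 : z ≤ 1) :
    ∫ t in Set.Ioc (0 : ℝ) 1, (Set.Iic z).indicator (1 : ℝ → ℝ) t = z := by
  rw [integral_indicator_one measurableSet_Iic, measureReal_restrict_apply measurableSet_Iic]
  have h : Set.Iic z ∩ Set.Ioc (0 : ℝ) 1 = Set.Ioc 0 z := by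
    ext t
    simp only [Set.mem_inter_iff, Set.mem_Iic, Set.mem_Ioc]
    constructor
    · rintro ⟨a, b, c⟩; exact ⟨b, a⟩
    · rintro ⟨a, b⟩; exact ⟨b, a, b.trans h1⟩
  rw [h, Real.volume_real_Ioc_of_le h0]
  ring

theorem layer_gt_integral (z : ℝ) (h0 : 0 ≤ z) (h1 : z ≤ 1) :
    ∫ t in Set.Ioc (0 : ℝ) 1, (Set.Ioi z).indicator (1 : ℝ → ℝ) t = 1 - z := by
  rw [integral_indicator_one measurableSet_Ioi, measureReal_restrict_apply measurableSet_Ioi]
  have h : Set.Ioi z ∩ Set.Ioc (0 : ℝ) 1 = Set.Ioc z 1 := by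
    ext t
    simp only [Set.mem_inter_iff, Set.mem_Ioi, Set.mem_Ioc]
    constructor
    · rintro ⟨a, b, c⟩; exact ⟨a, c⟩
    · rintro ⟨a, b⟩; exact ⟨a, h0.trans_lt a, b⟩
  rw [h, Real.volume_real_Ioc_of_le h1]

theorem layer_integrable (s : Set ℝ) (hs : MeasurableSet s) :
    IntegrableOn (s.indicator (1 : ℝ → ℝ)) (Set.Ioc (0 : ℝ) 1) := by
  have h : IntegrableOn (fun _ : ℝ => (1 : ℝ)) (Set.Ioc (0 : ℝ) 1) :=
    integrableOn_const (by simp) (by simp)
  exact Integrable.indicator h hs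

section Core

variable {V : Type} [Fintype V] [DecidableEq V] {A B : Finset (Finset V)} {w : V → ℕ} {r : ℕ}
  {κ : ℝ}

theorem layer (hG : Half B A w r κ) (hκ : 0 ≤ κ) (z : V → ℝ) (h0 : ∀ v, 0 ≤ z v)
    (h1 : ∀ v, z v ≤ 1) (U : Finset V) (hU : ∀ v, v ∈ U ↔ z v = 1) :
    κ * (r : ℝ) * ((r : ℝ) - ∑ v, (w v : ℝ) * z v) ≤
      ∑ v ∈ reach B U, (1 - z v) * (w v : ℝ) ^ 2 := by
  classical
  have hpt : ∀ t ∈ Set.Ioc (0 : ℝ) 1,
      κ * (r : ℝ) * ((r : ℝ) - ∑ v, (w v : ℝ) * (Set.Iic (z v)).indicator (1 : ℝ → ℝ) t) ≤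
      ∑ v ∈ reach B U, (w v : ℝ) ^ 2 * (Set.Ioi (z v)).indicator (1 : ℝ → ℝ) t := by
    intro t ht
    set Ut : Finset V := univ.filter (fun v => t ≤ z v) with hUt
    have hsum : ∑ v, (w v : ℝ) * (Set.Iic (z v)).indicator (1 : ℝ → ℝ) t =
        ∑ v ∈ Ut, (w v : ℝ) := by
      rw [hUt, Finset.sum_filter]
      refine Finset.sum_congr rfl (fun v _ => ?_)
      by_cases h : t ≤ z v
      · simp [Set.indicator, h]
      · simp [Set.indicator, h]
    rw [hsum]
    have hnn : 0 ≤ ∑ v ∈ reach B U, (w v : ℝ) ^ 2 * (Set.Ioi (z v)).indicator (1 : ℝ → ℝ) t := by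
      refine Finset.sum_nonneg (fun v _ => mul_nonneg (by positivity) ?_)
      exact Set.indicator_nonneg (fun _ _ => by simp) _
    by_cases hh : Hits B Ut
    · have h2 : (r : ℝ) ≤ ∑ v ∈ Ut, (w v : ℝ) := by
        have := hG.hit Ut hh
        exact_mod_cast this
      have h3 : κ * (r : ℝ) * ((r : ℝ) - ∑ v ∈ Ut, (w v : ℝ)) ≤ 0 :=
        mul_nonpos_of_nonneg_of_nonpos (by positivity) (by linarith)
      linarith
    · refine le_trans (hG.kap Ut hh) ?_
      have hsub : reach B Ut ⊆ reach B U := by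
        intro v hv
        unfold reach at hv ⊢
        simp only [Finset.mem_filter, Finset.mem_univ, true_and] at hv ⊢
        obtain ⟨b, hb, hvb, hd⟩ := hv
        refine ⟨b, hb, hvb, Finset.disjoint_left.2 (fun u hu huU => ?_)⟩
        refine Finset.disjoint_left.1 hd hu ?_
        rw [hUt, Finset.mem_filter]
        exact ⟨Finset.mem_univ _, by rw [(hU u).1 huU]; exact ht.2⟩
      calc ∑ v ∈ reach B Ut, (w v : ℝ) ^ 2
          = ∑ v ∈ reach B Ut, (w v : ℝ) ^ 2 * (Set.Ioi (z v)).indicator (1 : ℝ → ℝ) t := by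
            refine Finset.sum_congr rfl (fun v hv => ?_)
            unfold reach at hv
            simp only [Finset.mem_filter, Finset.mem_univ, true_and] at hv
            obtain ⟨b, hb, hvb, hd⟩ := hv
            have h4 : v ∉ Ut := Finset.disjoint_left.1 hd hvb
            have h5 : z v < t := by
              by_contra hcon
              push Not at hcon
              exact h4 (by rw [hUt, Finset.mem_filter]; exact ⟨Finset.mem_univ _, hcon⟩)
            simp [Set.indicator, h5]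
        _ ≤ ∑ v ∈ reach B U, (w v : ℝ) ^ 2 * (Set.Ioi (z v)).indicator (1 : ℝ → ℝ) t := by
            refine Finset.sum_le_sum_of_subset_of_nonneg hsub (fun v _ _ => ?_)
            exact mul_nonneg (by positivity) (Set.indicator_nonneg (fun _ _ => by simp) _)
  -- integrate
  have hint1 : ∀ v, IntegrableOn (fun t => (w v : ℝ) * (Set.Iic (z v)).indicator (1 : ℝ → ℝ) t)
      (Set.Ioc (0 : ℝ) 1) := fun v =>
    (layer_integrable _ measurableSet_Iic).const_mul _
  have hint2 : ∀ v, IntegrableOn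
      (fun t => (w v : ℝ) ^ 2 * (Set.Ioi (z v)).indicator (1 : ℝ → ℝ) t)
      (Set.Ioc (0 : ℝ) 1) := fun v =>
    (layer_integrable _ measurableSet_Ioi).const_mul _
  have hintS1 : IntegrableOn
      (fun t => ∑ v, (w v : ℝ) * (Set.Iic (z v)).indicator (1 : ℝ → ℝ) t)
      (Set.Ioc (0 : ℝ) 1) := integrable_finsetSum _ (fun v _ => hint1 v)
  have hintS2 : IntegrableOn
      (fun t => ∑ v ∈ reach B U, (w v : ℝ) ^ 2 * (Set.Ioi (z v)).indicator (1 : ℝ → ℝ) t)
      (Set.Ioc (0 : ℝ) 1) := integrable_finsetSum _ (fun v _ => hint2 v)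
  have hconst : IntegrableOn (fun _ : ℝ => (r : ℝ)) (Set.Ioc (0 : ℝ) 1) :=
    integrableOn_const (by simp) (by simp)
  have hmono := setIntegral_mono_on (μ := volume) (s := Set.Ioc (0 : ℝ) 1)
    ((hconst.sub hintS1).const_mul (κ * (r : ℝ))) hintS2 measurableSet_Ioc hpt
  have hL : ∫ t in Set.Ioc (0 : ℝ) 1, κ * (r : ℝ) * ((r : ℝ) -
      ∑ v, (w v : ℝ) * (Set.Iic (z v)).indicator (1 : ℝ → ℝ) t) =
      κ * (r : ℝ) * ((r : ℝ) - ∑ v, (w v : ℝ) * z v) := by
    rw [integral_const_mul, integral_sub hconst hintS1,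
      integral_finsetSum _ (fun v _ => hint1 v)]
    congr 2
    · simp
    · refine Finset.sum_congr rfl (fun v _ => ?_)
      rw [integral_const_mul, layer_le_integral (z v) (h0 v) (h1 v)]
  have hR : ∫ t in Set.Ioc (0 : ℝ) 1, ∑ v ∈ reach B U,
      (w v : ℝ) ^ 2 * (Set.Ioi (z v)).indicator (1 : ℝ → ℝ) t =
      ∑ v ∈ reach B U, (1 - z v) * (w v : ℝ) ^ 2 := by
    rw [integral_finsetSum _ (fun v _ => hint2 v)]
    refine Finset.sum_congr rfl (fun v _ => ?_)
    rw [integral_const_mul, layer_gt_integral (z v) (h0 v) (h1 v)]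
    ring
  rw [← hL, ← hR]
  exact hmono

end Core

end Pool.Agent.Work.MP_2e8aec_co
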