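import Pool.Agent.Work.MP_2e8aec_co.Defs
import Pool.Agent.Work.MP_2e8aec_co.Layer

/-!
# Biclique covers: the real inequality (module Real2, helper58)
-/

set_option autoImplicit false

namespace Pool.Agent.Work.MP_2e8aec_co

open Finset

section Core

variable {V : Type} [Fintype V] [DecidableEq V] {A B : Finset (Finset V)} {w : V → ℕ} {r N : ℕ}
  {κ : ℝ}

theorem r_pos_of_good [Nonempty V] (hG : Good A B w r κ) : 1 ≤ r := by
  obtain ⟨v⟩ := ‹Nonempty V›
  obtain ⟨a, ha, hva⟩ := hG.hA.cov v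
  have h1 := hG.hA.sum a ha
  have h2 : w v ≤ ∑ v ∈ a, w v := Finset.single_le_sum (fun _ _ => Nat.zero_le _) hva
  have h3 := hG.wpos v
  omega

theorem real2 [Nonempty V] (hG : Good A B w r κ) (hκ : 2 < κ) :
    ∃ δ : ℝ, 0 < δ ∧ ∀ (UA UB : Finset V) (z : V → ℝ), (∀ v, 0 ≤ z v) → (∀ v, z v ≤ 1) →
      (∀ v, v ∈ UB ↔ z v = 1) →
      (UA ∈ B ∧ UB ∈ A) ∨
      2 * (r : ℝ) ^ 2 + δ ≤ r * (∑ v ∈ UA, (w v : ℝ) + ∑ v, (w v : ℝ) * z v)
        + ∑ v ∈ reach A UA, (w v : ℝ) ^ 2 ∨
      2 * (r : ℝ) ^ 2 + δ ≤ r * (∑ v ∈ UA, (w v : ℝ) + ∑ v, (w v : ℝ) * z v)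
        + ∑ v ∈ reach B UB, (1 - z v) * (w v : ℝ) ^ 2 := by
  classical
  have hr1 : (1 : ℝ) ≤ r := by exact_mod_cast r_pos_of_good hG
  have hw1 : ∀ v, (1 : ℝ) ≤ w v := fun v => by exact_mod_cast hG.wpos v
  obtain ⟨ε, hε⟩ : ∃ ε : ℝ, ε = 1 / (2 * ((r : ℝ) + 1)) := ⟨_, rfl⟩
  have hεr : ε * ((r : ℝ) + 1) = 1 / 2 := by
    rw [hε]
    field_simp
  have hε0 : 0 < ε := by
    rw [hε]
    positivity
  have hε1 : ε ≤ 1 / 4 := by
    nlinarith
  refine ⟨min (1 - 2 / κ) (ε / 2), ?_, ?_⟩
  · refine lt_min ?_ (by linarith)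
    have h2 : 2 / κ < 1 := by
      rw [div_lt_one (by linarith)]
      exact hκ
    linarith
  intro UA UB z h0 h1 hUB
  obtain ⟨δ, hδ⟩ : ∃ δ : ℝ, δ = min (1 - 2 / κ) (ε / 2) := ⟨_, rfl⟩
  rw [← hδ]
  have hδκ : δ ≤ 1 - 2 / κ := by rw [hδ]; exact min_le_left _ _
  have hδε : δ ≤ ε / 2 := by rw [hδ]; exact min_le_right _ _
  obtain ⟨P, hP⟩ : ∃ P : ℝ, P = ∑ v ∈ UA, (w v : ℝ) := ⟨_, rfl⟩
  obtain ⟨Q, hQ⟩ : ∃ Q : ℝ, Q = ∑ v, (w v : ℝ) * z v := ⟨_, rfl⟩
  obtain ⟨MA, hMA⟩ : ∃ M : ℝ, M = ∑ v ∈ reach A UA, (w v : ℝ) ^ 2 := ⟨_, rfl⟩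
  obtain ⟨MB, hMB⟩ : ∃ M : ℝ, M = ∑ v ∈ reach B UB, (1 - z v) * (w v : ℝ) ^ 2 := ⟨_, rfl⟩
  rw [← hP, ← hQ, ← hMA, ← hMB]
  have hlay : κ * (r : ℝ) * ((r : ℝ) - Q) ≤ MB := by
    rw [hQ, hMB]
    exact layer hG.hB (by linarith) z h0 h1 UB hUB
  have hMA0 : 0 ≤ MA := by
    rw [hMA]
    exact Finset.sum_nonneg (fun v _ => by positivity)
  have hterm : ∀ v, 0 ≤ (1 - z v) * (w v : ℝ) ^ 2 := fun v =>
    mul_nonneg (by linarith [h1 v]) (by positivity)
  have hMB0 : 0 ≤ MB := by
    rw [hMB]
    exact Finset.sum_nonneg (fun v _ => hterm v)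
  -- a vertex of a reached set bounds `MB` from below
  have hMBge : ∀ b ∈ B, Disjoint b UB → ∀ v ∈ b, 1 - z v ≤ MB := by
    intro b hb hd v hv
    have hvr : v ∈ reach B UB := by
      unfold reach
      rw [Finset.mem_filter]
      exact ⟨Finset.mem_univ _, b, hb, hv, hd⟩
    have h3 : (1 - z v) * (w v : ℝ) ^ 2 ≤ MB := by
      rw [hMB]
      exact Finset.single_le_sum (f := fun v => (1 - z v) * (w v : ℝ) ^ 2)
        (fun v _ => hterm v) hvr
    have h4 : 1 - z v ≤ (1 - z v) * (w v : ℝ) ^ 2 := by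
      have h5 : 0 ≤ 1 - z v := by linarith [h1 v]
      have h6 : (1 : ℝ) ≤ (w v : ℝ) ^ 2 := by nlinarith [hw1 v]
      nlinarith
    linarith
  by_cases hA : Hits A UA
  · -- `UA` hits `A`
    have hPnat : r ≤ ∑ v ∈ UA, w v := hG.hA.hit UA hA
    have hPr : (r : ℝ) ≤ P := by
      rw [hP]
      exact_mod_cast hPnat
    by_cases hB : Hits B UB
    · -- `UB` hits `B`
      have hQnat : r ≤ ∑ v ∈ UB, w v := hG.hB.hit UB hB
      have hQUB : ((∑ v ∈ UB, w v : ℕ) : ℝ) ≤ Q := by
        rw [hQ]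
        push_cast
        calc ∑ v ∈ UB, (w v : ℝ) = ∑ v ∈ UB, (w v : ℝ) * z v := by
              refine Finset.sum_congr rfl (fun v hv => ?_)
              rw [(hUB v).1 hv, mul_one]
          _ ≤ ∑ v, (w v : ℝ) * z v :=
              Finset.sum_le_sum_of_subset_of_nonneg (Finset.subset_univ _)
                (fun v _ _ => mul_nonneg (by positivity) (h0 v))
      rcases Nat.lt_or_ge r (∑ v ∈ UA, w v) with h | h
      · -- `P ≥ r + 1`
        right; left
        have hP1 : (r : ℝ) + 1 ≤ P := by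
          rw [hP]
          exact_mod_cast h
        have hQ1 : (r : ℝ) ≤ Q := le_trans (by exact_mod_cast hQnat) hQUB
        nlinarith
      · rcases Nat.lt_or_ge r (∑ v ∈ UB, w v) with h' | h'
        · right; left
          have hQ1 : (r : ℝ) + 1 ≤ Q := le_trans (by exact_mod_cast h') hQUB
          nlinarith
        · left
          exact ⟨hG.hA.tight UA hA (le_antisymm h hPnat), hG.hB.tight UB hB (le_antisymm h' hQnat)⟩
    · -- `UB` does not hit `B`
      have key : (r : ℝ) + 1 / 2 ≤ Q ∨ ε ≤ MB := by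
        obtain ⟨U', hU'⟩ : ∃ U' : Finset V, ∀ v, v ∈ U' ↔ 1 - ε ≤ z v :=
          ⟨univ.filter (fun v => 1 - ε ≤ z v), fun v => by simp⟩
        by_cases hB' : Hits B U'
        · unfold Hits at hB
          push Not at hB
          obtain ⟨b, hb, hbd⟩ := hB
          by_cases hbU : ∀ v ∈ b, v ∈ U'
          · left
            have hnotA : U' ∉ A := by
              intro hUA
              obtain ⟨v, hv⟩ := hG.exact U' hUA b hb
              have h7 : U' ∩ b = b := Finset.inter_eq_right.2 hbU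
              rw [h7] at hv
              have h8 := hG.hB.two b hb
              rw [hv, Finset.card_singleton] at h8
              omega
            have h9 : r ≤ ∑ v ∈ U', w v := hG.hB.hit U' hB'
            have h10 : ∑ v ∈ U', w v ≠ r := fun h => hnotA (hG.hB.tight U' hB' h)
            have h11 : r + 1 ≤ ∑ v ∈ U', w v := by omega
            have h12 : ((r : ℝ) + 1) ≤ ∑ v ∈ U', (w v : ℝ) := by exact_mod_cast h11
            have h13 : (1 - ε) * ∑ v ∈ U', (w v : ℝ) ≤ Q := by
              rw [hQ, Finset.mul_sum]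
              calc ∑ v ∈ U', (1 - ε) * (w v : ℝ) ≤ ∑ v ∈ U', (w v : ℝ) * z v := by
                    refine Finset.sum_le_sum (fun v hv => ?_)
                    have h14 := (hU' v).1 hv
                    have h15 : (0 : ℝ) ≤ w v := by positivity
                    nlinarith
                _ ≤ ∑ v, (w v : ℝ) * z v :=
                    Finset.sum_le_sum_of_subset_of_nonneg (Finset.subset_univ _)
                      (fun v _ _ => mul_nonneg (by positivity) (h0 v))
            have h16 : (1 - ε) * ((r : ℝ) + 1) ≤ (1 - ε) * ∑ v ∈ U', (w v : ℝ) :=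
              mul_le_mul_of_nonneg_left h12 (by linarith)
            nlinarith
          · right
            push Not at hbU
            obtain ⟨v, hv, hvU⟩ := hbU
            have h14 : z v < 1 - ε := by
              by_contra h
              exact hvU ((hU' v).2 (not_lt.1 h))
            linarith [hMBge b hb hbd v hv]
        · right
          unfold Hits at hB'
          push Not at hB'
          obtain ⟨b, hb, hbd⟩ := hB'
          have hsub : UB ⊆ U' := by
            intro v hv
            rw [hU' v, (hUB v).1 hv]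
            linarith
          have hbUB : Disjoint b UB := Finset.disjoint_of_subset_right hsub hbd
          have hbne : b.Nonempty := by
            rw [← Finset.card_pos]
            have := hG.hB.two b hb
            omega
          obtain ⟨v, hv⟩ := hbne
          have hvU : v ∉ U' := Finset.disjoint_left.1 hbd hv
          have h14 : z v < 1 - ε := by
            by_contra h
            exact hvU ((hU' v).2 (not_lt.1 h))
          linarith [hMBge b hb hbUB v hv]
      right; right
      rcases key with h | h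
      · nlinarith
      · by_contra hcon
        push Not at hcon
        have h20 : MB < δ + (r : ℝ) * ((r : ℝ) - Q) := by nlinarith
        have h21 : (κ - 1) * ((r : ℝ) * ((r : ℝ) - Q)) < δ := by nlinarith
        have h22 : (r : ℝ) * ((r : ℝ) - Q) < δ := by
          by_contra h'
          push Not at h'
          have hδ0 : 0 ≤ (r : ℝ) * ((r : ℝ) - Q) := by
            by_contra h''
            push Not at h''
            nlinarith
          nlinarith
        nlinarith
  · -- `UA` does not hit `A`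
    have hkap : κ * (r : ℝ) * ((r : ℝ) - P) ≤ MA := by
      rw [hP, hMA]
      exact hG.hA.kap UA hA
    have hMA1 : 1 ≤ MA := by
      unfold Hits at hA
      push Not at hA
      obtain ⟨a, ha, had⟩ := hA
      have hane : a.Nonempty := by
        rw [← Finset.card_pos]
        have := hG.hA.two a ha
        omega
      obtain ⟨v, hv⟩ := hane
      have hvr : v ∈ reach A UA := by
        unfold reach
        rw [Finset.mem_filter]
        exact ⟨Finset.mem_univ _, a, ha, hv, had⟩
      have h3 : (w v : ℝ) ^ 2 ≤ MA := by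
        rw [hMA]
        exact Finset.single_le_sum (f := fun v => (w v : ℝ) ^ 2)
          (fun v _ => by positivity) hvr
      nlinarith [hw1 v]
    right
    by_contra hcon
    push Not at hcon
    obtain ⟨hc1, hc2⟩ := hcon
    obtain ⟨D, hD⟩ : ∃ D : ℝ, D = (r : ℝ) * (2 * (r : ℝ) - P - Q) := ⟨_, rfl⟩
    have hD1 : D = 2 * (r : ℝ) ^ 2 - r * (P + Q) := by rw [hD]; ring
    have hD2 : κ * D = κ * (r : ℝ) * ((r : ℝ) - P) + κ * (r : ℝ) * ((r : ℝ) - Q) := by
      rw [hD]; ring
    have h30 : MA < δ + D := by linarith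
    have h31 : MB < δ + D := by linarith
    have h32 : κ * D ≤ MA + MB := by linarith
    have h33 : (κ - 2) * D < 2 * δ := by linarith
    have h34 : 1 - δ < D := by linarith
    have h35 : (κ - 2) * (1 - δ) < (κ - 2) * D :=
      mul_lt_mul_of_pos_left h34 (by linarith)
    have h36 : κ - 2 < κ * δ := by linarith
    have h37 : κ * δ ≤ κ * (1 - 2 / κ) := mul_le_mul_of_nonneg_left hδκ (by linarith)
    have h38 : κ * (1 - 2 / κ) = κ - 2 := by
      field_simp
    linarith

end Core

end Pool.Agent.Work.MP_2e8aec_co
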