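import Pool.Agent.Work.MP_2e8aec_co.Defs
import Pool.Agent.Work.MP_2e8aec_co.Cost
import Pool.Agent.Work.MP_2e8aec_co.Real2

/-!
# Biclique covers: the nontight case
-/

set_option autoImplicit false

namespace Pool.Agent.Work.MP_2e8aec_co

open Finset

variable {V : Type} [Fintype V] [DecidableEq V] {A B : Finset (Finset V)} {w : V → ℕ} {r : ℕ}
  {κ : ℝ}

theorem nontight [Nonempty V] (hG : Good A B w r κ) (hκ : 2 < κ) :
    ∃ N₀ : ℕ, ∀ N ≥ N₀, ∀ C : Charge A B w r N, ¬ (C.UA ∈ B ∧ C.UB ∈ A) →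
      2 * (N * r) ^ 2 ≤ C.total + 1 := by
  classical
  obtain ⟨δ, hδ, hreal⟩ := real2 hG hκ
  set W : ℝ := ∑ v, (w v : ℝ) with hW
  set c : ℝ := (Fintype.card V : ℝ) with hc
  set K : ℝ := r * c + 8 * r * W + (4 * r + 1) * W with hK
  have hW0 : 0 ≤ W := sum_nonneg fun v _ => Nat.cast_nonneg _
  have hc0 : 0 ≤ c := Nat.cast_nonneg _
  have hr0 : (0 : ℝ) ≤ r := Nat.cast_nonneg _
  obtain ⟨M, hM⟩ := exists_nat_gt (K / δ)
  refine ⟨max 8 M, fun N hN C hnt => ?_⟩
  have hN8 : 8 ≤ N := le_trans (le_max_left _ _) hN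
  have hNM : (M : ℝ) ≤ N := by exact_mod_cast le_trans (le_max_right _ _) hN
  by_contra hcon
  have hT : C.total ≤ 2 * (N * r) ^ 2 := by omega
  have hNpos : (0 : ℝ) < N := by
    have : 0 < N := by omega
    exact_mod_cast this
  have hKN : K ≤ δ * N := by
    have h1 : K / δ < N := lt_of_lt_of_le hM hNM
    rw [div_lt_iff₀ hδ] at h1
    linarith
  have hTr : (C.total : ℝ) < 2 * (N * r) ^ 2 := by
    have : C.total < 2 * (N * r) ^ 2 := by omega
    exact_mod_cast this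
  have hn : ∀ v, (0 : ℝ) < ((N * w v : ℕ) : ℝ) := by
    intro v
    have : 0 < N * w v := Nat.mul_pos (by omega) (hG.wpos v)
    exact_mod_cast this
  have hell : ∀ v, C.ell v ≤ N * w v := by
    intro v
    unfold Charge.ell
    refine le_trans (card_le_univ _) ?_
    simp
  let z : V → ℝ := fun v => 1 - (C.ell v : ℝ) / ((N * w v : ℕ) : ℝ)
  have hzn : ∀ v, ((N * w v : ℕ) : ℝ) - C.ell v = N * (w v * z v) := by
    intro v
    have h1 := (hn v).ne'
    have h2 : ((N * w v : ℕ) : ℝ) * z v = ((N * w v : ℕ) : ℝ) - C.ell v := by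
      simp only [z]
      field_simp
    rw [← h2]
    push_cast
    ring
  have hz0 : ∀ v, 0 ≤ z v := by
    intro v
    have h1 : (C.ell v : ℝ) ≤ ((N * w v : ℕ) : ℝ) := by exact_mod_cast hell v
    have h2 : (C.ell v : ℝ) / ((N * w v : ℕ) : ℝ) ≤ 1 := (div_le_one (hn v)).2 h1
    simp only [z]; linarith
  have hz1 : ∀ v, z v ≤ 1 := by
    intro v
    have h2 : 0 ≤ (C.ell v : ℝ) / ((N * w v : ℕ) : ℝ) := div_nonneg (Nat.cast_nonneg _) (hn v).le
    simp only [z]; linarith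
  have hzU : ∀ v, v ∈ C.UB ↔ z v = 1 := by
    intro v
    have h1 : z v = 1 ↔ C.ell v = 0 := by
      simp only [z]
      constructor
      · intro h
        have h2 : (C.ell v : ℝ) / ((N * w v : ℕ) : ℝ) = 0 := by linarith
        rcases div_eq_zero_iff.1 h2 with h3 | h3
        · exact_mod_cast h3
        · exact absurd h3 (hn v).ne'
      · intro h
        rw [h]; simp
    rw [h1]
    unfold Charge.UB Charge.ell
    rw [card_eq_zero, filter_eq_empty_iff]
    simp
  have hP : ∑ v ∈ C.UA, (w v : ℝ) ≤ W := sum_le_sum_of_subset_of_nonneg (subset_univ _)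
    fun v _ _ => Nat.cast_nonneg _
  have hQ : ∑ v, (w v : ℝ) * z v ≤ W := sum_le_sum fun v _ => by
    have : (0 : ℝ) ≤ w v := Nat.cast_nonneg _
    nlinarith [hz1 v]
  set P : ℝ := ∑ v ∈ C.UA, (w v : ℝ) with hPdef
  set Q : ℝ := ∑ v, (w v : ℝ) * z v with hQdef
  have hP0 : 0 ≤ P := sum_nonneg fun v _ => Nat.cast_nonneg _
  have hQ0 : 0 ≤ Q := sum_nonneg fun v _ => mul_nonneg (Nat.cast_nonneg _) (hz0 v)
  -- the common part
  have hcommon : ∑ v, ((N * r : ℕ) - 4 * r : ℝ) * ((if v ∈ C.UA then ((N * w v : ℕ) : ℝ) else 0)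
        + (((N * w v : ℕ) : ℝ) - C.ell v) - 1) = (N * r - 4 * r) * (N * P + N * Q - c) := by
    rw [← mul_sum]
    have e1 : ∑ v, ((if v ∈ C.UA then ((N * w v : ℕ) : ℝ) else 0)
        + (((N * w v : ℕ) : ℝ) - C.ell v) - 1) = N * P + N * Q - c := by
      rw [sum_sub_distrib, sum_add_distrib]
      congr 1
      · congr 1
        · rw [sum_ite_mem, univ_inter, hPdef, mul_sum]
          exact sum_congr rfl fun v _ => by push_cast; ring
        · rw [hQdef, mul_sum]
          exact sum_congr rfl fun v _ => hzn v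
      · simp [hc]
    rw [e1]
    push_cast
    ring
  have hcommon2 : (N : ℝ) ^ 2 * (r * (P + Q)) - N * (r * c + 8 * r * W) ≤
      (N * r - 4 * r) * (N * P + N * Q - c) := by
    have h1 : r * (P + Q) ≤ r * (2 * W) := mul_le_mul_of_nonneg_left (by linarith) hr0
    have h2 : N * (r * (P + Q)) ≤ N * (r * (2 * W)) := mul_le_mul_of_nonneg_left h1 hNpos.le
    have h3 : 0 ≤ r * c := mul_nonneg hr0 hc0
    nlinarith
  have htot : (C.total : ℝ) = ∑ v, (C.G v : ℝ) := by
    unfold Charge.total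
    push_cast
    rfl
  rcases hreal C.UA C.UB z hz0 hz1 hzU with h | h | h
  · exact hnt h
  · have hs := sum_le_sum fun v (_ : v ∈ (univ : Finset V)) => C.costA hG hN8 hT v
    rw [← htot, sum_add_distrib, hcommon, sum_ite_mem, univ_inter] at hs
    have e2 : (N : ℝ) ^ 2 * (∑ v ∈ reach A C.UA, (w v : ℝ) ^ 2) - N * ((4 * r + 1) * W) ≤
        ∑ v ∈ reach A C.UA, (((N * w v : ℕ) : ℝ) - 4 * r) * (((N * w v : ℕ) : ℝ) - 1) := by
      have e3 : ∑ v ∈ reach A C.UA, (w v : ℝ) ≤ W :=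
        sum_le_sum_of_subset_of_nonneg (subset_univ _) fun v _ _ => Nat.cast_nonneg _
      have e4 : N * ((4 * r + 1) * ∑ v ∈ reach A C.UA, (w v : ℝ)) ≤ N * ((4 * r + 1) * W) :=
        mul_le_mul_of_nonneg_left (mul_le_mul_of_nonneg_left e3 (by linarith)) hNpos.le
      have e5 : (N : ℝ) ^ 2 * (∑ v ∈ reach A C.UA, (w v : ℝ) ^ 2)
          - N * ((4 * r + 1) * ∑ v ∈ reach A C.UA, (w v : ℝ)) ≤
          ∑ v ∈ reach A C.UA, (((N * w v : ℕ) : ℝ) - 4 * r) * (((N * w v : ℕ) : ℝ) - 1) := by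
        rw [mul_sum, mul_sum, mul_sum, ← sum_sub_distrib]
        refine sum_le_sum fun v _ => ?_
        push_cast
        nlinarith
      linarith
    nlinarith [mul_le_mul_of_nonneg_left hKN hNpos.le, mul_le_mul_of_nonneg_left h (sq_nonneg (N : ℝ))]
  · have hs := sum_le_sum fun v (_ : v ∈ (univ : Finset V)) => C.costB hG hN8 v
    rw [← htot, sum_add_distrib, hcommon, sum_ite_mem, univ_inter] at hs
    have e2 : (N : ℝ) ^ 2 * (∑ v ∈ reach B C.UB, (1 - z v) * (w v : ℝ) ^ 2)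
        - N * ((4 * r + 1) * W) ≤
        ∑ v ∈ reach B C.UB, (C.ell v : ℝ) * (((N * w v : ℕ) : ℝ) - 4 * r) := by
      have e3 : ∑ v ∈ reach B C.UB, (w v : ℝ) ≤ W :=
        sum_le_sum_of_subset_of_nonneg (subset_univ _) fun v _ _ => Nat.cast_nonneg _
      have e4 : N * ((4 * r + 1) * ∑ v ∈ reach B C.UB, (w v : ℝ)) ≤ N * ((4 * r + 1) * W) :=
        mul_le_mul_of_nonneg_left (mul_le_mul_of_nonneg_left e3 (by linarith)) hNpos.le
      have e5 : (N : ℝ) ^ 2 * (∑ v ∈ reach B C.UB, (1 - z v) * (w v : ℝ) ^ 2)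
          - N * ((4 * r + 1) * ∑ v ∈ reach B C.UB, (w v : ℝ)) ≤
          ∑ v ∈ reach B C.UB, (C.ell v : ℝ) * (((N * w v : ℕ) : ℝ) - 4 * r) := by
        rw [mul_sum, mul_sum, mul_sum, ← sum_sub_distrib]
        refine sum_le_sum fun v _ => ?_
        have f1 : (C.ell v : ℝ) = N * w v * (1 - z v) := by
          have := hzn v
          push_cast at this
          linarith
        have f2 : (0 : ℝ) ≤ w v := Nat.cast_nonneg _
        have f3 : (0 : ℝ) ≤ N * w v := mul_nonneg hNpos.le f2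
        have f4 : 0 ≤ 1 - z v := by linarith [hz1 v]
        have f5 : N * w v * (1 - z v) * (4 * r) ≤ N * w v * 1 * (4 * r) := by
          refine mul_le_mul_of_nonneg_right (mul_le_mul_of_nonneg_left ?_ f3) (by linarith)
          linarith [hz0 v]
        rw [f1]
        push_cast
        nlinarith
      linarith
    nlinarith [mul_le_mul_of_nonneg_left hKN hNpos.le, mul_le_mul_of_nonneg_left h (sq_nonneg (N : ℝ))]

end Pool.Agent.Work.MP_2e8aec_co
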