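import Pool.Agent.Work.MP_2e8aec_co.Defs

/-!
# Module Seed: the pentagon
-/

set_option autoImplicit false

namespace Pool.Agent.Work.MP_2e8aec_co

open Finset

/-- First family. -/
def seedA : Finset (Finset (Fin 10)) :=
  {{0, 1, 5}, {1, 2, 6}, {2, 3, 7}, {3, 4, 8}, {4, 0, 9}}

/-- Second family. -/
def seedB : Finset (Finset (Fin 10)) :=
  {{0, 2, 8}, {1, 3, 9}, {2, 4, 5}, {3, 0, 6}, {4, 1, 7}}

/-- Weights. -/
def seedW (v : Fin 10) : ℕ := if v.val < 5 then 3 else 2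

theorem chkA : ∀ u0 u1 u2 u3 u4 u5 u6 u7 u8 u9 : Bool,
    (((u0 || u1 || u5) && (u1 || u2 || u6) && (u2 || u3 || u7) && (u3 || u4 || u8) && (u4 || u0 || u9)) = true → 8 ≤ ((if u0 then 3 else 0) + (if u1 then 3 else 0) + (if u2 then 3 else 0) + (if u3 then 3 else 0) + (if u4 then 3 else 0) + (if u5 then 2 else 0) + (if u6 then 2 else 0) + (if u7 then 2 else 0) + (if u8 then 2 else 0) + (if u9 then 2 else 0)) ∧ (((if u0 then 3 else 0) + (if u1 then 3 else 0) + (if u2 then 3 else 0) + (if u3 then 3 else 0) + (if u4 then 3 else 0) + (if u5 then 2 else 0) + (if u6 then 2 else 0) + (if u7 then 2 else 0) + (if u8 then 2 else 0) + (if u9 then 2 else 0)) = 8 → ((u0 && !u1 && u2 && !u3 && !u4 && !u5 && !u6 && !u7 && u8 && !u9) || (!u0 && u1 && !u2 && u3 && !u4 && !u5 && !u6 && !u7 && !u8 && u9) || (!u0 && !u1 && u2 && !u3 && u4 && u5 && !u6 && !u7 && !u8 && !u9) || (u0 && !u1 &&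 !u2 && u3 && !u4 && !u5 && u6 && !u7 && !u8 && !u9) || (!u0 && u1 && !u2 && !u3 && u4 && !u5 && !u6 && u7 && !u8 && !u9)) = true)) ∧
    (((u0 || u1 || u5) && (u1 || u2 || u6) && (u2 || u3 || u7) && (u3 || u4 || u8) && (u4 || u0 || u9)) = false → 520 ≤ 8 * ((if (!(u0 || u1 || u5) || !(u4 || u0 || u9)) then 9 else 0) + (if (!(u0 || u1 || u5) || !(u1 || u2 || u6)) then 9 else 0) + (if (!(u1 || u2 || u6) || !(u2 || u3 || u7)) then 9 else 0) + (if (!(u2 || u3 || u7) || !(u3 || u4 || u8)) then 9 else 0) + (if (!(u3 || u4 || u8) || !(u4 || u0 || u9)) then 9 else 0) + (if (!(u0 || u1 || u5)) then 4 else 0) + (if (!(u1 || u2 || u6)) then 4 else 0) + (if (!(u2 || u3 || u7)) then 4 else 0) + (if (!(u3 || u4 || u8)) then 4 else 0) + (if (!(u4 || u0 || u9)) then 4 else 0)) + 65 * ((if u0 then 3 else 0) + (if u1 then 3 else 0) + (if u2 then 3 else 0) + (if u3 then 3 else 0) + (if u4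 then 3 else 0) + (if u5 then 2 else 0) + (if u6 then 2 else 0) + (if u7 then 2 else 0) + (if u8 then 2 else 0) + (if u9 then 2 else 0))) := by
  decide +kernel

theorem chkB : ∀ u0 u1 u2 u3 u4 u5 u6 u7 u8 u9 : Bool,
    (((u0 || u2 || u8) && (u1 || u3 || u9) && (u2 || u4 || u5) && (u3 || u0 || u6) && (u4 || u1 || u7)) = true → 8 ≤ ((if u0 then 3 else 0) + (if u1 then 3 else 0) + (if u2 then 3 else 0) + (if u3 then 3 else 0) + (if u4 then 3 else 0) + (if u5 then 2 else 0) + (if u6 then 2 else 0) + (if u7 then 2 else 0) + (if u8 then 2 else 0) + (if u9 then 2 else 0)) ∧ (((if u0 then 3 else 0) + (if u1 then 3 else 0) + (if u2 then 3 else 0) + (if u3 then 3 else 0) + (if u4 then 3 else 0) + (if u5 then 2 else 0) + (if u6 then 2 else 0) + (if u7 then 2 else 0) + (if u8 then 2 else 0) + (if u9 then 2 else 0)) = 8 → ((u0 && u1 && !u2 && !u3 && !u4 && u5 && !u6 && !u7 && !u8 &&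 !u9) || (!u0 && u1 && u2 && !u3 && !u4 && !u5 && u6 && !u7 && !u8 && !u9) || (!u0 && !u1 && u2 && u3 && !u4 && !u5 && !u6 && u7 && !u8 && !u9) || (!u0 && !u1 && !u2 && u3 && u4 && !u5 && !u6 && !u7 && u8 && !u9) || (u0 && !u1 && !u2 && !u3 && u4 && !u5 && !u6 && !u7 && !u8 && u9)) = true)) ∧
    (((u0 || u2 || u8) && (u1 || u3 || u9) && (u2 || u4 || u5) && (u3 || u0 || u6) && (u4 || u1 || u7)) = false → 520 ≤ 8 * ((if (!(u0 || u2 || u8) || !(u3 || u0 || u6)) then 9 else 0) + (if (!(u1 || u3 || u9) || !(u4 || u1 || u7)) then 9 else 0) + (if (!(u0 || u2 || u8) || !(u2 || u4 || u5)) then 9 else 0) + (if (!(u1 || u3 || u9) || !(u3 || u0 || u6)) then 9 else 0) + (if (!(u2 || u4 || u5) || !(u4 || u1 || u7)) then 9 else 0) + (if (!(u2 || u4 || u5)) then 4 else 0) + (if (!(u3 || u0 || u6)) then 4 else 0) + (if (!(u4 || u1 || u7)) then 4 else 0) + (if (!(u0 || u2 || u8)) then 4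 else 0) + (if (!(u1 || u3 || u9)) then 4 else 0)) + 65 * ((if u0 then 3 else 0) + (if u1 then 3 else 0) + (if u2 then 3 else 0) + (if u3 then 3 else 0) + (if u4 then 3 else 0) + (if u5 then 2 else 0) + (if u6 then 2 else 0) + (if u7 then 2 else 0) + (if u8 then 2 else 0) + (if u9 then 2 else 0))) := by
  decide +kernel


theorem sum_link (U : Finset (Fin 10)) : ∑ v ∈ U, seedW v = ((if (decide ((0 : Fin 10) ∈ U)) then 3 else 0) + (if (decide ((1 : Fin 10) ∈ U)) then 3 else 0) + (if (decide ((2 : Fin 10) ∈ U)) then 3 else 0) + (if (decide ((3 : Fin 10) ∈ U)) then 3 else 0) + (if (decide ((4 : Fin 10) ∈ U)) then 3 else 0) + (if (decide ((5 : Fin 10) ∈ U)) then 2 else 0) + (if (decide ((6 : Fin 10) ∈ U)) then 2 else 0) + (if (decide ((7 : Fin 10) ∈ U)) then 2 else 0) + (if (decide ((8 : Fin 10) ∈ U)) then 2 else 0) + (if (decide ((9 : Fin 10) ∈ U)) then 2 else 0)) := by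
  have h : ∑ v ∈ U, seedW v = ∑ v : Fin 10, if v ∈ U then seedW v else 0 := by
    rw [Finset.sum_ite_mem, Finset.univ_inter]
  rw [h]
  simp only [Fin.sum_univ_succ, seedW, decide_eq_true_eq]
  simp [add_assoc]

theorem reach_linkA (U : Finset (Fin 10)) : ∑ v ∈ reach seedA U, seedW v ^ 2 = ((if (!((decide ((0 : Fin 10) ∈ U)) || (decide ((1 : Fin 10) ∈ U)) || (decide ((5 : Fin 10) ∈ U))) || !((decide ((4 : Fin 10) ∈ U)) || (decide ((0 : Fin 10) ∈ U)) || (decide ((9 : Fin 10) ∈ U)))) then 9 else 0) + (if (!((decide ((0 : Fin 10) ∈ U)) || (decide ((1 : Fin 10) ∈ U)) || (decide ((5 : Fin 10) ∈ U))) || !((decide ((1 : Fin 10) ∈ U)) || (decide ((2 : Fin 10) ∈ U)) || (decide ((6 : Fin 10) ∈ U)))) then 9 else 0) + (if (!((decide ((1 : Fin 10) ∈ U)) || (decide ((2 : Fin 10) ∈ U)) || (decide ((6 : Fin 10) ∈ U))) || !((decide ((2 : Fin 10) ∈ U)) || (decide ((3 : Fin 10) ∈ U)) ||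 (decide ((7 : Fin 10) ∈ U)))) then 9 else 0) + (if (!((decide ((2 : Fin 10) ∈ U)) || (decide ((3 : Fin 10) ∈ U)) || (decide ((7 : Fin 10) ∈ U))) || !((decide ((3 : Fin 10) ∈ U)) || (decide ((4 : Fin 10) ∈ U)) || (decide ((8 : Fin 10) ∈ U)))) then 9 else 0) + (if (!((decide ((3 : Fin 10) ∈ U)) || (decide ((4 : Fin 10) ∈ U)) || (decide ((8 : Fin 10) ∈ U))) || !((decide ((4 : Fin 10) ∈ U)) || (decide ((0 : Fin 10) ∈ U)) || (decide ((9 : Fin 10) ∈ U)))) then 9 else 0) + (if (!((decide ((0 : Fin 10) ∈ U)) || (decide ((1 : Fin 10) ∈ U)) || (decide ((5 : Fin 10) ∈ U)))) then 4 else 0) + (if (!((decide ((1 : Fin 10) ∈ U)) || (decide ((2 : Fin 10) ∈ U)) || (decide ((6 : Fin 10) ∈ U)))) then 4 else 0) + (if (!((decide ((2 : Fin 10) ∈ U)) || (decide ((3 : Fin 10) ∈ U)) || (decide ((7 : Fin 10) ∈ U)))) then 4 else 0) + (if (!((decide ((3 : Fin 10) ∈ U)) || (decide ((4 : Fin 10) ∈ U))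 || (decide ((8 : Fin 10) ∈ U)))) then 4 else 0) + (if (!((decide ((4 : Fin 10) ∈ U)) || (decide ((0 : Fin 10) ∈ U)) || (decide ((9 : Fin 10) ∈ U)))) then 4 else 0)) := by
  unfold reach
  rw [Finset.sum_filter]
  simp only [Fin.sum_univ_succ, seedA, seedW]
  simp [add_assoc, Finset.disjoint_insert_left, and_assoc]

theorem hits_linkA (U : Finset (Fin 10)) : Hits seedA U ↔ (((decide ((0 : Fin 10) ∈ U)) || (decide ((1 : Fin 10) ∈ U)) || (decide ((5 : Fin 10) ∈ U))) && ((decide ((1 : Fin 10) ∈ U)) || (decide ((2 : Fin 10) ∈ U)) || (decide ((6 : Fin 10) ∈ U))) && ((decide ((2 : Fin 10) ∈ U)) || (decide ((3 : Fin 10) ∈ U)) || (decide ((7 : Fin 10) ∈ U))) && ((decide ((3 : Fin 10) ∈ U)) || (decide ((4 : Fin 10) ∈ U)) || (decide ((8 : Fin 10) ∈ U))) && ((decide ((4 : Fin 10) ∈ U)) || (decide ((0 : Fin 10) ∈ U)) || (decide ((9 : Fin 10) ∈ U)))) = true := by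
  unfold Hits
  simp only [seedA, Finset.disjoint_insert_left, Finset.disjoint_singleton_left, Finset.mem_insert,
    Finset.mem_singleton, forall_eq_or_imp, forall_eq, not_and_or, not_not, Bool.or_eq_true,
    Bool.and_eq_true, decide_eq_true_eq, or_assoc, and_assoc]

theorem mem_linkA (U : Finset (Fin 10)) (h : (((decide ((0 : Fin 10) ∈ U)) && !(decide ((1 : Fin 10) ∈ U)) && (decide ((2 : Fin 10) ∈ U)) && !(decide ((3 : Fin 10) ∈ U)) && !(decide ((4 : Fin 10) ∈ U)) && !(decide ((5 : Fin 10) ∈ U)) && !(decide ((6 : Fin 10) ∈ U)) && !(decide ((7 : Fin 10) ∈ U)) && (decide ((8 : Fin 10) ∈ U)) && !(decide ((9 : Fin 10) ∈ U))) || (!(decide ((0 : Fin 10) ∈ U)) && (decide ((1 : Fin 10) ∈ U)) && !(decide ((2 : Fin 10) ∈ U)) && (decide ((3 : Fin 10) ∈ U)) && !(decide ((4 : Fin 10) ∈ U)) && !(decide ((5 : Fin 10) ∈ U)) && !(decide ((6 : Fin 10) ∈ U)) && !(decide ((7 : Fin 10) ∈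 U)) && !(decide ((8 : Fin 10) ∈ U)) && (decide ((9 : Fin 10) ∈ U))) || (!(decide ((0 : Fin 10) ∈ U)) && !(decide ((1 : Fin 10) ∈ U)) && (decide ((2 : Fin 10) ∈ U)) && !(decide ((3 : Fin 10) ∈ U)) && (decide ((4 : Fin 10) ∈ U)) && (decide ((5 : Fin 10) ∈ U)) && !(decide ((6 : Fin 10) ∈ U)) && !(decide ((7 : Fin 10) ∈ U)) && !(decide ((8 : Fin 10) ∈ U)) && !(decide ((9 : Fin 10) ∈ U))) || ((decide ((0 : Fin 10) ∈ U)) && !(decide ((1 : Fin 10) ∈ U)) && !(decide ((2 : Fin 10) ∈ U)) && (decide ((3 : Fin 10) ∈ U)) && !(decide ((4 : Fin 10) ∈ U)) && !(decide ((5 : Fin 10) ∈ U)) && (decide ((6 : Fin 10) ∈ U)) && !(decide ((7 : Fin 10) ∈ U)) && !(decide ((8 : Fin 10) ∈ U)) && !(decide ((9 : Fin 10) ∈ U))) || (!(decide ((0 : Fin 10) ∈ U)) && (decide ((1 : Fin 10) ∈ U)) && !(decide ((2 : Fin 10) ∈ U)) && !(decide ((3 : Fin 10) ∈ U)) && (decide ((4 : Fin 10) ∈ U)) && !(decide ((5 :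 Fin 10) ∈ U)) && !(decide ((6 : Fin 10) ∈ U)) && (decide ((7 : Fin 10) ∈ U)) && !(decide ((8 : Fin 10) ∈ U)) && !(decide ((9 : Fin 10) ∈ U)))) = true) : U ∈ seedB := by
  simp only [Bool.or_eq_true, Bool.and_eq_true, Bool.not_eq_true', decide_eq_true_eq,
    decide_eq_false_iff_not] at h
  have key : ∀ b : Finset (Fin 10), (∀ v : Fin 10, v ∈ U ↔ v ∈ b) → b ∈ seedB → U ∈ seedB := by
    intro b h1 h2
    rw [Finset.ext h1]
    exact h2
  rcases h with (((h | h) | h) | h) | h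
  · refine key {0, 2, 8} (fun v => ?_) (by decide)
    obtain ⟨⟨⟨⟨⟨⟨⟨⟨⟨h0, h1⟩, h2⟩, h3⟩, h4⟩, h5⟩, h6⟩, h7⟩, h8⟩, h9⟩ := h
    fin_cases v <;> simp [h0, h1, h2, h3, h4, h5, h6, h7, h8, h9]
  · refine key {1, 3, 9} (fun v => ?_) (by decide)
    obtain ⟨⟨⟨⟨⟨⟨⟨⟨⟨h0, h1⟩, h2⟩, h3⟩, h4⟩, h5⟩, h6⟩, h7⟩, h8⟩, h9⟩ := h
    fin_cases v <;> simp [h0, h1, h2, h3, h4, h5, h6, h7, h8, h9]
  · refine key {2, 4, 5} (fun v => ?_) (by decide)
    obtain ⟨⟨⟨⟨⟨⟨⟨⟨⟨h0, h1⟩, h2⟩, h3⟩, h4⟩, h5⟩, h6⟩, h7⟩, h8⟩, h9⟩ := h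
    fin_cases v <;> simp [h0, h1, h2, h3, h4, h5, h6, h7, h8, h9]
  · refine key {3, 0, 6} (fun v => ?_) (by decide)
    obtain ⟨⟨⟨⟨⟨⟨⟨⟨⟨h0, h1⟩, h2⟩, h3⟩, h4⟩, h5⟩, h6⟩, h7⟩, h8⟩, h9⟩ := h
    fin_cases v <;> simp [h0, h1, h2, h3, h4, h5, h6, h7, h8, h9]
  · refine key {4, 1, 7} (fun v => ?_) (by decide)
    obtain ⟨⟨⟨⟨⟨⟨⟨⟨⟨h0, h1⟩, h2⟩, h3⟩, h4⟩, h5⟩, h6⟩, h7⟩, h8⟩, h9⟩ := h
    fin_cases v <;> simp [h0, h1, h2, h3, h4, h5, h6, h7, h8, h9]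

theorem seed_halfA : Half seedA seedB seedW 8 (65 / 64) where
  sum := by decide +kernel
  two := by decide +kernel
  cov := by decide +kernel
  hit := by
    intro U hU
    have h := (chkA (decide ((0 : Fin 10) ∈ U)) (decide ((1 : Fin 10) ∈ U)) (decide ((2 : Fin 10) ∈ U)) (decide ((3 : Fin 10) ∈ U)) (decide ((4 : Fin 10) ∈ U)) (decide ((5 : Fin 10) ∈ U)) (decide ((6 : Fin 10) ∈ U)) (decide ((7 : Fin 10) ∈ U)) (decide ((8 : Fin 10) ∈ U)) (decide ((9 : Fin 10) ∈ U))).1 ((hits_linkA U).1 hU)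
    rw [sum_link]
    exact h.1
  tight := by
    intro U hU hs
    have h := (chkA (decide ((0 : Fin 10) ∈ U)) (decide ((1 : Fin 10) ∈ U)) (decide ((2 : Fin 10) ∈ U)) (decide ((3 : Fin 10) ∈ U)) (decide ((4 : Fin 10) ∈ U)) (decide ((5 : Fin 10) ∈ U)) (decide ((6 : Fin 10) ∈ U)) (decide ((7 : Fin 10) ∈ U)) (decide ((8 : Fin 10) ∈ U)) (decide ((9 : Fin 10) ∈ U))).1 ((hits_linkA U).1 hU)
    rw [sum_link] at hs
    exact mem_linkA U (h.2 hs)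
  kap := by
    intro U hU
    have hf : (((decide ((0 : Fin 10) ∈ U)) || (decide ((1 : Fin 10) ∈ U)) || (decide ((5 : Fin 10) ∈ U))) && ((decide ((1 : Fin 10) ∈ U)) || (decide ((2 : Fin 10) ∈ U)) || (decide ((6 : Fin 10) ∈ U))) && ((decide ((2 : Fin 10) ∈ U)) || (decide ((3 : Fin 10) ∈ U)) || (decide ((7 : Fin 10) ∈ U))) && ((decide ((3 : Fin 10) ∈ U)) || (decide ((4 : Fin 10) ∈ U)) || (decide ((8 : Fin 10) ∈ U))) && ((decide ((4 : Fin 10) ∈ U)) || (decide ((0 : Fin 10) ∈ U)) || (decide ((9 : Fin 10) ∈ U)))) = false := by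
      rw [← Bool.not_eq_true]
      exact fun h => hU ((hits_linkA U).2 h)
    have h := (chkA (decide ((0 : Fin 10) ∈ U)) (decide ((1 : Fin 10) ∈ U)) (decide ((2 : Fin 10) ∈ U)) (decide ((3 : Fin 10) ∈ U)) (decide ((4 : Fin 10) ∈ U)) (decide ((5 : Fin 10) ∈ U)) (decide ((6 : Fin 10) ∈ U)) (decide ((7 : Fin 10) ∈ U)) (decide ((8 : Fin 10) ∈ U)) (decide ((9 : Fin 10) ∈ U))).2 hf
    rw [← sum_link, ← reach_linkA] at h
    have h' : (520 : ℝ) ≤ 8 * ∑ v ∈ reach seedA U, (seedW v : ℝ) ^ 2 + 65 * ∑ v ∈ U, (seedW v : ℝ) := by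
      exact_mod_cast h
    push_cast
    linarith


theorem reach_linkB (U : Finset (Fin 10)) : ∑ v ∈ reach seedB U, seedW v ^ 2 = ((if (!((decide ((0 : Fin 10) ∈ U)) || (decide ((2 : Fin 10) ∈ U)) || (decide ((8 : Fin 10) ∈ U))) || !((decide ((3 : Fin 10) ∈ U)) || (decide ((0 : Fin 10) ∈ U)) || (decide ((6 : Fin 10) ∈ U)))) then 9 else 0) + (if (!((decide ((1 : Fin 10) ∈ U)) || (decide ((3 : Fin 10) ∈ U)) || (decide ((9 : Fin 10) ∈ U))) || !((decide ((4 : Fin 10) ∈ U)) || (decide ((1 : Fin 10) ∈ U)) || (decide ((7 : Fin 10) ∈ U)))) then 9 else 0) + (if (!((decide ((0 : Fin 10) ∈ U)) || (decide ((2 : Fin 10) ∈ U)) || (decide ((8 : Fin 10) ∈ U))) || !((decide ((2 : Fin 10) ∈ U)) || (decide ((4 : Fin 10) ∈ U)) || (decide ((5 : Fin 10) ∈ U)))) then 9 else 0) + (if (!((decide ((1 : Fin 10) ∈ U)) || (decide ((3 : Fin 10) ∈ U)) || (decide ((9 : Fin 10) ∈ U))) || !((decide ((3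 : Fin 10) ∈ U)) || (decide ((0 : Fin 10) ∈ U)) || (decide ((6 : Fin 10) ∈ U)))) then 9 else 0) + (if (!((decide ((2 : Fin 10) ∈ U)) || (decide ((4 : Fin 10) ∈ U)) || (decide ((5 : Fin 10) ∈ U))) || !((decide ((4 : Fin 10) ∈ U)) || (decide ((1 : Fin 10) ∈ U)) || (decide ((7 : Fin 10) ∈ U)))) then 9 else 0) + (if (!((decide ((2 : Fin 10) ∈ U)) || (decide ((4 : Fin 10) ∈ U)) || (decide ((5 : Fin 10) ∈ U)))) then 4 else 0) + (if (!((decide ((3 : Fin 10) ∈ U)) || (decide ((0 : Fin 10) ∈ U)) || (decide ((6 : Fin 10) ∈ U)))) then 4 else 0) + (if (!((decide ((4 : Fin 10) ∈ U)) || (decide ((1 : Fin 10) ∈ U)) || (decide ((7 : Fin 10) ∈ U)))) then 4 else 0) + (if (!((decide ((0 : Fin 10) ∈ U)) || (decide ((2 : Fin 10) ∈ U)) || (decide ((8 : Fin 10) ∈ U)))) then 4 else 0) + (if (!((decide ((1 : Fin 10) ∈ U)) || (decide ((3 : Fin 10) ∈ U)) || (decide ((9 : Fin 10) ∈ U)))) then 4 else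 0)) := by
  unfold reach
  rw [Finset.sum_filter]
  simp only [Fin.sum_univ_succ, seedB, seedW]
  simp [add_assoc, Finset.disjoint_insert_left, and_assoc]

theorem hits_linkB (U : Finset (Fin 10)) : Hits seedB U ↔ (((decide ((0 : Fin 10) ∈ U)) || (decide ((2 : Fin 10) ∈ U)) || (decide ((8 : Fin 10) ∈ U))) && ((decide ((1 : Fin 10) ∈ U)) || (decide ((3 : Fin 10) ∈ U)) || (decide ((9 : Fin 10) ∈ U))) && ((decide ((2 : Fin 10) ∈ U)) || (decide ((4 : Fin 10) ∈ U)) || (decide ((5 : Fin 10) ∈ U))) && ((decide ((3 : Fin 10) ∈ U)) || (decide ((0 : Fin 10) ∈ U)) || (decide ((6 : Fin 10) ∈ U))) && ((decide ((4 : Fin 10) ∈ U)) || (decide ((1 : Fin 10) ∈ U)) || (decide ((7 : Fin 10) ∈ U)))) = true := by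
  unfold Hits
  simp only [seedB, Finset.disjoint_insert_left, Finset.disjoint_singleton_left, Finset.mem_insert,
    Finset.mem_singleton, forall_eq_or_imp, forall_eq, not_and_or, not_not, Bool.or_eq_true,
    Bool.and_eq_true, decide_eq_true_eq, or_assoc, and_assoc]

theorem mem_linkB (U : Finset (Fin 10)) (h : (((decide ((0 : Fin 10) ∈ U)) && (decide ((1 : Fin 10) ∈ U)) && !(decide ((2 : Fin 10) ∈ U)) && !(decide ((3 : Fin 10) ∈ U)) && !(decide ((4 : Fin 10) ∈ U)) && (decide ((5 : Fin 10) ∈ U)) && !(decide ((6 : Fin 10) ∈ U)) && !(decide ((7 : Fin 10) ∈ U)) && !(decide ((8 : Fin 10) ∈ U)) && !(decide ((9 : Fin 10) ∈ U))) || (!(decide ((0 : Fin 10) ∈ U)) && (decide ((1 : Fin 10) ∈ U)) && (decide ((2 : Fin 10) ∈ U)) && !(decide ((3 : Fin 10) ∈ U)) && !(decide ((4 : Fin 10) ∈ U)) && !(decide ((5 : Fin 10) ∈ U)) && (decide ((6 : Fin 10) ∈ U)) && !(decide ((7 : Fin 10) ∈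 U)) && !(decide ((8 : Fin 10) ∈ U)) && !(decide ((9 : Fin 10) ∈ U))) || (!(decide ((0 : Fin 10) ∈ U)) && !(decide ((1 : Fin 10) ∈ U)) && (decide ((2 : Fin 10) ∈ U)) && (decide ((3 : Fin 10) ∈ U)) && !(decide ((4 : Fin 10) ∈ U)) && !(decide ((5 : Fin 10) ∈ U)) && !(decide ((6 : Fin 10) ∈ U)) && (decide ((7 : Fin 10) ∈ U)) && !(decide ((8 : Fin 10) ∈ U)) && !(decide ((9 : Fin 10) ∈ U))) || (!(decide ((0 : Fin 10) ∈ U)) && !(decide ((1 : Fin 10) ∈ U)) && !(decide ((2 : Fin 10) ∈ U)) && (decide ((3 : Fin 10) ∈ U)) && (decide ((4 : Fin 10) ∈ U)) && !(decide ((5 : Fin 10) ∈ U)) && !(decide ((6 : Fin 10) ∈ U)) && !(decide ((7 : Fin 10) ∈ U)) && (decide ((8 : Fin 10) ∈ U)) && !(decide ((9 : Fin 10) ∈ U))) || ((decide ((0 : Fin 10) ∈ U)) && !(decide ((1 : Fin 10) ∈ U)) && !(decide ((2 : Fin 10) ∈ U)) && !(decide ((3 : Fin 10) ∈ U)) && (decide ((4 : Fin 10) ∈ U)) && !(decide ((5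 : Fin 10) ∈ U)) && !(decide ((6 : Fin 10) ∈ U)) && !(decide ((7 : Fin 10) ∈ U)) && !(decide ((8 : Fin 10) ∈ U)) && (decide ((9 : Fin 10) ∈ U)))) = true) : U ∈ seedA := by
  simp only [Bool.or_eq_true, Bool.and_eq_true, Bool.not_eq_true', decide_eq_true_eq,
    decide_eq_false_iff_not] at h
  have key : ∀ b : Finset (Fin 10), (∀ v : Fin 10, v ∈ U ↔ v ∈ b) → b ∈ seedA → U ∈ seedA := by
    intro b h1 h2
    rw [Finset.ext h1]
    exact h2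
  rcases h with (((h | h) | h) | h) | h
  · refine key {0, 1, 5} (fun v => ?_) (by decide)
    obtain ⟨⟨⟨⟨⟨⟨⟨⟨⟨h0, h1⟩, h2⟩, h3⟩, h4⟩, h5⟩, h6⟩, h7⟩, h8⟩, h9⟩ := h
    fin_cases v <;> simp [h0, h1, h2, h3, h4, h5, h6, h7, h8, h9]
  · refine key {1, 2, 6} (fun v => ?_) (by decide)
    obtain ⟨⟨⟨⟨⟨⟨⟨⟨⟨h0, h1⟩, h2⟩, h3⟩, h4⟩, h5⟩, h6⟩, h7⟩, h8⟩, h9⟩ := h
    fin_cases v <;> simp [h0, h1, h2, h3, h4, h5, h6, h7, h8, h9]
  · refine key {2, 3, 7} (fun v => ?_) (by decide)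
    obtain ⟨⟨⟨⟨⟨⟨⟨⟨⟨h0, h1⟩, h2⟩, h3⟩, h4⟩, h5⟩, h6⟩, h7⟩, h8⟩, h9⟩ := h
    fin_cases v <;> simp [h0, h1, h2, h3, h4, h5, h6, h7, h8, h9]
  · refine key {3, 4, 8} (fun v => ?_) (by decide)
    obtain ⟨⟨⟨⟨⟨⟨⟨⟨⟨h0, h1⟩, h2⟩, h3⟩, h4⟩, h5⟩, h6⟩, h7⟩, h8⟩, h9⟩ := h
    fin_cases v <;> simp [h0, h1, h2, h3, h4, h5, h6, h7, h8, h9]
  · refine key {4, 0, 9} (fun v => ?_) (by decide)
    obtain ⟨⟨⟨⟨⟨⟨⟨⟨⟨h0, h1⟩, h2⟩, h3⟩, h4⟩, h5⟩, h6⟩, h7⟩, h8⟩, h9⟩ := h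
    fin_cases v <;> simp [h0, h1, h2, h3, h4, h5, h6, h7, h8, h9]

theorem seed_halfB : Half seedB seedA seedW 8 (65 / 64) where
  sum := by decide +kernel
  two := by decide +kernel
  cov := by decide +kernel
  hit := by
    intro U hU
    have h := (chkB (decide ((0 : Fin 10) ∈ U)) (decide ((1 : Fin 10) ∈ U)) (decide ((2 : Fin 10) ∈ U)) (decide ((3 : Fin 10) ∈ U)) (decide ((4 : Fin 10) ∈ U)) (decide ((5 : Fin 10) ∈ U)) (decide ((6 : Fin 10) ∈ U)) (decide ((7 : Fin 10) ∈ U)) (decide ((8 : Fin 10) ∈ U)) (decide ((9 : Fin 10) ∈ U))).1 ((hits_linkB U).1 hU)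
    rw [sum_link]
    exact h.1
  tight := by
    intro U hU hs
    have h := (chkB (decide ((0 : Fin 10) ∈ U)) (decide ((1 : Fin 10) ∈ U)) (decide ((2 : Fin 10) ∈ U)) (decide ((3 : Fin 10) ∈ U)) (decide ((4 : Fin 10) ∈ U)) (decide ((5 : Fin 10) ∈ U)) (decide ((6 : Fin 10) ∈ U)) (decide ((7 : Fin 10) ∈ U)) (decide ((8 : Fin 10) ∈ U)) (decide ((9 : Fin 10) ∈ U))).1 ((hits_linkB U).1 hU)
    rw [sum_link] at hs
    exact mem_linkB U (h.2 hs)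
  kap := by
    intro U hU
    have hf : (((decide ((0 : Fin 10) ∈ U)) || (decide ((2 : Fin 10) ∈ U)) || (decide ((8 : Fin 10) ∈ U))) && ((decide ((1 : Fin 10) ∈ U)) || (decide ((3 : Fin 10) ∈ U)) || (decide ((9 : Fin 10) ∈ U))) && ((decide ((2 : Fin 10) ∈ U)) || (decide ((4 : Fin 10) ∈ U)) || (decide ((5 : Fin 10) ∈ U))) && ((decide ((3 : Fin 10) ∈ U)) || (decide ((0 : Fin 10) ∈ U)) || (decide ((6 : Fin 10) ∈ U))) && ((decide ((4 : Fin 10) ∈ U)) || (decide ((1 : Fin 10) ∈ U)) || (decide ((7 : Fin 10) ∈ U)))) = false := by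
      rw [← Bool.not_eq_true]
      exact fun h => hU ((hits_linkB U).2 h)
    have h := (chkB (decide ((0 : Fin 10) ∈ U)) (decide ((1 : Fin 10) ∈ U)) (decide ((2 : Fin 10) ∈ U)) (decide ((3 : Fin 10) ∈ U)) (decide ((4 : Fin 10) ∈ U)) (decide ((5 : Fin 10) ∈ U)) (decide ((6 : Fin 10) ∈ U)) (decide ((7 : Fin 10) ∈ U)) (decide ((8 : Fin 10) ∈ U)) (decide ((9 : Fin 10) ∈ U))).2 hf
    rw [← sum_link, ← reach_linkB] at h
    have h' : (520 : ℝ) ≤ 8 * ∑ v ∈ reach seedB U, (seedW v : ℝ) ^ 2 + 65 * ∑ v ∈ U, (seedW v : ℝ) := by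
      exact_mod_cast h
    push_cast
    linarith


theorem exGood_seed : ExGood (65 / 64) := by
  refine ⟨Fin 10, inferInstance, inferInstance, inferInstance, seedA, seedB, seedW, 8, ?_⟩
  exact
    { wpos := by decide
      exact := by decide +kernel
      hA := seed_halfA
      hB := seed_halfB }

end Pool.Agent.Work.MP_2e8aec_co
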