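import Mathlib

/-!
# Biclique covers: definitions

Weighted exact pairs `(A, B)` of set families and the robustness constant `κ`; abstract charges;
abstract counterexamples.
-/

set_option autoImplicit false

namespace Pool.Agent.Work.MP_2e8aec_co

open Finset

section Base

variable {V : Type} [Fintype V] [DecidableEq V]

/-- The union of the members of `A` disjoint from `U`. -/
def reach (A : Finset (Finset V)) (U : Finset V) : Finset V :=
  univ.filter (fun v => ∃ a ∈ A, v ∈ a ∧ Disjoint a U)

/-- `U` meets every member of `A`. -/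
def Hits (A : Finset (Finset V)) (U : Finset V) : Prop := ∀ a ∈ A, ¬ Disjoint a U

/-- The one sided conditions on a weighted pair. -/
structure Half (A B : Finset (Finset V)) (w : V → ℕ) (r : ℕ) (κ : ℝ) : Prop where
  sum : ∀ a ∈ A, ∑ v ∈ a, w v = r
  two : ∀ a ∈ A, 2 ≤ a.card
  cov : ∀ v, ∃ a ∈ A, v ∈ a
  hit : ∀ U, Hits A U → r ≤ ∑ v ∈ U, w v
  tight : ∀ U, Hits A U → ∑ v ∈ U, w v = r → U ∈ B
  kap : ∀ U, ¬ Hits A U →
    κ * (r : ℝ) * ((r : ℝ) - ∑ v ∈ U, (w v : ℝ)) ≤ ∑ v ∈ reach A U, (w v : ℝ) ^ 2

/-- A good weighted pair with constant `κ`. -/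
structure Good (A B : Finset (Finset V)) (w : V → ℕ) (r : ℕ) (κ : ℝ) : Prop where
  wpos : ∀ v, 1 ≤ w v
  exact : ∀ a ∈ A, ∀ b ∈ B, ∃ v, a ∩ b = {v}
  hA : Half A B w r κ
  hB : Half B A w r κ

end Base

/-- Existence of a good pair with constant `κ` on some finite type. -/
def ExGood (κ : ℝ) : Prop :=
  ∃ (V : Type) (_ : Fintype V) (_ : DecidableEq V) (_ : Nonempty V)
    (A B : Finset (Finset V)) (w : V → ℕ) (r : ℕ), Good A B w r κ

section Charges

variable {V : Type} [Fintype V] [DecidableEq V]

/-- A slot: an element `v` of the base together with an index below `N * w v`. -/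
abbrev Slot (w : V → ℕ) (N : ℕ) : Type := (v : V) × Fin (N * w v)

/-- The slots over a set of base elements. -/
def slots (w : V → ℕ) (N : ℕ) (a : Finset V) : Finset (Slot w N) :=
  univ.filter (fun s => s.1 ∈ a)

/-- Abstract charges: `h s y` is the number of deleted cells on the element `y` of the class `s`,
`m s y` the number of rows with a deleted cell, `F s y` says that some row is completely
deleted. The fields `hA`, `hB` say that all objects are hit (in Hall form). -/
structure Charge (A B : Finset (Finset V)) (w : V → ℕ) (r N : ℕ) where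
  /-- number of deleted cells -/
  h : (s : Slot w N) → Fin (N * w s.1) → ℕ
  /-- number of rows with a deleted cell -/
  m : (s : Slot w N) → Fin (N * w s.1) → ℕ
  /-- some row is completely deleted -/
  F : (s : Slot w N) → Fin (N * w s.1) → Prop
  m_le : ∀ s y, m s y ≤ h s y
  F_R : ∀ s y, F s y → N * r ≤ h s y
  F_m : ∀ s y, F s y → N * r + m s y ≤ h s y + 1
  hA : ∀ a ∈ A, ∀ π : (s : Slot w N) → Fin (N * w s.1),
    ∃ S ⊆ slots w N a, ∃ t ≤ N * r, N * r + 1 ≤ S.card + t ∧
      ∀ s ∈ S, t ≤ h s (π s) ∧ (t = N * r → F s (π s))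
  hB : ∀ b ∈ B, ∀ χ : (v : V) → Fin (N * w v),
    ∃ S ⊆ slots w N b, ∃ t ≤ N * r, N * r + 1 ≤ S.card + t ∧
      ∀ s ∈ S, t ≤ m ⟨s.1, χ s.1⟩ s.2

namespace Charge

variable {A B : Finset (Finset V)} {w : V → ℕ} {r N : ℕ} (C : Charge A B w r N)

/-- Total charge of a class. -/
def X (s : Slot w N) : ℕ := ∑ y, C.h s y

/-- Total charge of a gate. -/
def G (v : V) : ℕ := ∑ x, C.X ⟨v, x⟩

/-- Total charge. -/
def total : ℕ := ∑ v, C.G v

/-- Minimal charge of an element of a class. -/
noncomputable def mu (s : Slot w N) : ℕ := sInf (Set.range (C.h s))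

/-- Some class of the gate of `v` has all charges at least `N * r - 4 * r`. -/
noncomputable def UA : Finset V :=
  open Classical in univ.filter (fun v => ∃ x, N * r ≤ C.mu ⟨v, x⟩ + 4 * r)

/-- A light class: no element of charge at least `N * r - 4 * r`, total charge below `2 * N * r`. -/
def Light (s : Slot w N) : Prop := (∀ y, C.h s y + 4 * r < N * r) ∧ C.X s < 2 * (N * r)

/-- The number of light classes in the gate of `v`. -/
noncomputable def ell (v : V) : ℕ :=
  open Classical in (univ.filter (fun x => C.Light ⟨v, x⟩)).card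

/-- The gates without light classes. -/
noncomputable def UB : Finset V :=
  open Classical in univ.filter (fun v => ∀ x, ¬ C.Light ⟨v, x⟩)

end Charge

end Charges

section Comp

variable {V₁ V₂ : Type} [Fintype V₁] [DecidableEq V₁] [Fintype V₂] [DecidableEq V₂]

/-- The fibre of a set of pairs over `v`. -/
def fib (S : Finset (V₁ × V₂)) (v : V₁) : Finset V₂ := univ.filter (fun u => (v, u) ∈ S)

/-- The projection of a set of pairs. -/
def bas (S : Finset (V₁ × V₂)) : Finset V₁ := univ.filter (fun v => (fib S v).Nonempty)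

/-- The composition of two set families: sets with projection in `A₁` and all nonempty fibres
in `A₂`. -/
def comp (A₁ : Finset (Finset V₁)) (A₂ : Finset (Finset V₂)) : Finset (Finset (V₁ × V₂)) :=
  univ.filter (fun S => bas S ∈ A₁ ∧ ∀ v ∈ bas S, fib S v ∈ A₂)

end Comp

section Lift

variable {V : Type} [Fintype V] [DecidableEq V]

/-- Elements of classes: pairs of a class (slot) and a member. -/
abbrev Elem (w : V → ℕ) (N : ℕ) : Type := (s : Slot w N) × Fin (N * w s.1)

/-- Objects of the first kind: a member `a` of `A`, a choice `π` of a member of every class, and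
for every row a bijection between the classes over `a` and the columns. -/
abbrev XObj (A : Finset (Finset V)) (w : V → ℕ) (r N : ℕ) : Type :=
  (a : {a : Finset V // a ∈ A}) ×
    (((s : Slot w N) → Fin (N * w s.1)) ×
      (Fin (N * r) → ({s : Slot w N // s ∈ slots w N a.1} ≃ Fin (N * r))))

/-- Objects of the second kind: a member `b` of `B`, a choice `χ` of a class over every point, and
a bijection between the slots over `b` and the rows. -/
abbrev YObj (B : Finset (Finset V)) (w : V → ℕ) (r N : ℕ) : Type :=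
  (b : {b : Finset V // b ∈ B}) ×
    (((v : V) → Fin (N * w v)) × ({s : Slot w N // s ∈ slots w N b.1} ≃ Fin (N * r)))

/-- The cell of an object of the first kind in the colour `(i, j)`. -/
def fX {A : Finset (Finset V)} {w : V → ℕ} {r N : ℕ} (x : XObj A w r N)
    (k : Fin (N * r) × Fin (N * r)) : Elem w N :=
  ⟨((x.2.2 k.1).symm k.2).1, x.2.1 ((x.2.2 k.1).symm k.2).1⟩

/-- The cell of an object of the second kind in the colour `(i, j)` (independent of `j`). -/
def gY {B : Finset (Finset V)} {w : V → ℕ} {r N : ℕ} (y : YObj B w r N)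
    (k : Fin (N * r) × Fin (N * r)) : Elem w N :=
  ⟨⟨(y.2.2.symm k.1).1.1, y.2.1 (y.2.2.symm k.1).1.1⟩, (y.2.2.symm k.1).1.2⟩

end Lift

/-- An abstract counterexample with colour set `K`. -/
def CounterEx (K : Type) [Fintype K] [DecidableEq K] : Prop :=
  ∃ (X Y Ω : Type) (_ : Fintype X) (_ : Fintype Y) (_ : DecidableEq Ω)
    (f : X → K → Ω) (g : Y → K → Ω),
    Nonempty X ∧ Nonempty Y ∧
    (∀ x y, ∃! i, f x i = g y i) ∧
    (∀ x i, ∃ y, g y i = f x i) ∧
    (∀ y i, ∃ x, f x i = g y i) ∧
    (∀ i j x x', (∀ z, f z i = f x i → f z j = f x' j) →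
      ∀ z, f z j = f x' j → f z i = f x i) ∧
    (∀ i j y y', (∀ z, g z i = g y i → g z j = g y' j) →
      ∀ z, g z j = g y' j → g z i = g y i) ∧
    (∀ H : Finset (K × Ω), H.card + 2 ≤ 2 * Fintype.card K →
      (∃ x, ∀ i, (i, f x i) ∉ H) ∨ (∃ y, ∀ i, (i, g y i) ∉ H))

end Pool.Agent.Work.MP_2e8aec_co
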