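import Mathlib
import Pool.Agent.Work.MP_2e8aec_co.Defs

set_option autoImplicit false

namespace Pool.Agent.Work.MP_2e8aec_co

open Finset

section Core

variable {V : Type} [Fintype V] [DecidableEq V] {A B : Finset (Finset V)} {w : V → ℕ} {r N : ℕ}
  {κ : ℝ}

namespace Charge

theorem mu_le (C : Charge A B w r N) (s : Slot w N) (y : Fin (N * w s.1)) : C.mu s ≤ C.h s y :=
  Nat.sInf_le ⟨y, rfl⟩

theorem h_le_X (C : Charge A B w r N) (s : Slot w N) (y : Fin (N * w s.1)) : C.h s y ≤ C.X s :=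
  Finset.single_le_sum (f := C.h s) (fun _ _ => Nat.zero_le _) (Finset.mem_univ y)

theorem mul_mu_le_X (C : Charge A B w r N) (s : Slot w N) : N * w s.1 * C.mu s ≤ C.X s := by
  have h := Finset.card_nsmul_le_sum (Finset.univ : Finset (Fin (N * w s.1))) (C.h s) (C.mu s)
    (fun y _ => C.mu_le s y)
  rw [Finset.card_univ, Fintype.card_fin, smul_eq_mul] at h
  exact h

theorem h_add_le_X (C : Charge A B w r N) (s : Slot w N) (y : Fin (N * w s.1)) :
    C.h s y + (N * w s.1 - 1) * C.mu s ≤ C.X s := by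
  have h := Finset.card_nsmul_le_sum ((Finset.univ : Finset (Fin (N * w s.1))).erase y)
    (C.h s) (C.mu s) (fun y _ => C.mu_le s y)
  rw [Finset.card_erase_of_mem (Finset.mem_univ y), Finset.card_univ, Fintype.card_fin,
    smul_eq_mul] at h
  have h2 := Finset.add_sum_erase (Finset.univ : Finset (Fin (N * w s.1))) (C.h s)
    (Finset.mem_univ y)
  have h3 : C.X s = ∑ y, C.h s y := rfl
  rw [h3, ← h2]
  exact Nat.add_le_add_left h _

theorem total_eq (C : Charge A B w r N) : C.total = ∑ s : Slot w N, C.X s := by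
  rw [Fintype.sum_sigma]
  rfl

theorem excess_sum (hG : Good A B w r κ) (hN : 8 ≤ N) (C : Charge A B w r N)
    (hT : C.total + 2 ≤ 2 * (N * r) ^ 2) (h1 : C.UA ∈ B) (h2 : C.UB ∈ A)
    (xs : (v : V) → Fin (N * w v)) (e : Slot w N → ℕ)
    (he : ∀ s : Slot w N, e s + ((if s.1 ∈ C.UA ∧ s.2 = xs s.1 then N * w s.1 * (N * r - 4 * r)
      else 0) + (if s.1 ∈ C.UB then (N * r - 4 * r) else 0)) ≤ C.X s +
        (if s.1 ∈ C.UB ∧ s.1 ∈ C.UA ∧ s.2 = xs s.1 then (N * r - 4 * r) else 0)) :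
    ∑ s, e s ≤ (8 * r + 1) * (N * r) := by
  set Q := N * r - 4 * r with hQ
  have S1 : ∑ s : Slot w N, (if s.1 ∈ C.UA ∧ s.2 = xs s.1 then N * w s.1 * Q else 0) =
      N * r * Q := by
    rw [Fintype.sum_sigma]
    have h3 : ∀ v : V, ∑ x : Fin (N * w v), (if v ∈ C.UA ∧ x = xs v then N * w v * Q else 0) =
        if v ∈ C.UA then N * w v * Q else 0 := by
      intro v
      by_cases hv : v ∈ C.UA
      · simp [hv]
      · simp [hv]
    rw [Finset.sum_congr rfl (fun v _ => h3 v), Finset.sum_ite_mem, Finset.univ_inter]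
    rw [← Finset.sum_mul, ← Finset.mul_sum, hG.hB.sum _ h1]
  have S2 : ∑ s : Slot w N, (if s.1 ∈ C.UB then Q else 0) = N * r * Q := by
    rw [Fintype.sum_sigma]
    have h3 : ∀ v : V, ∑ _x : Fin (N * w v), (if v ∈ C.UB then Q else 0) =
        if v ∈ C.UB then N * w v * Q else 0 := by
      intro v
      by_cases hv : v ∈ C.UB
      · simp [hv]
      · simp [hv]
    rw [Finset.sum_congr rfl (fun v _ => h3 v), Finset.sum_ite_mem, Finset.univ_inter]
    rw [← Finset.sum_mul, ← Finset.mul_sum, hG.hA.sum _ h2]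
  have S3 : ∑ s : Slot w N, (if s.1 ∈ C.UB ∧ s.1 ∈ C.UA ∧ s.2 = xs s.1 then Q else 0) = Q := by
    rw [Fintype.sum_sigma]
    have h3 : ∀ v : V, ∑ x : Fin (N * w v), (if v ∈ C.UB ∧ v ∈ C.UA ∧ x = xs v then Q else 0) =
        if v ∈ C.UB ∩ C.UA then Q else 0 := by
      intro v
      by_cases hv : v ∈ C.UA
      · by_cases hv2 : v ∈ C.UB
        · simp [hv, hv2]
        · simp [hv, hv2]
      · simp [hv]
    rw [Finset.sum_congr rfl (fun v _ => h3 v), Finset.sum_ite_mem, Finset.univ_inter]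
    obtain ⟨v0, hv0⟩ := hG.exact _ h2 _ h1
    rw [hv0, Finset.sum_singleton]
  have hsum := Finset.sum_le_sum (fun s (_ : s ∈ (Finset.univ : Finset (Slot w N))) => he s)
  rw [Finset.sum_add_distrib, Finset.sum_add_distrib, Finset.sum_add_distrib, S1, S2, S3,
    ← C.total_eq] at hsum
  have hQ2 : Q + 4 * r = N * r := by
    have : 8 * r ≤ N * r := Nat.mul_le_mul_right r hN
    omega
  have hT' : C.total + 2 ≤ 2 * (Q + 4 * r) ^ 2 := by rw [hQ2]; exact hT
  rw [← hQ2] at hsum ⊢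
  nlinarith

/-- Membership in `UA`. -/
theorem mem_UA (C : Charge A B w r N) (v : V) :
    v ∈ C.UA ↔ ∃ x, N * r ≤ C.mu ⟨v, x⟩ + 4 * r := by
  classical
  simp only [UA, Finset.mem_filter, Finset.mem_univ, true_and]

/-- Membership in `UB`. -/
theorem mem_UB (C : Charge A B w r N) (v : V) :
    v ∈ C.UB ↔ ∀ x, ¬ C.Light ⟨v, x⟩ := by
  classical
  simp only [UB, Finset.mem_filter, Finset.mem_univ, true_and]

theorem not_light (C : Charge A B w r N) (s : Slot w N) (hs : ¬ C.Light s) :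
    (∃ y, N * r ≤ C.h s y + 4 * r) ∨ 2 * (N * r) ≤ C.X s := by
  by_contra hcon
  push Not at hcon
  exact hs ⟨fun y => hcon.1 y, hcon.2⟩

theorem tight_base_le (C : Charge A B w r N)
    (xs : (v : V) → Fin (N * w v)) (hxs : ∀ v ∈ C.UA, N * r ≤ C.mu ⟨v, xs v⟩ + 4 * r)
    (s : Slot w N) :
    ((if s.1 ∈ C.UA ∧ s.2 = xs s.1 then N * w s.1 * (N * r - 4 * r)
      else 0) + (if s.1 ∈ C.UB then (N * r - 4 * r) else 0)) ≤ C.X s +
        (if s.1 ∈ C.UB ∧ s.1 ∈ C.UA ∧ s.2 = xs s.1 then (N * r - 4 * r) else 0) := by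
  obtain ⟨v, x⟩ := s
  by_cases hst : v ∈ C.UA ∧ x = xs v
  · obtain ⟨hv, rfl⟩ := hst
    have h1 : N * w v * (N * r - 4 * r) ≤ C.X ⟨v, xs v⟩ :=
      (Nat.mul_le_mul_left _ (by have := hxs v hv; omega)).trans (C.mul_mu_le_X ⟨v, xs v⟩)
    by_cases hvB : v ∈ C.UB
    · simp only [hv, hvB, and_self, if_true]
      omega
    · simp only [hv, hvB, and_self, if_true, if_false, false_and]
      omega
  · have h3 : ¬ (v ∈ C.UB ∧ v ∈ C.UA ∧ x = xs v) := fun h => hst h.2
    simp only [hst, h3, if_false, zero_add, add_zero]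
    by_cases hvB : v ∈ C.UB
    · simp only [hvB, if_true]
      rcases C.not_light ⟨v, x⟩ ((C.mem_UB v).mp hvB x) with ⟨y, hy⟩ | h
      · have := C.h_le_X ⟨v, x⟩ y
        omega
      · omega
    · simp only [hvB, if_false]
      omega

end Charge

/-- Sum of the minimal charges over all classes except the starred ones. -/
theorem Charge.tight_mu (hG : Good A B w r κ) (hN : 8 ≤ N) (C : Charge A B w r N)
    (hT : C.total + 2 ≤ 2 * (N * r) ^ 2) (h1 : C.UA ∈ B) (h2 : C.UB ∈ A)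
    (xs : (v : V) → Fin (N * w v)) (hxs : ∀ v ∈ C.UA, N * r ≤ C.mu ⟨v, xs v⟩ + 4 * r) :
    ∑ s ∈ univ.filter (fun s : Slot w N => ¬ (s.1 ∈ C.UA ∧ s.2 = xs s.1)), C.mu s
      ≤ 2 * (8 * r + 1) * r := by
  set e : Slot w N → ℕ := fun s => C.X s +
        (if s.1 ∈ C.UB ∧ s.1 ∈ C.UA ∧ s.2 = xs s.1 then (N * r - 4 * r) else 0) -
    ((if s.1 ∈ C.UA ∧ s.2 = xs s.1 then N * w s.1 * (N * r - 4 * r)
      else 0) + (if s.1 ∈ C.UB then (N * r - 4 * r) else 0)) with he
  have hes : ∑ s, e s ≤ (8 * r + 1) * (N * r) := by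
    refine C.excess_sum hG hN hT h1 h2 xs e (fun s => ?_)
    have := C.tight_base_le xs hxs s
    simp only [he]
    omega
  have hmu : ∀ s ∈ univ.filter (fun s : Slot w N => ¬ (s.1 ∈ C.UA ∧ s.2 = xs s.1)),
      N * C.mu s ≤ 2 * e s := by
    intro s hs
    have hst : ¬ (s.1 ∈ C.UA ∧ s.2 = xs s.1) := (Finset.mem_filter.mp hs).2
    have h3 : ¬ (s.1 ∈ C.UB ∧ s.1 ∈ C.UA ∧ s.2 = xs s.1) := fun h => hst h.2
    simp only [he, hst, h3, if_false, zero_add, add_zero]
    have hwN : N ≤ N * w s.1 := Nat.le_mul_of_pos_right N (hG.wpos s.1)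
    have hX := C.mul_mu_le_X s
    have hNmu : N * C.mu s ≤ N * w s.1 * C.mu s := Nat.mul_le_mul_right _ hwN
    by_cases hvB : s.1 ∈ C.UB
    · simp only [hvB, if_true]
      rcases C.not_light s ((C.mem_UB s.1).mp hvB s.2) with ⟨y, hy⟩ | h
      · have h4 := C.h_add_le_X s y
        have h5 : (N - 1) * C.mu s ≤ (N * w s.1 - 1) * C.mu s :=
          Nat.mul_le_mul_right _ (by omega)
        have h6 : N * C.mu s ≤ 2 * ((N - 1) * C.mu s) := by
          rw [← mul_assoc]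
          exact Nat.mul_le_mul_right _ (by omega)
        omega
      · omega
    · simp only [hvB, if_false]
      omega
  have hsum : ∑ s ∈ univ.filter (fun s : Slot w N => ¬ (s.1 ∈ C.UA ∧ s.2 = xs s.1)), N * C.mu s ≤
      2 * ((8 * r + 1) * (N * r)) := by
    refine (Finset.sum_le_sum hmu).trans ?_
    rw [← Finset.mul_sum]
    refine Nat.mul_le_mul_left 2 ((Finset.sum_le_sum_of_subset (Finset.subset_univ _)).trans hes)
  rw [← Finset.mul_sum] at hsum
  have hN0 : 0 < N := by omega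
  refine Nat.le_of_mul_le_mul_left (hsum.trans (le_of_eq ?_)) hN0
  ring

/-- Outside `UB` there is a class of small total charge. -/
theorem Charge.tight_small (hG : Good A B w r κ) (hN : 8 ≤ N) (C : Charge A B w r N)
    (hT : C.total + 2 ≤ 2 * (N * r) ^ 2) (h1 : C.UA ∈ B) (h2 : C.UB ∈ A) (v : V)
    (hv : v ∉ C.UB) : ∃ x, C.X ⟨v, x⟩ ≤ 2 * (8 * r + 1) * r := by
  by_contra hcon
  push Not at hcon
  -- starred classes
  have hxs0 : ∀ v : V, ∃ x : Fin (N * w v), v ∈ C.UA → N * r ≤ C.mu ⟨v, x⟩ + 4 * r := by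
    intro v
    by_cases hv : v ∈ C.UA
    · obtain ⟨x, hx⟩ := (C.mem_UA v).mp hv
      exact ⟨x, fun _ => hx⟩
    · exact ⟨⟨0, Nat.mul_pos (by omega) (hG.wpos v)⟩, fun h => absurd h hv⟩
  choose xs hxs using hxs0
  set e : Slot w N → ℕ := fun s => C.X s +
        (if s.1 ∈ C.UB ∧ s.1 ∈ C.UA ∧ s.2 = xs s.1 then (N * r - 4 * r) else 0) -
    ((if s.1 ∈ C.UA ∧ s.2 = xs s.1 then N * w s.1 * (N * r - 4 * r)
      else 0) + (if s.1 ∈ C.UB then (N * r - 4 * r) else 0)) with he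
  have hes : ∑ s, e s ≤ (8 * r + 1) * (N * r) := by
    refine C.excess_sum hG hN hT h1 h2 xs e (fun s => ?_)
    have := C.tight_base_le xs hxs s
    simp only [he]
    omega
  have h3 : ∑ x ∈ (univ : Finset (Fin (N * w v))).erase (xs v), e ⟨v, x⟩ ≤
      (8 * r + 1) * (N * r) := by
    refine le_trans ?_ hes
    rw [Fintype.sum_sigma]
    refine le_trans ?_ (Finset.single_le_sum (f := fun v => ∑ x, e ⟨v, x⟩)
      (fun _ _ => Nat.zero_le _) (Finset.mem_univ v))
    exact Finset.sum_le_sum_of_subset (Finset.subset_univ _)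
  have h4 : ∀ x ∈ (univ : Finset (Fin (N * w v))).erase (xs v),
      2 * (8 * r + 1) * r + 1 ≤ e ⟨v, x⟩ := by
    intro x hx
    have hne : x ≠ xs v := (Finset.mem_erase.mp hx).1
    have hst : ¬ (v ∈ C.UA ∧ x = xs v) := fun h => hne h.2
    have h5 := hcon x
    simp only [he, hv, hst, if_false, false_and, add_zero]
    omega
  have h5 := Finset.card_nsmul_le_sum _ _ _ h4
  rw [Finset.card_erase_of_mem (Finset.mem_univ _), Finset.card_univ, Fintype.card_fin,
    smul_eq_mul] at h5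
  have hwN : N ≤ N * w v := Nat.le_mul_of_pos_right N (hG.wpos v)
  have h6 : (N - 1) * (2 * (8 * r + 1) * r + 1) ≤ (8 * r + 1) * (N * r) :=
    (Nat.mul_le_mul_right _ (by omega)).trans (h5.trans h3)
  have h7 : N * (2 * (8 * r + 1) * r + 1) ≤ 2 * ((N - 1) * (2 * (8 * r + 1) * r + 1)) := by
    rw [← mul_assoc]
    exact Nat.mul_le_mul_right _ (by omega)
  have h8 : N * (2 * (8 * r + 1) * r + 1) = 2 * ((8 * r + 1) * (N * r)) + N := by ring
  omega

end Core

end Pool.Agent.Work.MP_2e8aec_co
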