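import Mathlib
import Pool.Agent.Work.MP_2e8aec_co.Defs
import Pool.Agent.Work.MP_2e8aec_co.TightE

set_option autoImplicit false

namespace Pool.Agent.Work.MP_2e8aec_co

open Finset

section Core

variable {V : Type} [Fintype V] [DecidableEq V] {A B : Finset (Finset V)} {w : V → ℕ} {r N : ℕ}
  {κ : ℝ}

theorem tight_card_slots (a : Finset V) : (slots w N a).card = N * ∑ v ∈ a, w v := by
  rw [slots, Finset.card_filter, Fintype.sum_sigma]
  have h3 : ∀ v : V, ∑ _x : Fin (N * w v), (if v ∈ a then 1 else 0) =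
      if v ∈ a then N * w v else 0 := by
    intro v
    by_cases hv : v ∈ a
    · simp [hv]
    · simp [hv]
  rw [Finset.sum_congr rfl (fun v _ => h3 v), Finset.sum_ite_mem, Finset.univ_inter,
    Finset.mul_sum]

theorem tight_r_pos (hG : Good A B w r κ) (u : V) : 1 ≤ r := by
  obtain ⟨a, ha, hua⟩ := hG.hA.cov u
  have h1 := hG.hA.sum a ha
  have h2 : w u ≤ ∑ v ∈ a, w v := Finset.single_le_sum (fun _ _ => Nat.zero_le _) hua
  have h3 := hG.wpos u
  omega

theorem tight_num (hN : 40 * r ^ 3 ≤ N) (hr : 1 ≤ r) :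
    8 ≤ N ∧ 2 * (2 * (8 * r + 1) * r) + 1 ≤ N * r ∧ (r + 1) * (2 * (8 * r + 1) * r) ≤ N := by
  have h1 : 1 ≤ r ^ 2 := Nat.one_le_pow _ _ hr
  have h2 : r ^ 2 ≤ r ^ 3 := Nat.pow_le_pow_right hr (by norm_num)
  have h3 : r ≤ r ^ 2 := Nat.le_self_pow (by norm_num) r
  have h4 : N ≤ N * r := Nat.le_mul_of_pos_right N hr
  refine ⟨by omega, ?_, ?_⟩
  · have : 2 * (2 * (8 * r + 1) * r) + 1 = 32 * r ^ 2 + 4 * r + 1 := by ring
    omega
  · have : (r + 1) * (2 * (8 * r + 1) * r) = 16 * r ^ 3 + 18 * r ^ 2 + 2 * r := by ring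
    omega

theorem Charge.exists_mu (C : Charge A B w r N) (s : Slot w N) : ∃ y, C.h s y = C.mu s :=
  Nat.sInf_mem (s := Set.range (C.h s)) ⟨_, ⟨s.2, rfl⟩⟩

/-- The starred classes over `UA` have a completely deleted row on every element. -/
theorem Charge.tight_F (hG : Good A B w r κ) (hN : 40 * r ^ 3 ≤ N) (C : Charge A B w r N)
    (hT : C.total + 2 ≤ 2 * (N * r) ^ 2) (h1 : C.UA ∈ B) (h2 : C.UB ∈ A)
    (xs : (v : V) → Fin (N * w v)) (hxs : ∀ v ∈ C.UA, N * r ≤ C.mu ⟨v, xs v⟩ + 4 * r)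
    (u : V) (hu : u ∈ C.UA) (y : Fin (N * w u)) : C.F ⟨u, xs u⟩ y := by
  obtain ⟨hN8, hK, -⟩ := tight_num hN (tight_r_pos hG u)
  have hmu := C.tight_mu hG hN8 hT h1 h2 xs hxs
  set K := 2 * (8 * r + 1) * r with hKdef
  set F := univ.filter (fun s : Slot w N => ¬ (s.1 ∈ C.UA ∧ s.2 = xs s.1)) with hF
  obtain ⟨a, ha, hua⟩ := hG.hA.cov u
  obtain ⟨v0, hv0⟩ := hG.exact a ha _ h1
  have hau : a ∩ C.UA = {u} := by
    have : u ∈ a ∩ C.UA := Finset.mem_inter.mpr ⟨hua, hu⟩
    rw [hv0, Finset.mem_singleton] at this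
    rw [hv0, this]
  choose am ham using C.exists_mu
  obtain ⟨S, hS, t, ht, hcard, hall⟩ := C.hA a ha (Function.update am ⟨u, xs u⟩ y)
  have hScard : S.card ≤ N * r := by
    refine (Finset.card_le_card hS).trans (le_of_eq ?_)
    rw [tight_card_slots, hG.hA.sum a ha]
  have ht1 : 1 ≤ t := by omega
  -- all elements other than the starred one are nonstarred and have `mu ≥ t`
  have hne : ∀ s ∈ S, s ≠ ⟨u, xs u⟩ → s ∈ F ∧ t ≤ C.mu s := by
    intro s hs hsne
    constructor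
    · rw [hF, Finset.mem_filter]
      refine ⟨Finset.mem_univ _, fun hst => hsne ?_⟩
      have h3 : s.1 ∈ a := (Finset.mem_filter.mp (hS hs)).2
      have h4 : s.1 ∈ a ∩ C.UA := Finset.mem_inter.mpr ⟨h3, hst.1⟩
      rw [hau, Finset.mem_singleton] at h4
      obtain ⟨v, x⟩ := s
      simp only at h4 hst
      subst h4
      rw [hst.2]
    · have h3 := (hall s hs).1
      rw [Function.update_of_ne hsne, ham] at h3
      exact h3
  have hsub : S ⊆ {⟨u, xs u⟩} := by
    by_contra hcon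
    obtain ⟨s, hs, hsne⟩ := Finset.not_subset.mp hcon
    rw [Finset.mem_singleton] at hsne
    obtain ⟨hsF, hst⟩ := hne s hs hsne
    have h3 : C.mu s ≤ K :=
      (Finset.single_le_sum (f := C.mu) (fun _ _ => Nat.zero_le _) hsF).trans hmu
    have h4 : (S.erase ⟨u, xs u⟩).card ≤ K := by
      have h5 : S.erase ⟨u, xs u⟩ ⊆ F := by
        intro s' hs'
        exact (hne s' (Finset.mem_erase.mp hs').2 (Finset.mem_erase.mp hs').1).1
      have h6 : ∀ s' ∈ S.erase ⟨u, xs u⟩, 1 ≤ C.mu s' := by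
        intro s' hs'
        exact ht1.trans (hne s' (Finset.mem_erase.mp hs').2 (Finset.mem_erase.mp hs').1).2
      have h7 := Finset.card_nsmul_le_sum _ _ _ h6
      rw [smul_eq_mul, mul_one] at h7
      exact h7.trans ((Finset.sum_le_sum_of_subset h5).trans hmu)
    have h5 : S.card ≤ (S.erase ⟨u, xs u⟩).card + 1 := by have := Finset.pred_card_le_card_erase (s := S) (a := (⟨u, xs u⟩ : Slot w N)); omega
    omega
  have hS1 : S.card ≤ 1 := by
    refine (Finset.card_le_card hsub).trans (le_of_eq (Finset.card_singleton _))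
  have htR : t = N * r := by omega
  have hSne : S.Nonempty := by
    rw [← Finset.card_pos]
    omega
  obtain ⟨s, hs⟩ := hSne
  have hs' : s = ⟨u, xs u⟩ := Finset.mem_singleton.mp (hsub hs)
  subst hs'
  have h3 := (hall _ hs).2 htR
  rw [Function.update_self] at h3
  exact h3

end Core

end Pool.Agent.Work.MP_2e8aec_co
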