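import Mathlib
import Pool.Agent.Work.MP_2e8aec_co.Defs
import Pool.Agent.Work.MP_2e8aec_co.TightE
import Pool.Agent.Work.MP_2e8aec_co.TightA

set_option autoImplicit false

namespace Pool.Agent.Work.MP_2e8aec_co

open Finset

section Core

variable {V : Type} [Fintype V] [DecidableEq V] {A B : Finset (Finset V)} {w : V → ℕ} {r N : ℕ}
  {κ : ℝ}

/-- In every class over `UB` many elements have many rows with a deleted cell. -/
theorem Charge.tight_S (hG : Good A B w r κ) (hN : 40 * r ^ 3 ≤ N) (C : Charge A B w r N)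
    (hT : C.total + 2 ≤ 2 * (N * r) ^ 2) (h1 : C.UA ∈ B) (h2 : C.UB ∈ A)
    (u : V) (hu : u ∈ C.UB) (c : Fin (N * w u)) :
    ∃ S : Finset (Fin (N * w u)), ∃ t : ℕ, 1 ≤ t ∧ 1 ≤ S.card ∧ S.card + 1 ≤ N * r ∧
      N * r + 1 ≤ S.card + t ∧ t ≤ N * r ∧ ∀ y ∈ S, t ≤ C.m ⟨u, c⟩ y := by
  obtain ⟨hN8, -, hK⟩ := tight_num hN (tight_r_pos hG u)
  have hsmall := C.tight_small hG hN8 hT h1 h2
  set K := 2 * (8 * r + 1) * r with hKdef
  obtain ⟨b, hb, hub⟩ := hG.hB.cov u
  obtain ⟨v0, hv0⟩ := hG.exact _ h2 b hb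
  have hbu : C.UB ∩ b = {u} := by
    have : u ∈ C.UB ∩ b := Finset.mem_inter.mpr ⟨hu, hub⟩
    rw [hv0, Finset.mem_singleton] at this
    rw [hv0, this]
  have hχ0 : ∀ v : V, ∃ x : Fin (N * w v), v ∉ C.UB → C.X ⟨v, x⟩ ≤ K := by
    intro v
    by_cases hv : v ∈ C.UB
    · exact ⟨⟨0, Nat.mul_pos (by omega) (hG.wpos v)⟩, fun h => absurd hv h⟩
    · obtain ⟨x, hx⟩ := hsmall v hv
      exact ⟨x, fun _ => hx⟩
  choose χ0 hχ0' using hχ0
  set χ : (v : V) → Fin (N * w v) := Function.update χ0 u c with hχdef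
  have hχu : χ u = c := by rw [hχdef, Function.update_self]
  have hχ : ∀ v, v ∈ b → v ≠ u → C.X ⟨v, χ v⟩ ≤ K := by
    intro v hv hvu
    have h3 : v ∉ C.UB := by
      intro h4
      have h5 : v ∈ C.UB ∩ b := Finset.mem_inter.mpr ⟨h4, hv⟩
      rw [hbu, Finset.mem_singleton] at h5
      exact hvu h5
    rw [hχdef, Function.update_of_ne hvu]
    exact hχ0' v h3
  obtain ⟨S, hS, t, ht, hcard, hall⟩ := C.hB b hb χ
  have hScard : S.card ≤ N * r := by
    refine (Finset.card_le_card hS).trans (le_of_eq ?_)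
    rw [tight_card_slots, hG.hB.sum b hb]
  have ht1 : 1 ≤ t := by omega
  -- weight of `u`
  have hwu : w u + 1 ≤ r := by
    have h3 := hG.hB.sum b hb
    have h4 := Finset.add_sum_erase b w hub
    have h5 : 1 ≤ ∑ v ∈ b.erase u, w v := by
      have h6 : (b.erase u).Nonempty := by
        rw [← Finset.card_pos, Finset.card_erase_of_mem hub]
        have := hG.hB.two b hb
        omega
      obtain ⟨v, hv⟩ := h6
      exact (hG.wpos v).trans (Finset.single_le_sum (fun _ _ => Nat.zero_le _) hv)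
    omega
  have hNwu : N * w u + N ≤ N * r := by
    calc N * w u + N = N * (w u + 1) := by ring
      _ ≤ N * r := Nat.mul_le_mul_left N hwu
  -- slots over `u`
  set T : Finset (Fin (N * w u)) := univ.filter (fun y => (⟨u, y⟩ : Slot w N) ∈ S) with hTdef
  have hTcard : T.card ≤ N * w u := by
    refine (Finset.card_le_univ _).trans (le_of_eq (Fintype.card_fin _))
  -- slots not over `u`
  set S2 := S.filter (fun s => s.1 ≠ u) with hS2
  have hsplit : S.card = T.card + S2.card := by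
    have h3 : S.card = (S.filter (fun s => s.1 = u)).card + S2.card := by
      rw [hS2, Finset.card_filter_add_card_filter_not]
    have h4 : (S.filter (fun s => s.1 = u)).card = T.card := by
      symm
      refine Finset.card_bij (fun y _ => (⟨u, y⟩ : Slot w N)) ?_ ?_ ?_
      · intro y hy
        rw [Finset.mem_filter]
        exact ⟨(Finset.mem_filter.mp hy).2, rfl⟩
      · intro y1 _ y2 _ h
        simpa using h
      · rintro ⟨v, y⟩ hs
        rw [Finset.mem_filter] at hs
        obtain ⟨hs1, hs2⟩ := hs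
        simp only at hs2
        subst hs2
        exact ⟨y, Finset.mem_filter.mpr ⟨Finset.mem_univ _, hs1⟩, rfl⟩
    omega
  have hS2e : S2 = ∅ := by
    by_contra hcon
    obtain ⟨s, hs⟩ := Finset.nonempty_iff_ne_empty.mpr hcon
    have hsb : ∀ s ∈ S2, s.1 ∈ b ∧ s.1 ≠ u := fun s hs =>
      ⟨(Finset.mem_filter.mp (hS (Finset.mem_filter.mp hs).1)).2, (Finset.mem_filter.mp hs).2⟩
    have htK : t ≤ K :=
      (hall s (Finset.mem_filter.mp hs).1).trans ((C.m_le _ _).trans ((C.h_le_X _ _).trans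
        (hχ s.1 (hsb s hs).1 (hsb s hs).2)))
    have hS2card : S2.card ≤ r * K := by
      have h3 : ∀ s ∈ S2, 1 ≤ C.h ⟨s.1, χ s.1⟩ s.2 := fun s hs =>
        ht1.trans ((hall s (Finset.mem_filter.mp hs).1).trans (C.m_le _ _))
      have h4 := Finset.card_nsmul_le_sum _ _ _ h3
      rw [smul_eq_mul, mul_one] at h4
      refine h4.trans ?_
      have h5 : ∑ s ∈ S2, C.h ⟨s.1, χ s.1⟩ s.2 ≤
          ∑ s : Slot w N, if s.1 ∈ b.erase u then C.h ⟨s.1, χ s.1⟩ s.2 else 0 := by
        rw [← Finset.sum_filter]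
        refine Finset.sum_le_sum_of_subset ?_
        intro s hs
        exact Finset.mem_filter.mpr ⟨Finset.mem_univ _,
          Finset.mem_erase.mpr ⟨(hsb s hs).2, (hsb s hs).1⟩⟩
      refine h5.trans ?_
      rw [Fintype.sum_sigma]
      have h6 : ∀ v : V, ∑ y : Fin (N * w v), (if v ∈ b.erase u then C.h ⟨v, χ v⟩ y else 0) =
          if v ∈ b.erase u then C.X ⟨v, χ v⟩ else 0 := by
        intro v
        by_cases hv : v ∈ b.erase u
        · simp only [hv, if_true]; rfl
        · simp only [hv, if_false, Finset.sum_const_zero]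
      rw [Finset.sum_congr rfl (fun v _ => h6 v), Finset.sum_ite_mem, Finset.univ_inter]
      have h7 := Finset.sum_le_card_nsmul (b.erase u) (fun v => C.X ⟨v, χ v⟩) K (fun v hv =>
        hχ v (Finset.mem_erase.mp hv).2 (Finset.mem_erase.mp hv).1)
      refine h7.trans ?_
      rw [smul_eq_mul]
      refine Nat.mul_le_mul_right K ?_
      have h8 := Finset.card_nsmul_le_sum b w 1 (fun v _ => hG.wpos v)
      rw [smul_eq_mul, mul_one, hG.hB.sum b hb] at h8
      exact (Finset.card_le_card (Finset.erase_subset _ _)).trans h8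
    have h9 : (r + 1) * K = r * K + K := by ring
    omega
  rw [hS2e, Finset.card_empty, add_zero] at hsplit
  refine ⟨T, t, ht1, by omega, by omega, by omega, ht, ?_⟩
  intro y hy
  have h3 := hall ⟨u, y⟩ (Finset.mem_filter.mp hy).2
  have h4 : ∀ c' : Fin (N * w u), c' = c → C.m ⟨u, c'⟩ y = C.m ⟨u, c⟩ y := by
    rintro _ rfl
    rfl
  rw [← h4 (χ u) hχu]
  exact h3

end Core

end Pool.Agent.Work.MP_2e8aec_co
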