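import Pool.Agent.Work.MP_2e8aec_co.Defs
import Pool.Agent.Work.MP_2e8aec_co.TightA
import Pool.Agent.Work.MP_2e8aec_co.TightB

set_option autoImplicit false

namespace Pool.Agent.Work.MP_2e8aec_co

open Finset

variable {V : Type} [Fintype V] [DecidableEq V] {A B : Finset (Finset V)} {w : V → ℕ} {r N : ℕ}
  {κ : ℝ}

/-- The final count in the tight case. -/
theorem tight_case (hG : Good A B w r κ) (hN : 40 * r ^ 3 ≤ N) (C : Charge A B w r N)
    (h1 : C.UA ∈ B) (h2 : C.UB ∈ A) : 2 * (N * r) ^ 2 ≤ C.total + 1 := by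
  by_contra hcon
  have hT : C.total + 2 ≤ 2 * (N * r) ^ 2 := by omega
  -- positivity
  obtain ⟨us, hus⟩ := hG.exact _ h2 _ h1
  have husB : us ∈ C.UB := by
    have : us ∈ C.UB ∩ C.UA := by rw [hus]; exact mem_singleton_self _
    exact (mem_inter.1 this).1
  have husA : us ∈ C.UA := by
    have : us ∈ C.UB ∩ C.UA := by rw [hus]; exact mem_singleton_self _
    exact (mem_inter.1 this).2
  have hr : 1 ≤ r := by
    have h3 := hG.hB.sum _ h1
    have h4 : w us ≤ ∑ v ∈ C.UA, w v := Finset.single_le_sum (fun _ _ => Nat.zero_le _) husA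
    have h5 := hG.wpos us
    omega
  have hN1 : 1 ≤ N := by
    have : 1 ≤ r ^ 3 := Nat.one_le_pow _ _ hr
    omega
  have hpos : ∀ v, 0 < N * w v := fun v => Nat.mul_pos hN1 (hG.wpos v)
  -- the starred classes
  have hex : ∀ v, ∃ x : Fin (N * w v), v ∈ C.UA → N * r ≤ C.mu ⟨v, x⟩ + 4 * r := by
    intro v
    by_cases hv : v ∈ C.UA
    · have hv' := hv
      unfold Charge.UA at hv'
      simp only [mem_filter, mem_univ, true_and] at hv'
      obtain ⟨x, hx⟩ := hv'
      exact ⟨x, fun _ => hx⟩
    · exact ⟨⟨0, hpos v⟩, fun h => absurd h hv⟩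
  choose xs hxs using hex
  have hF : ∀ u ∈ C.UA, ∀ y, C.F ⟨u, xs u⟩ y := fun u hu y =>
    C.tight_F hG hN hT h1 h2 xs hxs u hu y
  -- cost of classes over UB
  have hXB : ∀ u ∈ C.UB, ∀ c, N * r ≤ C.X ⟨u, c⟩ := by
    intro u hu c
    obtain ⟨S, t, ht, hS, hS1, hSt, htR, hm⟩ := C.tight_S hG hN hT h1 h2 u hu c
    have e1 : S.card * t ≤ C.X ⟨u, c⟩ := by
      calc S.card * t = ∑ y ∈ S, t := by simp
        _ ≤ ∑ y ∈ S, C.h ⟨u, c⟩ y := sum_le_sum fun y hy => (hm y hy).trans (C.m_le _ _)
        _ ≤ C.X ⟨u, c⟩ := by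
          unfold Charge.X
          exact sum_le_sum_of_subset (subset_univ _)
    obtain ⟨s', hs'⟩ := Nat.exists_eq_add_of_le hS
    obtain ⟨t', ht'⟩ := Nat.exists_eq_add_of_le ht
    rw [hs', ht'] at e1
    have : S.card + t ≤ (1 + s') * (1 + t') + 1 := by rw [hs', ht']; nlinarith
    omega
  -- cost of the starred classes
  have hXA : ∀ u ∈ C.UA, (N * w u) * (N * r) ≤ C.X ⟨u, xs u⟩ := by
    intro u hu
    calc (N * w u) * (N * r) = ∑ y : Fin (N * w u), N * r := by simp
      _ ≤ ∑ y : Fin (N * w u), C.h ⟨u, xs u⟩ y := sum_le_sum fun y _ => C.F_R _ _ (hF u hu y)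
      _ = C.X ⟨u, xs u⟩ := rfl
  -- cost of the doubly starred class
  have hXs : (N * w us) * (N * r) + N * r ≤ C.X ⟨us, xs us⟩ + 1 := by
    obtain ⟨S, t, ht, hS, hS1, hSt, htR, hm⟩ := C.tight_S hG hN hT h1 h2 us husB (xs us)
    have e1 : (N * w us) * (N * r) + S.card * (t - 1) ≤ C.X ⟨us, xs us⟩ := by
      calc (N * w us) * (N * r) + S.card * (t - 1)
          = ∑ y : Fin (N * w us), (N * r + if y ∈ S then (t - 1) else 0) := by
            rw [sum_add_distrib]
            simp
        _ ≤ ∑ y : Fin (N * w us), C.h ⟨us, xs us⟩ y := by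
            refine sum_le_sum fun y _ => ?_
            have f1 := C.F_R _ _ (hF us husA y)
            have f2 := C.F_m _ _ (hF us husA y)
            split_ifs with hy
            · have f3 := hm y hy
              omega
            · omega
        _ = C.X ⟨us, xs us⟩ := rfl
    obtain ⟨s', hs'⟩ := Nat.exists_eq_add_of_le hS
    have ht2 : 2 ≤ t := by omega
    obtain ⟨t', ht'⟩ := Nat.exists_eq_add_of_le ht2
    have ht1 : t - 1 = 1 + t' := by omega
    rw [ht1, hs'] at e1
    have : N * r ≤ (1 + s') * (1 + t') + 1 := by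
      have : N * r + 1 ≤ (1 + s') + (2 + t') := by omega
      nlinarith
    omega
  -- the gates
  have hG1 : ∀ v, (if v ∈ C.UA then (N * w v) * (N * r) else 0) +
      (if v ∈ C.UB then (N * w v) * (N * r) else 0) ≤ C.G v + (if v = us then 1 else 0) := by
    intro v
    by_cases hA : v ∈ C.UA
    · by_cases hB : v ∈ C.UB
      · have hv : v = us := by
          have : v ∈ C.UB ∩ C.UA := mem_inter.2 ⟨hB, hA⟩
          rw [hus] at this
          exact mem_singleton.1 this
        subst hv
        simp only [hA, hB, if_true]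
        have e1 : C.G v = C.X ⟨v, xs v⟩ + ∑ x ∈ univ.erase (xs v), C.X ⟨v, x⟩ := by
          unfold Charge.G
          exact (add_sum_erase _ (fun x => C.X ⟨v, x⟩) (mem_univ (xs v))).symm
        have e2 : (N * w v - 1) * (N * r) ≤ ∑ x ∈ univ.erase (xs v), C.X ⟨v, x⟩ := by
          calc (N * w v - 1) * (N * r) = ∑ x ∈ (univ : Finset (Fin (N * w v))).erase (xs v),
                (N * r) := by
                rw [sum_const, card_erase_of_mem (mem_univ _), card_univ, Fintype.card_fin]
                simp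
            _ ≤ _ := sum_le_sum fun x _ => hXB v hB x
        have e3 : (N * w v - 1) * (N * r) + N * r = (N * w v) * (N * r) := by
          have := hpos v
          obtain ⟨q, hq⟩ := Nat.exists_eq_add_of_le (show 1 ≤ N * w v from this)
          rw [hq]
          have : 1 + q - 1 = q := by omega
          rw [this]; ring
        omega
      · simp only [hA, hB, if_true, if_false]
        have e1 : C.X ⟨v, xs v⟩ ≤ C.G v := by
          unfold Charge.G
          exact single_le_sum (f := fun x => C.X ⟨v, x⟩) (fun _ _ => Nat.zero_le _)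
            (mem_univ (xs v))
        have e2 := hXA v hA
        omega
    · by_cases hB : v ∈ C.UB
      · simp only [hA, hB, if_true, if_false]
        have e1 : (N * w v) * (N * r) ≤ C.G v := by
          calc (N * w v) * (N * r) = ∑ x : Fin (N * w v), N * r := by simp
            _ ≤ ∑ x : Fin (N * w v), C.X ⟨v, x⟩ := sum_le_sum fun x _ => hXB v hB x
            _ = C.G v := rfl
        omega
      · simp only [hA, hB, if_false]
        omega
  have hsum := sum_le_sum fun v (_ : v ∈ (univ : Finset V)) => hG1 v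
  rw [sum_add_distrib, sum_add_distrib] at hsum
  simp only [sum_ite_mem, univ_inter, sum_ite_eq', mem_univ, if_true] at hsum
  have hs1 : ∑ v ∈ C.UA, (N * w v) * (N * r) = (N * r) ^ 2 := by
    rw [← sum_mul, ← mul_sum, hG.hB.sum _ h1, sq]
  have hs2 : ∑ v ∈ C.UB, (N * w v) * (N * r) = (N * r) ^ 2 := by
    rw [← sum_mul, ← mul_sum, hG.hA.sum _ h2, sq]
  rw [hs1, hs2] at hsum
  have ht : C.total = ∑ v, C.G v := rfl
  omega

end Pool.Agent.Work.MP_2e8aec_co
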