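import Pool.Agent.Work.MP_2e8aec_co.Defs
import Pool.Agent.Work.MP_2e8aec_co.Seed
import Pool.Agent.Work.MP_2e8aec_co.Comp
import Pool.Agent.Work.MP_2e8aec_co.CompEx
import Pool.Agent.Work.MP_2e8aec_co.Hall
import Pool.Agent.Work.MP_2e8aec_co.LiftA
import Pool.Agent.Work.MP_2e8aec_co.LiftB
import Pool.Agent.Work.MP_2e8aec_co.LiftC
import Pool.Agent.Work.MP_2e8aec_co.NonTight
import Pool.Agent.Work.MP_2e8aec_co.TightF
import Pool.Agent.Work.MP_2e8aec_co.FinalA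
import Pool.Agent.Work.MP_2e8aec_co.FinalB

/-!
# Biclique covers: assembly
-/

set_option autoImplicit false

namespace Pool.Agent.Work.MP_2e8aec_co

open Finset

theorem exGood_pow (n : ℕ) : ExGood ((65 / 64) ^ (n + 1)) := by
  induction n with
  | zero => simpa using exGood_seed
  | succ n ih =>
    rw [pow_succ]
    exact exGood_comp (one_le_pow₀ (by norm_num)) (by norm_num) ih exGood_seed

theorem exGood_big : ∃ κ : ℝ, 2 < κ ∧ ExGood κ :=
  ⟨(65 / 64) ^ (44 + 1), by norm_num, exGood_pow 44⟩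


section Lift

variable {V : Type} [Fintype V] [DecidableEq V] {A B : Finset (Finset V)} {w : V → ℕ} {r N : ℕ}
  {κ : ℝ}

theorem counterEx_of_core [Nonempty V] (hG : Good A B w r κ) (hN : 1 ≤ N) (hr : 3 ≤ N * r)
    (hcore : ∀ C : Charge A B w r N, 2 * (N * r) ^ 2 ≤ C.total + 1) :
    CounterEx (Fin (N * r) × Fin (N * r)) := by
  classical
  refine ⟨XObj A w r N, YObj B w r N, Elem w N, inferInstance, inferInstance, inferInstance,
    fX, gY, nonempty_XObj hG hN, nonempty_YObj hG hN, fX_gY_exact hG, fX_span hG hN,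
    gY_span hG hN, fX_anti hN hr, gY_anti hN hr, ?_⟩
  intro H hH
  by_contra hcon
  push Not at hcon
  obtain ⟨hX, hY⟩ := hcon
  obtain ⟨C, hC⟩ := exists_charge hG H hX hY
  have h1 := hcore C
  have h2 : Fintype.card (Fin (N * r) × Fin (N * r)) = (N * r) ^ 2 := by
    simp [Fintype.card_prod, sq]
  omega

end Lift

section Core

variable {V : Type} [Fintype V] [DecidableEq V] {A B : Finset (Finset V)} {w : V → ℕ} {r N : ℕ}
  {κ : ℝ}

theorem core [Nonempty V] (hG : Good A B w r κ) (hκ : 2 < κ) :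
    ∃ N₀ : ℕ, ∀ N ≥ N₀, ∀ C : Charge A B w r N, 2 * (N * r) ^ 2 ≤ C.total + 1 := by
  obtain ⟨N₀, h₀⟩ := nontight hG hκ
  refine ⟨max N₀ (40 * r ^ 3), fun N hN C => ?_⟩
  by_cases h : C.UA ∈ B ∧ C.UB ∈ A
  · exact tight_case hG (le_trans (le_max_right _ _) hN) C h.1 h.2
  · exact h₀ N (le_trans (le_max_left _ _) hN) C h

end Core

theorem exists_counterEx : ∃ R : ℕ, 2 ≤ R ∧ CounterEx (Fin R × Fin R) := by
  obtain ⟨κ, hκ, V, i1, i2, i3, A, B, w, r, hG⟩ := exGood_big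
  obtain ⟨N₀, h₀⟩ := core hG hκ
  have hr : 1 ≤ r := by
    obtain ⟨v⟩ := i3
    obtain ⟨a, ha, hva⟩ := hG.hA.cov v
    have h1 := hG.hA.sum a ha
    have h2 : w v ≤ ∑ v ∈ a, w v := Finset.single_le_sum (fun _ _ => Nat.zero_le _) hva
    have h3 := hG.wpos v
    omega
  have hN : 3 ≤ max N₀ 3 := le_max_right _ _
  have hNr : 3 ≤ max N₀ 3 * r := le_trans hN (Nat.le_mul_of_pos_right _ hr)
  exact ⟨max N₀ 3 * r, by omega, counterEx_of_core hG (by omega) hNr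
    (h₀ _ (le_max_left _ _))⟩

theorem target_A :
    ¬ (∀ k : ℕ, 2 ≤ k →
    (∀ m n : ℕ, 1 ≤ m → 1 ≤ n → ∀ c : Fin m → Fin n → Fin k,
      ∃ S : Finset (Fin k × (Fin m ⊕ Fin n)), S.card ≤ 2 * k - 2 ∧
        ∀ w : Fin m ⊕ Fin n, ∃ p ∈ S,
          (SimpleGraph.fromRel (fun x y : Fin m ⊕ Fin n =>
            ∃ a b, x = Sum.inl a ∧ y = Sum.inr b ∧ c a b = p.1)).Reachable p.2 w) ∧
    (∃ m n : ℕ, 1 ≤ m ∧ 1 ≤ n ∧ ∃ c : Fin m → Fin n → Fin k,
      ∀ S : Finset (Fin k × (Fin m ⊕ Fin n)),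
        (∀ w : Fin m ⊕ Fin n, ∃ p ∈ S,
          (SimpleGraph.fromRel (fun x y : Fin m ⊕ Fin n =>
            ∃ a b, x = Sum.inl a ∧ y = Sum.inr b ∧ c a b = p.1)).Reachable p.2 w) →
        2 * k - 2 ≤ S.card)) := by
  intro hall
  obtain ⟨R, hR, hC⟩ := exists_counterEx
  have hK : 2 ≤ Fintype.card (Fin R × Fin R) := by
    simp only [Fintype.card_prod, Fintype.card_fin]; nlinarith
  obtain ⟨k, m, n, hk, hm, hn, c, hc⟩ := finalA hK hC
  obtain ⟨S, hS, hcov⟩ := (hall k hk).1 m n hm hn c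
  exact absurd (hc S hcov) (by omega)

theorem target_B :
    ¬ (∀ (m n r : ℕ), 0 < m → 0 < n → 2 ≤ r → ∀ c : Fin m → Fin n → Fin r,
      (∀ x x' : Fin m, ∀ y y' : Fin n,
          c x y = c x' y → c x' y' = c x' y → c x y' = c x y) →
      (∀ (x : Fin m) (i : Fin r), ∃ y : Fin n, c x y = i) →
      (∀ (y : Fin n) (i : Fin r), ∃ x : Fin m, c x y = i) →
      (∀ (i j : Fin r) (y y' : Fin n),
          ¬ (({x : Fin m | c x y = i} : Set (Fin m)) ⊂ {x : Fin m | c x y' = j})) →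
      (∀ (i j : Fin r) (x x' : Fin m),
          ¬ (({y : Fin n | c x y = i} : Set (Fin n)) ⊂ {y : Fin n | c x' y = j})) →
      ∃ S : Finset (Fin r × Fin n), S.card ≤ 2 * r - 2 ∧
        (∀ x : Fin m, ∃ p ∈ S, c x p.2 = p.1) ∧
        (∀ y : Fin n, ∃ p ∈ S, ∃ x : Fin m, c x p.2 = p.1 ∧ c x y = p.1)) := by
  intro hall
  obtain ⟨R, hR, hC⟩ := exists_counterEx
  have hK : 2 ≤ Fintype.card (Fin R × Fin R) := by
    simp only [Fintype.card_prod, Fintype.card_fin]; nlinarith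
  obtain ⟨m, n, r, hm, hn, hr, c, h1, h2, h3, h4, h5, h6⟩ := finalB hK hC
  obtain ⟨S, hS, hc1, hc2⟩ := hall m n r hm hn hr c h1 h2 h3 h4 h5
  exact h6 S hS ⟨hc1, hc2⟩

end Pool.Agent.Work.MP_2e8aec_co
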