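import Pool.Agent.Work.MP_2e8aec_co.Defs

/-!
# Biclique covers: few empty slots
-/

set_option autoImplicit false

namespace Pool.Agent.Work.MP_2e8aec_co

open Finset

section Core

variable {V : Type} [Fintype V] [DecidableEq V] {A B : Finset (Finset V)} {w : V → ℕ} {r N : ℕ}
  {κ : ℝ}

/-- Number of slots over a set (local copy). -/
theorem card_slots_core (a : Finset V) : (slots w N a).card = N * ∑ v ∈ a, w v := by
  classical
  have h : slots w N a = a.sigma (fun v => (univ : Finset (Fin (N * w v)))) := by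
    ext s
    simp [slots]
  rw [h, Finset.card_sigma, Finset.mul_sum]
  simp

/-- The product bound forces one of the two numbers to be small. -/
theorem core_L1 {s t r R : ℕ} (h1 : R + 1 ≤ s + t) (h2 : s * t ≤ 2 * r * R) (hr : 1 ≤ r)
    (hs : 4 * r ≤ s) : t < 4 * r := by
  by_contra hcon
  push Not at hcon
  have h3 : (4 * r) * (s + t) ≤ 2 * (s * t) := by
    nlinarith [Nat.mul_le_mul hs (le_refl t), Nat.mul_le_mul hcon (le_refl s)]
  have h4 : (4 * r) * (R + 1) ≤ (4 * r) * (s + t) := Nat.mul_le_mul_left _ h1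
  nlinarith

theorem Charge.exists_argmin (C : Charge A B w r N) (s : Slot w N)
    (hs : 1 ≤ N * w s.1) : ∃ y, C.h s y = C.mu s := by
  have hne : (Set.range (C.h s)).Nonempty := ⟨_, ⟨⟨0, hs⟩, rfl⟩⟩
  exact Nat.sInf_mem hne

theorem Charge.mu_le (C : Charge A B w r N) (s : Slot w N) (y : Fin (N * w s.1)) :
    C.mu s ≤ C.h s y := Nat.sInf_le ⟨y, rfl⟩

theorem Charge.mul_mu_le (C : Charge A B w r N) (s : Slot w N) :
    N * w s.1 * C.mu s ≤ C.X s := by
  unfold Charge.X
  have h : ∑ _y : Fin (N * w s.1), C.mu s ≤ ∑ y, C.h s y :=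
    Finset.sum_le_sum (fun y _ => C.mu_le s y)
  simpa using h

theorem Charge.sum_X_eq (C : Charge A B w r N) : ∑ s : Slot w N, C.X s = C.total := by
  unfold Charge.total Charge.G
  rw [Fintype.sum_sigma]

theorem Charge.sum_X_le (C : Charge A B w r N) (S : Finset (Slot w N)) :
    ∑ s ∈ S, C.X s ≤ C.total := by
  rw [← C.sum_X_eq]
  exact Finset.sum_le_sum_of_subset (Finset.subset_univ _)

omit [Fintype V] [DecidableEq V] in
theorem one_le_r_of_mem (hw : ∀ v, 1 ≤ w v) {a : Finset V} (hs : ∑ v ∈ a, w v = r) {v : V}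
    (hv : v ∈ a) : 1 ≤ r := by
  have h2 : w v ≤ ∑ v ∈ a, w v := Finset.single_le_sum (fun _ _ => Nat.zero_le _) hv
  have h3 := hw v
  omega

/-- Counting the empty entries over `v`. -/
theorem count_empty {a : Finset V} {S : Finset (Slot w N)} (hS : S ⊆ slots w N a)
    (hcard : (slots w N a).card = N * r) {K : ℕ} (hK : N * r ≤ S.card + K) {v : V}
    (hv : v ∈ a) (f : Fin (N * w v) → ℕ) (hf : ∀ x, f x = 0 → (⟨v, x⟩ : Slot w N) ∉ S) :
    N * w v ≤ (univ.filter (fun x => 1 ≤ f x)).card + K := by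
  classical
  have h1 : (univ.filter (fun x : Fin (N * w v) => ¬ (1 ≤ f x))).card ≤ (slots w N a \ S).card := by
    apply Finset.card_le_card_of_injOn (fun x => (⟨v, x⟩ : Slot w N))
    · intro x hx
      have hx2 := (Finset.mem_filter.1 (Finset.mem_coe.1 hx)).2
      have hx' : f x = 0 := by omega
      refine Finset.mem_coe.2 (Finset.mem_sdiff.2 ⟨?_, hf x hx'⟩)
      simp [slots, hv]
    · intro x _ y _ hxy
      simpa using hxy
  have h2 : (slots w N a \ S).card = (slots w N a).card - S.card :=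
    Finset.card_sdiff_of_subset hS
  have h3 := Finset.card_filter_add_card_filter_not
    (s := (univ : Finset (Fin (N * w v)))) (p := fun x => 1 ≤ f x)
  simp only [Finset.card_univ, Fintype.card_fin] at h3
  omega

theorem Charge.hasA (hG : Good A B w r κ) (hN : 8 ≤ N) (C : Charge A B w r N)
    (hT : C.total ≤ 2 * (N * r) ^ 2) (a : Finset V) (ha : a ∈ A) (hd : Disjoint a C.UA)
    (v : V) (hv : v ∈ a) :
    N * w v ≤ (univ.filter (fun x => 1 ≤ C.mu ⟨v, x⟩)).card + 4 * r := by
  classical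
  have hr : 1 ≤ r := one_le_r_of_mem hG.wpos (hG.hA.sum a ha) hv
  have hpos : ∀ u, 1 ≤ N * w u := fun u => Nat.mul_pos (by omega) (hG.wpos u)
  choose π hπ using fun s : Slot w N => C.exists_argmin s (hpos s.1)
  obtain ⟨S, hS, t, ht, hSt, hSh⟩ := C.hA a ha π
  have hcard : (slots w N a).card = N * r := by rw [card_slots_core, hG.hA.sum a ha]
  have hmu : ∀ s ∈ S, t ≤ C.mu s := fun s hs => by rw [← hπ s]; exact (hSh s hs).1
  -- product bound
  have hprod : S.card * t ≤ 2 * r * (N * r) := by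
    have h1 : ∑ s ∈ S, N * t ≤ ∑ s ∈ S, C.X s := by
      refine Finset.sum_le_sum (fun s hs => ?_)
      calc N * t ≤ N * w s.1 * C.mu s := by
            refine Nat.mul_le_mul ?_ (hmu s hs)
            exact Nat.le_mul_of_pos_right _ (hG.wpos s.1)
        _ ≤ C.X s := C.mul_mu_le s
    have h2 := C.sum_X_le S
    rw [Finset.sum_const, smul_eq_mul] at h1
    have h3 : N * (S.card * t) ≤ N * (2 * r * (N * r)) := by
      calc N * (S.card * t) = S.card * (N * t) := by ring
        _ ≤ 2 * (N * r) ^ 2 := by omega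
        _ = N * (2 * r * (N * r)) := by ring
    exact Nat.le_of_mul_le_mul_left h3 (by omega)
  have hbig : 4 * r ≤ S.card := by
    by_contra hcon
    push Not at hcon
    have hne : S.Nonempty := by
      rw [← Finset.card_pos]; omega
    obtain ⟨s, hs⟩ := hne
    have h1 := hmu s hs
    have h2 : s.1 ∈ C.UA := by
      unfold Charge.UA
      simp only [Finset.mem_filter, Finset.mem_univ, true_and]
      refine ⟨s.2, ?_⟩
      have : C.mu ⟨s.1, s.2⟩ = C.mu s := rfl
      rw [this]; omega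
    have h3 : s.1 ∈ a := by
      have := hS hs
      simpa [slots] using this
    exact (Finset.disjoint_left.1 hd h3) h2
  have hlt := core_L1 hSt hprod hr hbig
  have hSle : S.card ≤ N * r := by rw [← hcard]; exact Finset.card_le_card hS
  refine count_empty hS hcard (by omega) hv (fun x => C.mu ⟨v, x⟩) ?_
  intro x hx hxS
  have := hmu _ hxS
  omega

theorem Charge.hasB (hG : Good A B w r κ) (hN : 8 ≤ N) (C : Charge A B w r N)
    (b : Finset V) (hb : b ∈ B) (hd : Disjoint b C.UB)
    (v : V) (hv : v ∈ b) (x : Fin (N * w v)) (hx : C.Light ⟨v, x⟩) :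
    N * w v ≤ (univ.filter (fun y => 1 ≤ C.h ⟨v, x⟩ y)).card + 4 * r := by
  classical
  have hr : 1 ≤ r := one_le_r_of_mem hG.wpos (hG.hB.sum b hb) hv
  have hpos : ∀ u, 1 ≤ N * w u := fun u => Nat.mul_pos (by omega) (hG.wpos u)
  have hex : ∀ v' : V, ∃ x' : Fin (N * w v'), v' ∉ C.UB → C.Light ⟨v', x'⟩ := by
    intro v'
    by_cases hv' : v' ∈ C.UB
    · exact ⟨⟨0, hpos v'⟩, fun h => absurd hv' h⟩
    · have h1 := hv'
      unfold Charge.UB at h1
      simp only [Finset.mem_filter, Finset.mem_univ, true_and, not_forall, not_not] at h1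
      obtain ⟨x', hx'⟩ := h1
      exact ⟨x', fun _ => hx'⟩
  choose χ0 hχ0 using hex
  have hlight : ∀ v' ∈ b, C.Light ⟨v', Function.update χ0 v x v'⟩ := by
    intro v' hv'
    by_cases h : v' = v
    · subst h
      rw [Function.update_self]; exact hx
    · rw [Function.update_of_ne h]
      exact hχ0 v' (Finset.disjoint_left.1 hd hv')
  obtain ⟨S, hS, t, ht, hSt, hSh⟩ := C.hB b hb (Function.update χ0 v x)
  have hcard : (slots w N b).card = N * r := by rw [card_slots_core, hG.hB.sum b hb]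
  have hmh : ∀ s ∈ S, t ≤ C.h ⟨s.1, Function.update χ0 v x s.1⟩ s.2 :=
    fun s hs => le_trans (hSh s hs) (C.m_le _ _)
  have hmem : ∀ s ∈ S, s.1 ∈ b := by
    intro s hs
    have := hS hs
    simpa [slots] using this
  have hbr : b.card ≤ r := by
    rw [← hG.hB.sum b hb, Finset.card_eq_sum_ones]
    exact Finset.sum_le_sum (fun u _ => hG.wpos u)
  have hprod : S.card * t ≤ 2 * r * (N * r) := by
    have h1 : ∑ s ∈ S, t ≤ ∑ s ∈ S, C.h ⟨s.1, Function.update χ0 v x s.1⟩ s.2 :=
      Finset.sum_le_sum hmh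
    have h2 : ∑ s ∈ S, C.h ⟨s.1, Function.update χ0 v x s.1⟩ s.2 ≤
        ∑ s ∈ slots w N b, C.h ⟨s.1, Function.update χ0 v x s.1⟩ s.2 :=
      Finset.sum_le_sum_of_subset hS
    have h3 : slots w N b = b.sigma (fun v => (univ : Finset (Fin (N * w v)))) := by
      ext s
      simp [slots]
    have h4 : ∑ s ∈ slots w N b, C.h ⟨s.1, Function.update χ0 v x s.1⟩ s.2 =
        ∑ v' ∈ b, C.X ⟨v', Function.update χ0 v x v'⟩ := by
      rw [h3, Finset.sum_sigma]
      rfl
    have h5 : ∑ v' ∈ b, C.X ⟨v', Function.update χ0 v x v'⟩ ≤ ∑ _v' ∈ b, 2 * (N * r) :=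
      Finset.sum_le_sum (fun v' hv' => le_of_lt (hlight v' hv').2)
    rw [Finset.sum_const, smul_eq_mul] at h1 h5
    calc S.card * t ≤ b.card * (2 * (N * r)) := by omega
      _ ≤ r * (2 * (N * r)) := Nat.mul_le_mul_right _ hbr
      _ = 2 * r * (N * r) := by ring
  have hbig : 4 * r ≤ S.card := by
    by_contra hcon
    push Not at hcon
    have hne : S.Nonempty := by
      rw [← Finset.card_pos]; omega
    obtain ⟨s, hs⟩ := hne
    have h1 := hmh s hs
    have h2 := (hlight s.1 (hmem s hs)).1 s.2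
    omega
  have hlt := core_L1 hSt hprod hr hbig
  have hSle : S.card ≤ N * r := by rw [← hcard]; exact Finset.card_le_card hS
  refine count_empty hS hcard (by omega) hv (fun y => C.h ⟨v, x⟩ y) ?_
  intro y hy hyS
  have h1 := hmh _ hyS
  have h2 : C.h ⟨v, Function.update χ0 v x v⟩ y = C.h ⟨v, x⟩ y :=
    congrArg (fun z => C.h ⟨v, z⟩ y) (Function.update_self (f := χ0) v x)
  have h3 : t ≤ C.h ⟨v, Function.update χ0 v x v⟩ y := h1
  omega

end Core

end Pool.Agent.Work.MP_2e8aec_co
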