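import Pool.Agent.Work.MP_2e8aec_co.Defs

/-!
# Biclique covers: exact statements of all modules

Each block `MODULE name` is to be proved in its own file
`Pool/Agent/Work/MP_2e8aec_co/<name>.lean`, importing only `Defs` (and the named modules).
-/

set_option autoImplicit false

namespace Pool.Agent.Work.MP_2e8aec_co

open Finset

/-! ### MODULE Seed -/

theorem exGood_seed : ExGood (65 / 64) := by
  sorry

/-! ### MODULE Comp -/

theorem half_comp {V₁ V₂ : Type} [Fintype V₁] [DecidableEq V₁] [Fintype V₂] [DecidableEq V₂]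
    {A₁ B₁ : Finset (Finset V₁)} {A₂ B₂ : Finset (Finset V₂)} {w₁ : V₁ → ℕ} {w₂ : V₂ → ℕ}
    {r₁ r₂ : ℕ} {κ₁ κ₂ : ℝ} (hκ₁ : 1 ≤ κ₁) (hκ₂ : 1 ≤ κ₂)
    (hw₁ : ∀ v, 1 ≤ w₁ v) (hw₂ : ∀ v, 1 ≤ w₂ v)
    (h₁ : Half A₁ B₁ w₁ r₁ κ₁) (h₂ : Half A₂ B₂ w₂ r₂ κ₂) :
    Half (comp A₁ A₂) (comp B₁ B₂) (fun p => w₁ p.1 * w₂ p.2) (r₁ * r₂) (κ₁ * κ₂) := by
  sorry

/-! ### MODULE CompEx (may use `Comp`) -/

theorem exGood_comp {κ₁ κ₂ : ℝ} (hκ₁ : 1 ≤ κ₁) (hκ₂ : 1 ≤ κ₂) (h₁ : ExGood κ₁)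
    (h₂ : ExGood κ₂) : ExGood (κ₁ * κ₂) := by
  sorry

/-! ### ASSEMBLY 1 -/

theorem exGood_pow (n : ℕ) : ExGood ((65 / 64) ^ (n + 1)) := by
  induction n with
  | zero => simpa using exGood_seed
  | succ n ih =>
    rw [pow_succ]
    exact exGood_comp (one_le_pow₀ (by norm_num)) (by norm_num) ih exGood_seed

theorem exGood_big : ∃ κ : ℝ, 2 < κ ∧ ExGood κ :=
  ⟨(65 / 64) ^ (44 + 1), by norm_num, exGood_pow 44⟩

/-! ### MODULE Hall -/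

theorem hall_aux {α : Type} [DecidableEq α] (s : Finset α) (R : ℕ) (hs : s.card = R)
    (D : α → Fin R → Prop)
    (h : ∀ σ : {x // x ∈ s} ≃ Fin R, ∃ x : {x // x ∈ s}, D x.1 (σ x)) :
    ∃ S ⊆ s, ∃ T : Finset (Fin R), R + 1 ≤ S.card + T.card ∧ ∀ x ∈ S, ∀ j ∈ T, D x j := by
  sorry

section Lift

variable {V : Type} [Fintype V] [DecidableEq V] {A B : Finset (Finset V)} {w : V → ℕ} {r N : ℕ}
  {κ : ℝ}

/-! ### MODULE LiftA -/

theorem card_slots (a : Finset V) : (slots w N a).card = N * ∑ v ∈ a, w v := by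
  sorry

theorem nonempty_XObj (hG : Good A B w r κ) (hN : 1 ≤ N) [Nonempty V] :
    Nonempty (XObj A w r N) := by
  sorry

theorem nonempty_YObj (hG : Good A B w r κ) (hN : 1 ≤ N) [Nonempty V] :
    Nonempty (YObj B w r N) := by
  sorry

theorem fX_gY_exact (hG : Good A B w r κ) (x : XObj A w r N) (y : YObj B w r N) :
    ∃! k, fX x k = gY y k := by
  sorry

theorem fX_span (hG : Good A B w r κ) (hN : 1 ≤ N) (x : XObj A w r N)
    (k : Fin (N * r) × Fin (N * r)) : ∃ y : YObj B w r N, gY y k = fX x k := by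
  sorry

theorem gY_span (hG : Good A B w r κ) (hN : 1 ≤ N) (y : YObj B w r N)
    (k : Fin (N * r) × Fin (N * r)) : ∃ x : XObj A w r N, fX x k = gY y k := by
  sorry

/-! ### MODULE LiftB -/

theorem fX_anti (hN : 1 ≤ N) (hr : 3 ≤ N * r) (i j : Fin (N * r) × Fin (N * r))
    (x x' : XObj A w r N) (h : ∀ z : XObj A w r N, fX z i = fX x i → fX z j = fX x' j) :
    ∀ z : XObj A w r N, fX z j = fX x' j → fX z i = fX x i := by
  sorry

theorem gY_anti (hN : 1 ≤ N) (hr : 3 ≤ N * r) (i j : Fin (N * r) × Fin (N * r))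
    (y y' : YObj B w r N) (h : ∀ z : YObj B w r N, gY z i = gY y i → gY z j = gY y' j) :
    ∀ z : YObj B w r N, gY z j = gY y' j → gY z i = gY y i := by
  sorry

/-! ### MODULE LiftC (uses `Hall`, `card_slots`) -/

theorem exists_charge (hG : Good A B w r κ)
    (H : Finset ((Fin (N * r) × Fin (N * r)) × Elem w N))
    (hX : ∀ x : XObj A w r N, ∃ k, (k, fX x k) ∈ H)
    (hY : ∀ y : YObj B w r N, ∃ k, (k, gY y k) ∈ H) :
    ∃ C : Charge A B w r N, C.total = H.card := by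
  sorry

/-! ### ASSEMBLY 2 -/

theorem counterEx_of_core [Nonempty V] (hG : Good A B w r κ) (hN : 1 ≤ N) (hr : 3 ≤ N * r)
    (hcore : ∀ C : Charge A B w r N, 2 * (N * r) ^ 2 ≤ C.total + 1) :
    CounterEx (Fin (N * r) × Fin (N * r)) := by
  classical
  refine ⟨XObj A w r N, YObj B w r N, Elem w N, inferInstance, inferInstance, inferInstance,
    fX, gY, nonempty_XObj hG hN, nonempty_YObj hG hN, fX_gY_exact hG, fX_span hG hN,
    gY_span hG hN, fX_anti hN hr, gY_anti hN hr, ?_⟩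
  intro H hH
  by_contra hcon
  push Not at hcon
  obtain ⟨hX, hY⟩ := hcon
  obtain ⟨C, hC⟩ := exists_charge hG H hX hY
  have h1 := hcore C
  have h2 : Fintype.card (Fin (N * r) × Fin (N * r)) = (N * r) ^ 2 := by
    simp [Fintype.card_prod, sq]
  omega

end Lift

section Core

variable {V : Type} [Fintype V] [DecidableEq V] {A B : Finset (Finset V)} {w : V → ℕ} {r N : ℕ}
  {κ : ℝ}

/-! ### MODULE CoreAB -/

theorem Charge.hasA (hG : Good A B w r κ) (hN : 8 ≤ N) (C : Charge A B w r N)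
    (hT : C.total ≤ 2 * (N * r) ^ 2) (a : Finset V) (ha : a ∈ A) (hd : Disjoint a C.UA)
    (v : V) (hv : v ∈ a) :
    N * w v ≤ (univ.filter (fun x => 1 ≤ C.mu ⟨v, x⟩)).card + 4 * r := by
  sorry

theorem Charge.hasB (hG : Good A B w r κ) (hN : 8 ≤ N) (C : Charge A B w r N)
    (b : Finset V) (hb : b ∈ B) (hd : Disjoint b C.UB)
    (v : V) (hv : v ∈ b) (x : Fin (N * w v)) (hx : C.Light ⟨v, x⟩) :
    N * w v ≤ (univ.filter (fun y => 1 ≤ C.h ⟨v, x⟩ y)).card + 4 * r := by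
  sorry

/-! ### MODULE Cost (uses `CoreAB`) -/

theorem Charge.costA (hG : Good A B w r κ) (hN : 8 ≤ N) (C : Charge A B w r N)
    (hT : C.total ≤ 2 * (N * r) ^ 2) (v : V) :
    ((N * r : ℕ) - 4 * r : ℝ) * ((if v ∈ C.UA then ((N * w v : ℕ) : ℝ) else 0)
        + (((N * w v : ℕ) : ℝ) - C.ell v) - 1)
      + (if v ∈ reach A C.UA then (((N * w v : ℕ) : ℝ) - 4 * r) * (((N * w v : ℕ) : ℝ) - 1)
          else 0) ≤ C.G v := by
  sorry

theorem Charge.costB (hG : Good A B w r κ) (hN : 8 ≤ N) (C : Charge A B w r N) (v : V) :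
    ((N * r : ℕ) - 4 * r : ℝ) * ((if v ∈ C.UA then ((N * w v : ℕ) : ℝ) else 0)
        + (((N * w v : ℕ) : ℝ) - C.ell v) - 1)
      + (if v ∈ reach B C.UB then (C.ell v : ℝ) * (((N * w v : ℕ) : ℝ) - 4 * r)
          else 0) ≤ C.G v := by
  sorry

/-! ### MODULE Layer -/

theorem layer (hG : Half B A w r κ) (hκ : 0 ≤ κ) (z : V → ℝ) (h0 : ∀ v, 0 ≤ z v)
    (h1 : ∀ v, z v ≤ 1) (U : Finset V) (hU : ∀ v, v ∈ U ↔ z v = 1) :
    κ * (r : ℝ) * ((r : ℝ) - ∑ v, (w v : ℝ) * z v) ≤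
      ∑ v ∈ reach B U, (1 - z v) * (w v : ℝ) ^ 2 := by
  sorry

/-! ### MODULE Real2 (uses `Layer`) -/

theorem real2 [Nonempty V] (hG : Good A B w r κ) (hκ : 2 < κ) :
    ∃ δ : ℝ, 0 < δ ∧ ∀ (UA UB : Finset V) (z : V → ℝ), (∀ v, 0 ≤ z v) → (∀ v, z v ≤ 1) →
      (∀ v, v ∈ UB ↔ z v = 1) →
      (UA ∈ B ∧ UB ∈ A) ∨
      2 * (r : ℝ) ^ 2 + δ ≤ r * (∑ v ∈ UA, (w v : ℝ) + ∑ v, (w v : ℝ) * z v)
        + ∑ v ∈ reach A UA, (w v : ℝ) ^ 2 ∨
      2 * (r : ℝ) ^ 2 + δ ≤ r * (∑ v ∈ UA, (w v : ℝ) + ∑ v, (w v : ℝ) * z v)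
        + ∑ v ∈ reach B UB, (1 - z v) * (w v : ℝ) ^ 2 := by
  sorry

/-! ### MODULE NonTight (uses `Cost`, `Real2`) -/

theorem nontight [Nonempty V] (hG : Good A B w r κ) (hκ : 2 < κ) :
    ∃ N₀ : ℕ, ∀ N ≥ N₀, ∀ C : Charge A B w r N, ¬ (C.UA ∈ B ∧ C.UB ∈ A) →
      2 * (N * r) ^ 2 ≤ C.total + 1 := by
  sorry

/-! ### MODULE TightE -/

/-- Sum of the minimal charges over all classes except the starred ones. -/
theorem Charge.tight_mu (hG : Good A B w r κ) (hN : 8 ≤ N) (C : Charge A B w r N)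
    (hT : C.total + 2 ≤ 2 * (N * r) ^ 2) (h1 : C.UA ∈ B) (h2 : C.UB ∈ A)
    (xs : (v : V) → Fin (N * w v)) (hxs : ∀ v ∈ C.UA, N * r ≤ C.mu ⟨v, xs v⟩ + 4 * r) :
    ∑ s ∈ univ.filter (fun s : Slot w N => ¬ (s.1 ∈ C.UA ∧ s.2 = xs s.1)), C.mu s
      ≤ 2 * (8 * r + 1) * r := by
  sorry

/-- Outside `UB` there is a class of small total charge. -/
theorem Charge.tight_small (hG : Good A B w r κ) (hN : 8 ≤ N) (C : Charge A B w r N)
    (hT : C.total + 2 ≤ 2 * (N * r) ^ 2) (h1 : C.UA ∈ B) (h2 : C.UB ∈ A) (v : V)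
    (hv : v ∉ C.UB) : ∃ x, C.X ⟨v, x⟩ ≤ 2 * (8 * r + 1) * r := by
  sorry

/-! ### MODULE TightA (uses `TightE`) -/

theorem Charge.tight_F (hG : Good A B w r κ) (hN : 40 * r ^ 3 ≤ N) (C : Charge A B w r N)
    (hT : C.total + 2 ≤ 2 * (N * r) ^ 2) (h1 : C.UA ∈ B) (h2 : C.UB ∈ A)
    (xs : (v : V) → Fin (N * w v)) (hxs : ∀ v ∈ C.UA, N * r ≤ C.mu ⟨v, xs v⟩ + 4 * r)
    (u : V) (hu : u ∈ C.UA) (y : Fin (N * w u)) : C.F ⟨u, xs u⟩ y := by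
  sorry

/-! ### MODULE TightB (uses `TightE`) -/

theorem Charge.tight_S (hG : Good A B w r κ) (hN : 40 * r ^ 3 ≤ N) (C : Charge A B w r N)
    (hT : C.total + 2 ≤ 2 * (N * r) ^ 2) (h1 : C.UA ∈ B) (h2 : C.UB ∈ A)
    (u : V) (hu : u ∈ C.UB) (c : Fin (N * w u)) :
    ∃ S : Finset (Fin (N * w u)), ∃ t : ℕ, 1 ≤ t ∧ 1 ≤ S.card ∧ S.card + 1 ≤ N * r ∧
      N * r + 1 ≤ S.card + t ∧ t ≤ N * r ∧ ∀ y ∈ S, t ≤ C.m ⟨u, c⟩ y := by
  sorry

/-! ### MODULE TightF (uses `TightA`, `TightB`) -/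

theorem tight_case (hG : Good A B w r κ) (hN : 40 * r ^ 3 ≤ N) (C : Charge A B w r N)
    (h1 : C.UA ∈ B) (h2 : C.UB ∈ A) : 2 * (N * r) ^ 2 ≤ C.total + 1 := by
  sorry

/-! ### ASSEMBLY 3 -/

theorem core [Nonempty V] (hG : Good A B w r κ) (hκ : 2 < κ) :
    ∃ N₀ : ℕ, ∀ N ≥ N₀, ∀ C : Charge A B w r N, 2 * (N * r) ^ 2 ≤ C.total + 1 := by
  obtain ⟨N₀, h₀⟩ := nontight hG hκ
  refine ⟨max N₀ (40 * r ^ 3), fun N hN C => ?_⟩
  by_cases h : C.UA ∈ B ∧ C.UB ∈ A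
  · exact tight_case hG (le_trans (le_max_right _ _) hN) C h.1 h.2
  · exact h₀ N (le_trans (le_max_left _ _) hN) C h

end Core

theorem exists_counterEx : ∃ R : ℕ, 2 ≤ R ∧ CounterEx (Fin R × Fin R) := by
  obtain ⟨κ, hκ, V, i1, i2, i3, A, B, w, r, hG⟩ := exGood_big
  obtain ⟨N₀, h₀⟩ := core hG hκ
  have hr : 1 ≤ r := by
    obtain ⟨v⟩ := i3
    obtain ⟨a, ha, hva⟩ := hG.hA.cov v
    have h1 := hG.hA.sum a ha
    have h2 : w v ≤ ∑ v ∈ a, w v := Finset.single_le_sum (fun _ _ => Nat.zero_le _) hva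
    have h3 := hG.wpos v
    omega
  have hN : 3 ≤ max N₀ 3 := le_max_right _ _
  have hNr : 3 ≤ max N₀ 3 * r := le_trans hN (Nat.le_mul_of_pos_right _ hr)
  exact ⟨max N₀ 3 * r, by omega, counterEx_of_core hG (by omega) hNr
    (h₀ _ (le_max_left _ _))⟩

/-! ### MODULE FinalA -/

theorem finalA {K : Type} [Fintype K] [DecidableEq K] (hK : 2 ≤ Fintype.card K)
    (h : CounterEx K) :
    ∃ k m n : ℕ, 2 ≤ k ∧ 1 ≤ m ∧ 1 ≤ n ∧ ∃ c : Fin m → Fin n → Fin k,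
      ∀ S : Finset (Fin k × (Fin m ⊕ Fin n)),
        (∀ w : Fin m ⊕ Fin n, ∃ p ∈ S,
          (SimpleGraph.fromRel (fun x y : Fin m ⊕ Fin n =>
            ∃ a b, x = Sum.inl a ∧ y = Sum.inr b ∧ c a b = p.1)).Reachable p.2 w) →
        2 * k - 2 < S.card := by
  sorry

/-! ### MODULE FinalB -/

theorem finalB {K : Type} [Fintype K] [DecidableEq K] (hK : 2 ≤ Fintype.card K)
    (h : CounterEx K) :
    ∃ m n r : ℕ, 0 < m ∧ 0 < n ∧ 2 ≤ r ∧ ∃ c : Fin m → Fin n → Fin r,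
      (∀ x x' : Fin m, ∀ y y' : Fin n,
          c x y = c x' y → c x' y' = c x' y → c x y' = c x y) ∧
      (∀ (x : Fin m) (i : Fin r), ∃ y : Fin n, c x y = i) ∧
      (∀ (y : Fin n) (i : Fin r), ∃ x : Fin m, c x y = i) ∧
      (∀ (i j : Fin r) (y y' : Fin n),
          ¬ (({x : Fin m | c x y = i} : Set (Fin m)) ⊂ {x : Fin m | c x y' = j})) ∧
      (∀ (i j : Fin r) (x x' : Fin m),
          ¬ (({y : Fin n | c x y = i} : Set (Fin n)) ⊂ {y : Fin n | c x' y = j})) ∧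
      ∀ S : Finset (Fin r × Fin n), S.card ≤ 2 * r - 2 →
        ¬ ((∀ x : Fin m, ∃ p ∈ S, c x p.2 = p.1) ∧
          (∀ y : Fin n, ∃ p ∈ S, ∃ x : Fin m, c x p.2 = p.1 ∧ c x y = p.1)) := by
  sorry

/-! ### ASSEMBLY 4: the frozen statements -/

theorem target_A :
    ¬ (∀ k : ℕ, 2 ≤ k →
    (∀ m n : ℕ, 1 ≤ m → 1 ≤ n → ∀ c : Fin m → Fin n → Fin k,
      ∃ S : Finset (Fin k × (Fin m ⊕ Fin n)), S.card ≤ 2 * k - 2 ∧
        ∀ w : Fin m ⊕ Fin n, ∃ p ∈ S,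
          (SimpleGraph.fromRel (fun x y : Fin m ⊕ Fin n =>
            ∃ a b, x = Sum.inl a ∧ y = Sum.inr b ∧ c a b = p.1)).Reachable p.2 w) ∧
    (∃ m n : ℕ, 1 ≤ m ∧ 1 ≤ n ∧ ∃ c : Fin m → Fin n → Fin k,
      ∀ S : Finset (Fin k × (Fin m ⊕ Fin n)),
        (∀ w : Fin m ⊕ Fin n, ∃ p ∈ S,
          (SimpleGraph.fromRel (fun x y : Fin m ⊕ Fin n =>
            ∃ a b, x = Sum.inl a ∧ y = Sum.inr b ∧ c a b = p.1)).Reachable p.2 w) →
        2 * k - 2 ≤ S.card)) := by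
  intro hall
  obtain ⟨R, hR, hC⟩ := exists_counterEx
  have hK : 2 ≤ Fintype.card (Fin R × Fin R) := by
    simp only [Fintype.card_prod, Fintype.card_fin]; nlinarith
  obtain ⟨k, m, n, hk, hm, hn, c, hc⟩ := finalA hK hC
  obtain ⟨S, hS, hcov⟩ := (hall k hk).1 m n hm hn c
  exact absurd (hc S hcov) (by omega)

theorem target_B :
    ¬ (∀ (m n r : ℕ), 0 < m → 0 < n → 2 ≤ r → ∀ c : Fin m → Fin n → Fin r,
      (∀ x x' : Fin m, ∀ y y' : Fin n,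
          c x y = c x' y → c x' y' = c x' y → c x y' = c x y) →
      (∀ (x : Fin m) (i : Fin r), ∃ y : Fin n, c x y = i) →
      (∀ (y : Fin n) (i : Fin r), ∃ x : Fin m, c x y = i) →
      (∀ (i j : Fin r) (y y' : Fin n),
          ¬ (({x : Fin m | c x y = i} : Set (Fin m)) ⊂ {x : Fin m | c x y' = j})) →
      (∀ (i j : Fin r) (x x' : Fin m),
          ¬ (({y : Fin n | c x y = i} : Set (Fin n)) ⊂ {y : Fin n | c x' y = j})) →
      ∃ S : Finset (Fin r × Fin n), S.card ≤ 2 * r - 2 ∧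
        (∀ x : Fin m, ∃ p ∈ S, c x p.2 = p.1) ∧
        (∀ y : Fin n, ∃ p ∈ S, ∃ x : Fin m, c x p.2 = p.1 ∧ c x y = p.1)) := by
  intro hall
  obtain ⟨R, hR, hC⟩ := exists_counterEx
  have hK : 2 ≤ Fintype.card (Fin R × Fin R) := by
    simp only [Fintype.card_prod, Fintype.card_fin]; nlinarith
  obtain ⟨m, n, r, hm, hn, hr, c, h1, h2, h3, h4, h5, h6⟩ := finalB hK hC
  obtain ⟨S, hS, hc1, hc2⟩ := hall m n r hm hn hr c h1 h2 h3 h4 h5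
  exact h6 S hS ⟨hc1, hc2⟩

end Pool.Agent.Work.MP_2e8aec_co
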